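import Pool.Agent.Q170.PO.St

/-!
# Values of integral polynomials in the valuation ring
-/

set_option autoImplicit false
set_option linter.unusedSectionVars false

open UpperHalfPlane H294ZP Polynomial

namespace Pool.Agent.Q170.PO

open Pool.Agent.Y226 Pool.Agent.Y226.ZG Pool.Agent.Y226.ZM

section vl

variable {R : Type*} [CommRing R]

theorem vl_mul (P Q : ℤ[X]) (u : R) : vl (P * Q) u = vl P u * vl Q u := by
  unfold vl
  rw [eval₂_mul]

theorem vl_add (P Q : ℤ[X]) (u : R) : vl (P + Q) u = vl P u + vl Q u := by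
  unfold vl
  rw [eval₂_add]

theorem vl_sub (P Q : ℤ[X]) (u : R) : vl (P - Q) u = vl P u - vl Q u := by
  unfold vl
  rw [eval₂_sub]

theorem vl_pow (P : ℤ[X]) (n : ℕ) (u : R) : vl (P ^ n) u = vl P u ^ n := by
  unfold vl
  rw [eval₂_pow]

theorem vl_eq_eval (P : ℤ[X]) (u : R) : vl P u = (P.map (Int.castRingHom R)).eval u := by
  unfold vl
  rw [eval_map]

theorem vl_rd {p : ℕ} {k : Type*} [Field k] [CharP k p] (P : ℤ[X]) (x : k) :
    vl P x = (rd p P).eval₂ (ZMod.castHom dvd_rfl k) x := by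
  unfold vl rd
  rw [eval₂_map, int_hom ((ZMod.castHom dvd_rfl k).comp _) (Int.castRingHom k)]

theorem rd_mul (p : ℕ) (P Q : ℤ[X]) : rd p (P * Q) = rd p P * rd p Q := by
  unfold rd
  rw [Polynomial.map_mul]

theorem rd_sub (p : ℕ) (P Q : ℤ[X]) : rd p (P - Q) = rd p P - rd p Q := by
  unfold rd
  rw [Polynomial.map_sub]

theorem rd_deriv (p : ℕ) (P : ℤ[X]) : rd p (derivative P) = derivative (rd p P) := by
  unfold rd
  rw [derivative_map]

end vl

section C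

variable {C : Type} [NormedField C] [IsUltrametricDist C]
variable {p : ℕ} [hpf : Fact p.Prime]

theorem vl_le (P : ℤ[X]) {u : C} (hu : ‖u‖ ≤ 1) : ‖vl P u‖ ≤ 1 := by
  unfold vl
  rw [eval₂_eq_sum_range]
  refine nsum_le _ _ zero_le_one fun i _ => ?_
  exact nmul_le (nint _) (npow_le hu _)

theorem vl_sub_le (P : ℤ[X]) {u e : C} (hu : ‖u‖ ≤ 1) (he : ‖e‖ ≤ 1) :
    ‖vl P u - vl P e‖ ≤ ‖u - e‖ := by
  unfold vl
  rw [eval₂_eq_sum_range, eval₂_eq_sum_range, ← Finset.sum_sub_distrib]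
  refine nsum_le _ _ (norm_nonneg _) fun i _ => ?_
  rw [← mul_sub]
  exact nmul_le (nint _) (npow_sub_pow hu he le_rfl _)

theorem vl_Nr (P : ℤ[X]) {e : C} (he : e ∈ Nr C p) : vl P e ∈ Nr C p := by
  unfold vl
  rw [eval₂_eq_sum_range]
  refine sum_mem fun i _ => mul_mem ?_ (pow_mem he _)
  exact intCast_mem _ _

/-- the value in the valuation ring -/
theorem vl_OO (P : ℤ[X]) (x : OO C) : ((vl P x : OO C) : C) = vl P (x : C) :=
  vl_map (OO C).subtype P x

variable {k : Type} [Field k] [CharP k p] (red : OO C →+* k)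
  (hker : ∀ x : OO C, red x = 0 ↔ ‖(x : C)‖ < 1)

include hker in
theorem cop_norm' {P Q : ℤ[X]} (h : IsCoprime (rd p P) (rd p Q)) {u : C} (hu : ‖u‖ ≤ 1)
    (hP : ‖vl P u‖ < 1) (hQ : ‖vl Q u‖ < 1) : False := by
  set x : OO C := ⟨u, hu⟩ with hx
  have h1 : vl P (red x) = 0 := by
    rw [← vl_map, hker, vl_OO]
    exact hP
  have h2 : vl Q (red x) = 0 := by
    rw [← vl_map, hker, vl_OO]
    exact hQ
  obtain ⟨A, B, hAB⟩ := h
  have h3 := congrArg (fun F => F.eval₂ (ZMod.castHom dvd_rfl k) (red x)) hAB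
  simp only [eval₂_add, eval₂_mul, eval₂_one] at h3
  rw [← vl_rd, ← vl_rd, h1, h2, mul_zero, mul_zero, add_zero] at h3
  exact zero_ne_one h3

end C

section C2

variable {C : Type} [NormedField C] [IsUltrametricDist C]
variable {p : ℕ} [hpf : Fact p.Prime]

theorem cop_norm (hp1 : ‖(p : C)‖ < 1) {P Q : ℤ[X]} (h : IsCoprime (rd p P) (rd p Q)) {u : C}
    (hu : ‖u‖ ≤ 1) (hP : ‖vl P u‖ < 1) : ‖vl Q u‖ = 1 := by
  obtain ⟨k, _, _, red, hker⟩ := exists_residue (C := C) (p := p) hp1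
  by_contra hQ
  exact cop_norm' red hker h hu hP (lt_of_le_of_ne (vl_le Q hu) hQ)

/-- roots of unity of order prime to `p` -/
theorem fixed_inj {x y : C} {f : ℕ} (hf : 0 < f) (hx : x ^ p ^ f = x) (hy : y ^ p ^ f = y)
    (hp1 : ‖(p : C)‖ < 1) (h : ‖x - y‖ < 1) : x = y := by
  have hy1 : ‖y‖ ≤ 1 := Nr_le (Nr_of_fixed hf hy)
  obtain ⟨r, hr, he⟩ := nadd_pow_prime hpf.out (x := x - y) (y := y) h.le hy1 f
  rw [sub_add_cancel, hx, hy] at he
  have hpf1 : 1 < p ^ f := Nat.one_lt_pow hf.ne' hpf.out.one_lt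
  have h1 : (x - y) * (1 - (x - y) ^ (p ^ f - 1) - p * y * r) = 0 := by
    have h2 : (x - y) ^ p ^ f = (x - y) * (x - y) ^ (p ^ f - 1) := by
      rw [← pow_succ', Nat.sub_add_cancel hpf1.le]
    rw [h2] at he
    linear_combination he
  rcases mul_eq_zero.1 h1 with h2 | h2
  · exact sub_eq_zero.1 h2
  · exfalso
    have h3 : (1 : C) = (x - y) ^ (p ^ f - 1) + p * (y * r) := by linear_combination h2
    have h4 : ‖(x - y) ^ (p ^ f - 1) + p * (y * r)‖ < 1 := by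
      refine nadd_lt (npow_lt h (by omega)) ?_
      rw [norm_mul]
      have h5 : ‖y * r‖ ≤ 1 := nmul_le hy1 hr
      calc ‖(p : C)‖ * ‖y * r‖ ≤ ‖(p : C)‖ * 1 := by gcongr
        _ < 1 := by rwa [mul_one]
    rw [← h3, norm_one] at h4
    exact lt_irrefl _ h4

theorem fixed_pow_mul {x : C} {f : ℕ} (h : x ^ p ^ f = x) (m : ℕ) : x ^ p ^ (f * m) = x :=
  Pool.Agent.Y226.fixed_mul h m

theorem fixed_inj' {x y : C} (hx : ∃ f : ℕ, 0 < f ∧ x ^ p ^ f = x)
    (hy : ∃ f : ℕ, 0 < f ∧ y ^ p ^ f = y) (hp1 : ‖(p : C)‖ < 1) (h : ‖x - y‖ < 1) : x = y := by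
  obtain ⟨f, hf, hf'⟩ := hx
  obtain ⟨g, hg, hg'⟩ := hy
  refine fixed_inj (f := f * g) (Nat.mul_pos hf hg) (fixed_pow_mul hf' g) ?_ hp1 h
  rw [mul_comm]
  exact fixed_pow_mul hg' f

/-- from the residue field -/
theorem fixed_of_red {k : Type} [Field k] [CharP k p] (red : OO C →+* k)
    (hker : ∀ x : OO C, red x = 0 ↔ ‖(x : C)‖ < 1) (hp1 : ‖(p : C)‖ < 1) {e : C} (he1 : ‖e‖ ≤ 1)
    (he : ∃ f : ℕ, 0 < f ∧ e ^ p ^ f = e) {B : ℕ}
    (h : red ⟨e, he1⟩ ^ p ^ B = red ⟨e, he1⟩) : e ^ p ^ B = e := by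
  have h1 : ‖e ^ p ^ B - e‖ < 1 := by
    have h2 : red (⟨e, he1⟩ ^ p ^ B - ⟨e, he1⟩) = 0 := by
      rw [map_sub, map_pow, h, sub_self]
    exact (hker _).1 h2
  refine fixed_inj' ?_ he hp1 h1
  obtain ⟨f, hf, hf'⟩ := he
  refine ⟨f, hf, ?_⟩
  rw [← pow_mul, mul_comm, pow_mul, hf']

/-- roots of a polynomial of small degree -/
theorem root_bound {k : Type} [Field k] [CharP k p] {T : (ZMod p)[X]} (hT : T ≠ 0) {D : ℕ}
    (hD : T.natDegree ≤ D) {x : k} (hx : T.eval₂ (ZMod.castHom dvd_rfl k) x = 0) :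
    x ^ p ^ D.factorial = x := by
  let _ : Algebra (ZMod p) k := ZMod.algebra k p
  have hint : IsIntegral (ZMod p) x := by
    refine IsAlgebraic.isIntegral ⟨T, hT, ?_⟩
    rw [aeval_def]
    exact hx
  have hdeg : (minpoly (ZMod p) x).natDegree ≤ D := by
    refine le_trans ?_ hD
    refine natDegree_le_of_dvd (minpoly.dvd _ _ ?_) hT
    rw [aeval_def]
    exact hx
  have hpos : 0 < (minpoly (ZMod p) x).natDegree := minpoly.natDegree_pos hint
  let L := IntermediateField.adjoin (ZMod p) ({x} : Set k)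
  have : FiniteDimensional (ZMod p) L := IntermediateField.adjoin.finiteDimensional hint
  have : Finite L := Module.finite_of_finite (ZMod p)
  have : Fintype L := Fintype.ofFinite L
  have hcard : Fintype.card L = p ^ (minpoly (ZMod p) x).natDegree := by
    rw [Module.card_eq_pow_finrank (K := ZMod p) (V := L), ZMod.card,
      IntermediateField.adjoin.finrank hint]
  have h1 := FiniteField.pow_card (⟨x, IntermediateField.mem_adjoin_simple_self _ x⟩ : L)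
  rw [hcard] at h1
  have h2 : x ^ p ^ (minpoly (ZMod p) x).natDegree = x := congrArg Subtype.val h1
  obtain ⟨m, hm⟩ := Nat.dvd_factorial hpos hdeg
  rw [hm]
  exact Pool.Agent.Y226.fixed_mul h2 m

/-- the order of a root of unity -/
theorem order_bound (hp1 : ‖(p : C)‖ < 1) {P Q : ℤ[X]} {u e ζ : C} (hu : ‖u‖ ≤ 1)
    (he1 : ‖e‖ ≤ 1) (hue : ‖u - e‖ < 1) {B : ℕ} (hB : 0 < B) (he : e ^ p ^ B = e)
    (hP : ‖vl P u‖ = 1) (hQ : ‖vl Q u‖ = 1) {g' : ℕ} (hg' : 0 < g') (hcop : g'.Coprime p)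
    (hζ : IsPrimitiveRoot ζ g') (h : ‖vl P u / vl Q u * ζ - 1‖ < 1) : g' ≤ p ^ B := by
  obtain ⟨k, _, _, red, hker⟩ := exists_residue (C := C) (p := p) hp1
  have hζn : ‖ζ‖ = 1 := by
    have h1 : ‖ζ‖ ^ g' = 1 := by rw [← norm_pow, hζ.pow_eq_one, norm_one]
    exact (pow_eq_one_iff_of_nonneg (norm_nonneg _) hg'.ne').1 h1
  set x : OO C := ⟨u, hu⟩ with hx
  set y : OO C := ⟨e, he1⟩ with hy
  set z : OO C := ⟨ζ, hζn.le⟩ with hz
  have hxy : red x = red y := by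
    rw [← sub_eq_zero, ← map_sub, hker]
    exact hue
  have hP0 : vl P (red x) ≠ 0 := by
    rw [← vl_map, Ne, hker, vl_OO]
    exact not_lt.2 hP.ge
  have hrel : vl P (red x) * red z = vl Q (red x) := by
    rw [← vl_map, ← vl_map, ← map_mul, ← sub_eq_zero, ← map_sub, hker]
    have hQ0 : vl Q u ≠ 0 := norm_pos_iff.1 (by rw [hQ]; exact one_pos)
    have e1 : ((vl P x * z - vl Q x : OO C) : C) = (vl P u / vl Q u * ζ - 1) * vl Q u := by
      have e2 : ((vl P x * z - vl Q x : OO C) : C) = vl P u * ζ - vl Q u := by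
        rw [AddSubgroupClass.coe_sub, MulMemClass.coe_mul, vl_OO, vl_OO]
      rw [e2]
      field_simp
    rw [e1, norm_mul, hQ, mul_one]
    exact h
  have hfr : red y ^ p ^ B = red y := by
    rw [← map_pow]
    congr 1
    exact Subtype.ext he
  have hfr' : ∀ F : ℤ[X], vl F (red x) ^ p ^ B = vl F (red x) := by
    intro F
    have h1 := vl_map (iterateFrobenius k p B) F (red x)
    rw [iterateFrobenius_def, iterateFrobenius_def, hxy, hfr] at h1
    rw [hxy]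
    exact h1
  have hz1 : red z ^ p ^ B = red z := by
    have h1 := congrArg (fun w => w ^ p ^ B) hrel
    simp only [mul_pow] at h1
    rw [hfr' P, hfr' Q, ← hrel] at h1
    exact mul_left_cancel₀ hP0 h1
  have hζ' : ζ ^ p ^ B = ζ :=
    fixed_of_red red hker hp1 hζn.le (fixed_of_pow_eq_one hcop hζ.pow_eq_one) hz1
  have hpB : 1 < p ^ B := Nat.one_lt_pow hB.ne' hpf.out.one_lt
  have hζ0 : ζ ≠ 0 := hζ.ne_zero hg'.ne'
  have h2 : ζ ^ (p ^ B - 1) = 1 := by
    have h3 : ζ * ζ ^ (p ^ B - 1) = ζ * 1 := by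
      rw [← pow_succ', Nat.sub_add_cancel hpB.le, hζ', mul_one]
    exact mul_left_cancel₀ hζ0 h3
  exact (Nat.le_of_dvd (Nat.sub_pos_of_lt hpB) (hζ.dvd_of_pow_eq_one _ h2)).trans (Nat.sub_le _ _)

end C2

end Pool.Agent.Q170.PO
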