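import Pool.Agent.Q170.PO.St

/-!
# The coefficients of the modular invariant are integers
-/

set_option autoImplicit false
set_option linter.unusedSectionVars false

open UpperHalfPlane H294ZP Polynomial

namespace Pool.Agent.Q170.PO

open Pool.Agent.Y226 Pool.Agent.Y226.ZG Pool.Agent.Y226.ZM H294ZP.TA2

theorem R_one : R (1 : PowerSeries ℂ) (fun _ => 1) := by
  intro τ
  have := hasSum_ite_eq (0 : ℕ) (1 : ℂ)
  have h7 : (fun n : ℕ => (1 : PowerSeries ℂ).coeff n * qq 1 τ ^ n) =
      fun n : ℕ => if n = 0 then (1 : ℂ) else 0 := by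
    funext n
    rw [PowerSeries.coeff_one]
    by_cases hn : n = 0
    · subst hn
      simp
    · simp [hn]
  rw [h7]
  exact this

theorem R_uniq {P Q : PowerSeries ℂ} {F : ℍ → ℂ} (hP : R P F) (hQ : R Q F) : P = Q := by
  have h : R (1 + (P - Q)) (fun _ => 1) := by
    intro τ
    have h1 := (R_one τ).add ((hP τ).sub (hQ τ))
    rw [sub_self, add_zero] at h1
    refine h1.congr_fun ?_
    intro n
    rw [map_add, map_sub]
    ring
  have h2 := R_unique h R_one
  exact sub_eq_zero.1 (by linear_combination h2)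

theorem cj_int (n : ℕ) : ∃ z : ℤ, cj n = (z : ZZ) := by
  have h := R_mul (R_mul (R_mul R_E4 R_E4) R_E4) R_V
  rw [E4_eq, ← map_mul, ← map_mul, ← map_mul] at h
  set W : PowerSeries ℤ := (1 + 240 * A) * (1 + 240 * A) * (1 + 240 * A) * V with hW
  have h1 : R (PowerSeries.mk fun n => ιZ (cj n)) (fun τ => qq 1 τ ^ 1 * jj τ) := by
    intro τ
    have h2 := cj_hasSum τ
    simp only [PowerSeries.coeff_mk]
    exact h2
  have h2 : R (mp W) (fun τ => qq 1 τ ^ 1 * jj τ) := by
    intro τ
    have h3 : ModularForm.E₄ τ * ModularForm.E₄ τ * ModularForm.E₄ τ *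
        (qq 1 τ / ModularForm.discriminant τ) = qq 1 τ ^ 1 * jj τ := by
      unfold jj
      ring
    have h4 := h τ
    beta_reduce at h4 ⊢
    rw [h3] at h4
    exact h4
  have h3 := R_uniq h1 h2
  have h4 := congrArg (PowerSeries.coeff n) h3
  rw [PowerSeries.coeff_mk, PowerSeries.coeff_map] at h4
  refine ⟨W.coeff n, ?_⟩
  apply Subtype.ext
  exact h4

theorem cj_int' {C : Type} [NormedField C] (φ : QA →+* C) (n : ℕ) :
    ∃ z : ℤ, φ (iA (cj n)) = z := by
  obtain ⟨z, hz⟩ := cj_int n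
  refine ⟨z, ?_⟩
  rw [hz, map_intCast, map_intCast]

end Pool.Agent.Q170.PO
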