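import Pool.Agent.Y226.ZM.Tate3

/-!
# Project PO: Zilber-Pink for almost all polynomial curves over `ℚ` (statements)

`f_1, …, f_n, g` are integral polynomials in one variable `s`, the curve is
`x_i = f_i (s) / (m g (s))` in `Y(1)^n`. `QA` is the field of the algebraic numbers,
`rA : QA →+* ℂ` the embedding, `PsiE ιZ (mP N) (mD N) x x' = 0` the modular equation of level `N`.
`OO C`, `Nr C p`, `GG C p τ` (valuation ring, almost unramified elements, units congruent to almost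
unramified units modulo elements of norm `≤ τ`) are in `Pool.Agent.Y226.ZP.Basic`.
-/

set_option autoImplicit false
set_option linter.unusedSectionVars false

open UpperHalfPlane H294ZP Polynomial

namespace Pool.Agent.Q170.PO

open Pool.Agent.Y226 Pool.Agent.Y226.ZG Pool.Agent.Y226.ZM

/-- the reduction of an integral polynomial modulo `p` -/
noncomputable def rd (p : ℕ) (P : ℤ[X]) : (ZMod p)[X] := P.map (Int.castRingHom (ZMod p))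

/-- the value of an integral polynomial -/
noncomputable def vl {R : Type*} [CommRing R] (P : ℤ[X]) (u : R) : R :=
  P.eval₂ (Int.castRingHom R) u

/-- the Wronskian -/
noncomputable def wr (P Q : ℤ[X]) : ℤ[X] := derivative P * Q - P * derivative Q

theorem vl_map {R S : Type*} [CommRing R] [CommRing S] (ψ : R →+* S) (P : ℤ[X]) (u : R) :
    ψ (vl P u) = vl P (ψ u) := by
  unfold vl
  rw [hom_eval₂, int_hom (ψ.comp _) (Int.castRingHom S)]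

/-- the logarithmic derivatives of `P₂ / Q₂` and of `(P / Q) ^ γ` are different modulo `p` -/
def NW (p : ℕ) (P Q P₂ Q₂ : ℤ[X]) : Prop := ∀ γ : ZMod p,
  rd p (wr P₂ Q₂ * (P * Q)) - C γ * rd p (wr P Q * (P₂ * Q₂)) ≠ 0

/-- `f_1, …, f_n, g` are in general position modulo `p` -/
structure GoodP (p d : ℕ) {n : ℕ} (f : Fin n → ℤ[X]) (g : ℤ[X]) : Prop where
  degf : ∀ i, (f i).natDegree ≤ d
  degg : g.natDegree ≤ d
  pos : ∀ i, 0 < (rd p (f i)).natDegree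
  sep : ∀ i, IsCoprime (rd p (f i)) (derivative (rd p (f i)))
  cop : ∀ i j, i ≠ j → IsCoprime (rd p (f i)) (rd p (f j))
  copg : ∀ i, IsCoprime (rd p (f i)) (rd p g)

/-- no two multiplicative relations of exponent `M` modulo `p` at the same point -/
structure NoRelP (p M : ℕ) {n : ℕ} (f : Fin n → ℤ[X]) : Prop where
  two : ∀ j k j' k', j ≠ k → j' ≠ k' → ¬ ((j = j' ∧ k = k') ∨ (j = k' ∧ k = j')) →
    IsCoprime (rd p (f k ^ M - f j ^ M)) (rd p (f k' ^ M - f j' ^ M))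
  one : ∀ j k a, j ≠ k → a ≠ j → a ≠ k → IsCoprime (rd p (f k ^ M - f j ^ M)) (rd p (f a))

/-- the polynomial with given coefficients -/
noncomputable def pol {R : Type*} [CommRing R] {d : ℕ} (a : Fin (d + 1) → R) : R[X] :=
  ∑ k, C (a k) * X ^ (k : ℕ)

/-- JOB PO-WILD. Wild torsion at a point `u` near `e`, `τ ≥ ‖p‖`.
PROOF. Let `h = u - e`, `w₁, w₂ ∈ Nr C p` the units with `F₁ ε₁ = w₁ + O(τ)`, `F₂ ε₂ = w₂ + O(τ)`,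
`ε₂ = ε₁ ^ γ` (`hε₁.eq_pow_of_pow_eq_one`), `w = w₂ * (w₁⁻¹) ^ γ ∈ Nr C p` (`Nr_inv`). So
`Ψ (u) = O(τ)` for `Ψ = P₂ Q ^ γ - w Q₂ P ^ γ`, a polynomial over `Nr C p`. Let `e_i ∈ Nr C p` be the
coefficients of the Taylor expansion of `Ψ` at `e` (`taylor_mem`, see `contact2` in
`Pool.Agent.Y226.ZG.LemW`). CLAIM: there is `i ≤ 4 d` with `‖e_i‖ = 1`. If not, then over the residue
field `k` (`exists_residue`, `red`) `(X - ē) ^ (4 d + 1)` divides `Ψ̄ = A - B`, `A = P₂ Q ^ γ`,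
`B = w̄ Q₂ P ^ γ`. With `P Q P₂ Q₂ A' = A (P₂' P Q Q₂ + γ Q' P P₂ Q₂)`,
`P Q P₂ Q₂ B' = B (Q₂' P Q P₂ + γ P' Q P₂ Q₂)` we get that `(X - ē) ^ (4 d)` divides
`B ((P₂' Q₂ - P₂ Q₂') P Q - γ (P' Q - P Q') P₂ Q₂)`; `B (ē) ≠ 0`, so it divides the second factor,
which is not zero by `NW` (with `γ` modulo `p`) and of degree `≤ 4 d - 1`: contradiction.
Let `i₀ ≤ 4 d` be minimal with `‖e_{i₀}‖ = 1`; for `i < i₀` we have `‖e_i‖ ≤ ‖p‖ ≤ τ` (`Nr_gap`). If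
`‖h‖ ^ i₀ > τ` then `‖Ψ (u)‖ = ‖h‖ ^ i₀ > τ`: contradiction. So `‖h‖ ^ (4 d) ≤ ‖h‖ ^ i₀ ≤ τ`.
Finally `‖ε₁ - 1‖ ≤ max ‖h‖ τ` (job statement `S_NEAR`, same file: prove it first), and
`τ ^ (4 d) ≤ τ`. -/
def S_WILD : Prop := ∀ (C : Type) [NormedField C] [IsUltrametricDist C] [CompleteSpace C]
  [CharZero C] [IsAlgClosed C] (p : ℕ) [Fact p.Prime], p ≠ 2 → 0 < ‖(p : C)‖ → ‖(p : C)‖ < 1 →
  ∀ (d : ℕ), 0 < d → ∀ P Q P₂ Q₂ : ℤ[X], P.natDegree ≤ d → Q.natDegree ≤ d → P₂.natDegree ≤ d →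
  Q₂.natDegree ≤ d → NW p P Q P₂ Q₂ → ∀ (u e : C), ‖u‖ ≤ 1 → e ∈ Nr C p → ‖u - e‖ < 1 →
  ‖vl P u‖ = 1 → ‖vl Q u‖ = 1 → ‖vl P₂ u‖ = 1 → ‖vl Q₂ u‖ = 1 → ∀ (F₁ F₂ : Cˣ),
  (F₁ : C) * vl Q u = vl P u → (F₂ : C) * vl Q₂ u = vl P₂ u → ∀ (s : ℕ) (ε₁ ε₂ : Cˣ),
  IsPrimitiveRoot (ε₁ : C) (p ^ (s + 1)) → (ε₂ : C) ^ p ^ (s + 1) = 1 →
  ∀ (τ : ℝ) (h0 : 0 ≤ τ) (h1 : τ < 1), ‖(p : C)‖ ≤ τ → F₁ * ε₁ ∈ GG C p τ h0 h1 →
  F₂ * ε₂ ∈ GG C p τ h0 h1 → ‖(ε₁ : C) - 1‖ ^ (4 * d) ≤ τ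

/-- JOB PO-WILD, first part. PROOF. `F₁ (e) := P (e) / Q (e) ∈ Nr C p` is a unit, `F₁ - F₁ (e) = O(h)`,
`h = u - e`. `F₁ = w₁ ε₁⁻¹ + O(τ)`. So `(w₁ - F₁ (e)) + w₁ (ε₁⁻¹ - 1) = O(max ‖h‖ τ)`. If
`‖ε₁ - 1‖ > max ‖h‖ τ` then `‖w₁ - F₁ (e)‖ = ‖ε₁ - 1‖ < 1`, so it is `≤ ‖p‖ ≤ τ` by `Nr_gap`:
contradiction. -/
def S_NEAR : Prop := ∀ (C : Type) [NormedField C] [IsUltrametricDist C] [CompleteSpace C]
  [CharZero C] [IsAlgClosed C] (p : ℕ) [Fact p.Prime], 0 < ‖(p : C)‖ → ‖(p : C)‖ < 1 →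
  ∀ P Q : ℤ[X], ∀ (u e : C), ‖u‖ ≤ 1 → e ∈ Nr C p → ‖u - e‖ < 1 →
  ‖vl P u‖ = 1 → ‖vl Q u‖ = 1 → ∀ (F₁ : Cˣ), (F₁ : C) * vl Q u = vl P u → ∀ ε₁ : Cˣ,
  ‖(ε₁ : C) - 1‖ < 1 → ∀ (τ : ℝ) (h0 : 0 ≤ τ) (h1 : τ < 1), ‖(p : C)‖ ≤ τ →
  F₁ * ε₁ ∈ GG C p τ h0 h1 → ‖(ε₁ : C) - 1‖ ≤ max ‖u - e‖ τ

/-- JOB PO-PAIR. Two isogenous elliptic curves with multiplicative reduction and invariants of the
same norm. PROOF. `tate_rel3` (`Pool.Agent.Y226.ZM.Tate3`) with `ψ = φ.comp iA`, `i₀ = iA`,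
`psi_norm`, `rA_comp` gives `A, B, g, ζ` with `qT ψ (φ Y) ^ B = ζ * qT ψ (φ X) ^ A`; the norms
(`qT_norm`) and `A.Coprime B` give `A = B = 1`; `root_decomp` splits `ζ = ζ' ε`, `g = g' p ^ s`. Now
`qT ψ x * x = 1 + c x⁻¹ + O(‖x‖⁻¹ ^ 2)`, `c = φ (iA (cj 1))` (`qT_expand`), and
`φ Y / φ X * ζ = (qT ψ (φ Y) * φ Y) / (qT ψ (φ X) * φ X)`. Compare the proof of `pair_info3`. -/
def S_PAIR : Prop := ∀ (C : Type) [NormedField C] [IsUltrametricDist C] [CompleteSpace C]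
  [CharZero C] [IsAlgClosed C] (p : ℕ) [Fact p.Prime] (φ : QA →+* C), 0 < ‖(p : C)‖ →
  ‖(p : C)‖ < 1 → ∀ X Y : QA, 1 < ‖φ X‖ → ‖φ Y‖ = ‖φ X‖ → ∀ (τ w : ℍ) (a b c d : ℤ),
  0 < a * d - b * c → (w : ℂ) * (c * τ + d) = a * τ + b → rA X = jj τ → rA Y = jj w →
  ∃ (g' s : ℕ) (ζ' ε : Cˣ), 0 < g' ∧ g'.Coprime p ∧ IsPrimitiveRoot (ζ' : C) g' ∧
    IsPrimitiveRoot (ε : C) (p ^ s) ∧
    ‖φ Y / φ X * (ζ' * ε : Cˣ) - (1 + φ (iA (cj 1)) * ((φ Y)⁻¹ - (φ X)⁻¹))‖ ≤ (‖φ X‖⁻¹) ^ 2 ∧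
    PsiE ιZ (mP ((g' * p ^ s) ^ 2)) (mD ((g' * p ^ s) ^ 2)) (rA X) (rA Y) = 0

/-- JOB PO-TAME. Two tame relations at `u`: the residue class of `u` is in a bounded field.
PROOF, with `B = (4 d p + 2 d)!`. All reductions are taken in the residue field `k`
(`exists_residue`); `P̄` is the reduction of `P`, `ē = red e`. If `ē` is a root of a polynomial over
`ZMod p`, not zero, of degree `≤ 4 d p + 2 d`, then `ē ^ p ^ B = ē`, and so `e ^ p ^ B = e` (both are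
fixed by some `x ↦ x ^ p ^ f`, their difference `x` is then `0` if `‖x‖ < 1`, or: `e ^ p ^ B - e` is
`e` times `e ^ (p ^ B - 1) - 1`, a root of unity of order prime to `p` minus `1`).
If `W₁ := rd p (wr P Q)` vanishes at `ē` we are done. Suppose `W₁ (ē) ≠ 0`. Let
`Φ = ζ₁ P - Q`. `Φ (u) = O(p)`, `‖Φ (e)‖ < 1`, `Φ (e) ∈ Nr C p`, so `Φ (e) = O(p)` (`Nr_gap`);
`red (Φ' (e)) = W₁ (ē) / P̄ (ē) ≠ 0` (as `ζ̄₁ = Q̄ (ē) / P̄ (ē)`), so `‖u - e‖ ≤ ‖p‖`, `u = e + p δ`.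
Now `Φ (u) = p z m₁ g (u) (Q (u) / P (u) - 1) + O(p²)` and `Φ (u) = Φ (e) + p δ Φ' (e) + O(p²)`, so
`Φ (e) = p x₁`, `x̄₁ = z m₁ ḡ (Q̄ / P̄ - 1) (ē) - δ̄ (W₁ / P̄) (ē)`. By `frob_lift`
(`Pool.Agent.Y226.ZP.TameAlg`) for the polynomial `ζ P (x) - Q (x)` in `(x, ζ)` at `(e, ζ₁)`:
`ζ₁ ^ p P (e ^ p) - Q (e ^ p) = p x₂`, `x̄₂ = x̄₁ ^ p`. Let `P (X ^ p) = P ^ p + p P_δ` in `ℤ[X]`
(`P_δ ∈ ℤ[X]`). As `(ζ₁ P (e)) ^ p = (Q (e) + p x₁) ^ p = Q (e) ^ p + O(p²)`, we get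
`x̄₂ = ζ̄₁ ^ p P̄_δ (ē) - Q̄_δ (ē)`; after multiplication with `P̄ (ē) ^ p`:
`Q̄ ^ p P̄_δ - P̄ ^ p Q̄_δ = (c₁ - δ̄ W₁) ^ p` at `ē`, `c₁ = z m₁ ḡ (Q̄ - P̄)`. In the same way
`Q̄₂ ^ p P̄₂_δ - P̄₂ ^ p Q̄₂_δ = (c₂ - δ̄ W₂) ^ p` at `ē`, `c₂ = z m₁ ḡ (Q̄₂ - P̄₂)`,
`W₂ = rd p (wr P₂ Q₂)`. So `T (ē) = 0` for
`T = W₂ ^ p (Q̄ ^ p P̄_δ - P̄ ^ p Q̄_δ - c₁ ^ p) - W₁ ^ p (Q̄₂ ^ p P̄₂_δ - P̄₂ ^ p Q̄₂_δ - c₂ ^ p)` in
`(ZMod p)[X]`, of degree `≤ 4 d p`. `T ≠ 0`: from `P_δ' = X ^ (p - 1) P' (X ^ p) - P ^ (p - 1) P'` one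
gets `T' = W₁ W₂ (W₁ ^ (p - 1) (P̄₂ Q̄₂) ^ (p - 1) - W₂ ^ (p - 1) (P̄ Q̄) ^ (p - 1))`; if `T' = 0` then
`P̄₂` divides `(W₂ P̄ Q̄) ^ (p - 1)` but is coprime to `W₂`, `P̄`, `Q̄` and not constant. -/
def S_TAME : Prop := ∀ (p d : ℕ), p.Prime → ∃ B : ℕ, 0 < B ∧
  ∀ (C : Type) [NormedField C] [IsUltrametricDist C] [CompleteSpace C] [CharZero C]
  [IsAlgClosed C] [Fact p.Prime], 0 < ‖(p : C)‖ → ‖(p : C)‖ < 1 →
  ∀ P Q P₂ Q₂ g : ℤ[X], P.natDegree ≤ d → Q.natDegree ≤ d → P₂.natDegree ≤ d →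
  Q₂.natDegree ≤ d → g.natDegree ≤ d → rd p (wr P Q) ≠ 0 → 0 < (rd p P₂).natDegree →
  IsCoprime (rd p P₂) (derivative (rd p P₂)) → IsCoprime (rd p P₂) (rd p Q₂) →
  IsCoprime (rd p P₂) (rd p P) → IsCoprime (rd p P₂) (rd p Q) →
  ∀ (u e : C), ‖u‖ ≤ 1 → (∃ f : ℕ, 0 < f ∧ e ^ p ^ f = e) → ‖u - e‖ < 1 →
  ‖vl P u‖ = 1 → ‖vl Q u‖ = 1 → ‖vl P₂ u‖ = 1 → ‖vl Q₂ u‖ = 1 → ∀ (m₁ z : ℤ) (ζ₁ ζ₂ : C),
  (∃ f : ℕ, 0 < f ∧ ζ₁ ^ p ^ f = ζ₁) → (∃ f : ℕ, 0 < f ∧ ζ₂ ^ p ^ f = ζ₂) →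
  ‖vl P u / vl Q u * ζ₁ - (1 + z * (p * m₁ * vl g u * ((vl P u)⁻¹ - (vl Q u)⁻¹)))‖ ≤
    ‖(p : C)‖ ^ 2 →
  ‖vl P₂ u / vl Q₂ u * ζ₂ - (1 + z * (p * m₁ * vl g u * ((vl P₂ u)⁻¹ - (vl Q₂ u)⁻¹)))‖ ≤
    ‖(p : C)‖ ^ 2 →
  e ^ p ^ B = e

/-- JOB PO-GEN. The generic conditions are given by one integral polynomial `E ≠ 0` in the
coefficients. PROOF. `E` is the product of the following polynomials in the coefficients `X (i, k)`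
(over `ℤ`; Mathlib: `Polynomial.resultant`, `resultant_map_map`,
`exists_mul_add_mul_eq_C_resultant`). Let `F_i = pol (fun k => X (i, k))`, formal degree `d`.
`X (i, d)` (for `pos`); `resultant F_i F_i' d (d - 1)` (or with formal degrees `d, d`; for `sep`);
`resultant F_i F_j d d` (`cop`); `resultant F_i (g.map C) d d` (`copg`);
`resultant (F_k ^ M - F_j ^ M) (F_k' ^ M - F_j' ^ M) (d M) (d M)` (`two`);
`resultant (F_k ^ M - F_j ^ M) F_a (d M) d` (`one`). If `p` does not divide `E (a)` then none of the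
resultants of the reductions vanishes, and the Bezout identity (for the formal degrees) gives
`IsCoprime`. Each factor is not zero, by specialization (`resultant_map_map` for the evaluation at
an integral point, `resultant_one_right : resultant f 1 m n = f.coeff m ^ n`):
`cop`: `F_i = X ^ d`, `F_j = 1`; `one`: `F_k = X ^ d`, `F_j = 0`, `F_a = 1`; `two`: take `y` in
`{j, k}` and not in `{j', k'}`, `x` in `{j', k'}` and not in `{j, k}`, `F_y = X ^ d`, `F_x = 1`, all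
others `0`, the resultant is `± 1`; `copg`: `F_i = (X - r) ^ d` with `g (r) ≠ 0`
(`resultant_X_sub_C_pow_left`); `sep`: `F_i = X ^ d - 1` (coprime to its derivative over `ℚ`). -/
def S_GEN : Prop := ∀ (n d : ℕ), 0 < d → ∀ g : ℤ[X], g ≠ 0 → g.natDegree ≤ d → ∀ M : ℕ, 0 < M →
  ∃ E : MvPolynomial (Fin n × Fin (d + 1)) ℤ, E ≠ 0 ∧ ∀ (p : ℕ), p.Prime →
  ∀ a : Fin n → Fin (d + 1) → ℤ, ¬ (p : ℤ) ∣ MvPolynomial.eval (fun q => a q.1 q.2) E →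
    GoodP p d (fun i => pol (a i)) g ∧ NoRelP p M (fun i => pol (a i))

/-- JOB PO-DENP. Almost all integral points have a denominator with a good prime factor.
PROOF. `Pool.Agent.Q239.UZ.t_DEN` with `Pool.Agent.Q239.UZ.t_PRS`, `Pool.Agent.Q239.UZ.t_PTS`,
`Pool.Agent.Q52.UZ.t_CRT`, `Pool.Agent.Q239.UZ.t_ZER` (modules `Pool.Agent.Q239.UZ.DEN`, `PRS`,
`PTS`, `ZER`, `Pool.Agent.Q52.UZ.CRT`; see their use in `Pool.Agent.Q170.UZ.Dens`) is the statement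
`Pool.Agent.Q170.UZ.S_DEN` (module `Pool.Agent.Q170.UZ.StmN`): apply it with `K = ℚ`,
`r = 1 + n (d + 1)` coordinates (reindex), `l` the first one, `A = 1`, `B = 0`, `P = X l`,
`E` the renamed `E` (over `ℚ`), `U = 0`, `V = 1`, `R` the renamed `E`. The finite place `v` above `p`
with `v (t_l) < 1` and `v (E (t)) = 1` gives `p ∣ t_l` and not `p ∣ E (t)`; `p ≤ B₁` follows from the
number of residue classes (`Pool.Agent.Q170.UZ.p_le_card`). Or a direct elementary proof. -/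
def S_DENP : Prop := ∀ (n d : ℕ) (E : MvPolynomial (Fin n × Fin (d + 1)) ℤ), E ≠ 0 →
  ∀ (Q : ℕ) (ε : ℝ), 0 < ε → ∃ B H₀ : ℕ, ∀ H : ℕ, H₀ ≤ H →
  ({t : ℤ × (Fin n → Fin (d + 1) → ℤ) | (|t.1| ≤ H ∧ ∀ i k, |t.2 i k| ≤ H) ∧
    ¬ (t.1 ≠ 0 ∧ ∃ p : ℕ, p.Prime ∧ Q < p ∧ p ≤ B ∧ (p : ℤ) ∣ t.1 ∧
      ¬ (p : ℤ) ∣ MvPolynomial.eval (fun q => t.2 q.1 q.2) E)}.ncard : ℝ) ≤
    ε * (2 * H + 1) ^ (1 + n * (d + 1))

/-- JOB PO-FPS. A modular equation between two coordinates has finitely many solutions, all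
algebraic. PROOF. Let `D = N` bound the degrees in `PsiE` (see `PsiH`, `map_PsiH`, `PsiE_mul`,
`PsiH_zero` in `Pool.Agent.Y226.ZG.Glob3` for the homogeneous form) and let `H ∈ QA[X]` be the
homogeneous form of the modular equation at `(f_j, m g; f_l, m g)`. Suppose `H = 0`. Take a place:
`exists_padic p` (`C`, `φ`). `f_j` has a root `ρ ∈ QA` with `‖φ ρ‖ ≤ 1` (if all roots had norm `> 1`,
the reduction of `f_j` would be constant, contrary to `pos`). `g (ρ)` and `f_l (ρ)` have norm one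
(`copg`, `cop`: evaluate the Bezout identities in the residue field, `exists_residue`). So
`X = f_l (ρ) / (m g (ρ))` has norm `> 1`, and `Y = f_j (ρ) / (m g (ρ)) = 0`, and the modular equation
holds for `(Y, X)`. Then `1 < ‖φ Y‖`: contradiction (use the symmetry of the modular equation in
this form: `Pool.Agent.Q170.UZ.S_TAT` in `Pool.Agent.Q170.UZ.StmN`, proved in
`Pool.Agent.Q52.UZ.TAT` or similar, is for `(X, Y)` with `1 < ‖φ X‖`; to have `(X, Y)` in this order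
the statement below has the coordinates `l, j` in this order, where `j` is the one with the root). -/
def S_FPS : Prop := ∀ (n d p : ℕ) (f : Fin n → ℤ[X]) (g : ℤ[X]), p.Prime → GoodP p d f g →
  ∀ m : ℤ, m ≠ 0 → (p : ℤ) ∣ m → ∀ j l : Fin n, j ≠ l → ∀ N : ℕ, 0 < N →
  ∃ H : QA[X], H ≠ 0 ∧ ∀ s : ℂ, vl g s ≠ 0 →
    PsiE ιZ (mP N) (mD N) (vl (f l) s / (m * vl g s)) (vl (f j) s / (m * vl g s)) = 0 →
    (H.map rA).eval s = 0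

/-- JOB PO-FCN. A coordinate is not constant. PROOF. If the set is infinite then
`f_i = c m g` in `ℂ[X]`; comparison of a nonzero coefficient of `g` gives `β f_i = α g` with coprime
integers `α, β`, `β ≠ 0`. If `p` does not divide `β`, `rd p (f i)` divides `rd p g` up to a unit and is
coprime to it, so it is a unit, contrary to `pos`; if `p` divides `β`, then `rd p g = 0` and again
`rd p (f i)` is a unit. -/
def S_FCN : Prop := ∀ (n d p : ℕ) (f : Fin n → ℤ[X]) (g : ℤ[X]), p.Prime → GoodP p d f g →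
  ∀ m : ℤ, m ≠ 0 → ∀ (i : Fin n) (c : ℂ),
  {s : ℂ | vl g s ≠ 0 ∧ vl (f i) s / (m * vl g s) = c}.Finite

end Pool.Agent.Q170.PO
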