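import Pool.Agent.Y226.ZG.Exc2
import Pool.Agent.Q170.PO.St

/-!
# The exceptional coordinate bounds wild torsion
-/

set_option autoImplicit false
set_option linter.unusedSectionVars false

open Polynomial

namespace Pool.Agent.Q170.PO

open Pool.Agent.Y226 Pool.Agent.Y226.ZG

variable {C : Type} [NormedField C] [IsUltrametricDist C]
variable {p : ℕ} [hpf : Fact p.Prime]

/-- The exceptional coordinate bounds wild torsion. -/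
theorem wild_exc {D D₂ N W : ℕ} (hpd : D * D₂ < p) (hpN : N + 2 < p) (hpD : D + 2 < p) (hpW : W < p)
    (hp0 : 0 < ‖(p : C)‖) (hp1 : ‖(p : C)‖ < 1)
    {η F Yl ε₁ : Cˣ} (hη1 : ‖(η : C)‖ < 1) {f : ℕ} (hf : 0 < f) (hfD : f ≤ D) {w₀ w : C}
    (hw₀ : w₀ ∈ Nr C p) (hw : w ∈ Nr C p) (hw1 : ‖w‖ = 1)
    (hcon : ‖(F : C) - w₀ - w * (η : C) ^ f‖ ≤ max ‖(p : C)‖ (‖(η : C)‖ ^ (f + 1)))
    {s : ℕ} (hε₁ : IsPrimitiveRoot (ε₁ : C) (p ^ (s + 1)))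
    (hG₁ : F * ε₁ ∈ GG C p ‖(p : C)‖ (norm_nonneg _) hp1)
    (hYl : Yl ∈ GG C p ‖(η : C)‖ (norm_nonneg _) hη1)
    {μ : ℤ} (hμ0 : μ ≠ 0) (hμN : μ.natAbs ≤ N) {Λa Λl : Cˣ} {e wa wl : ℕ} (he : 0 < e)
    (hwa : 0 < wa) (hwl : 0 < wl) (hwlW : wl ≤ W) {pu : Cˣ} (hpu : (pu : C) = p)
    (hΛa : Λa * pu ^ ((wa : ℤ) * e) ∈ GG C p 0 le_rfl one_pos)
    (hΛl : Λl * pu ^ ((wl : ℤ) * e) ∈ GG C p 0 le_rfl one_pos)
    {qi ql : Cˣ}
    (hqi : ‖((qi * Λa * η ^ μ : Cˣ) : C) - 1‖ ≤ ‖(p : C)‖ * ‖((η ^ μ : Cˣ) : C)‖⁻¹)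
    (hql : ‖((ql * Λl * Yl : Cˣ) : C) - 1‖ ≤ ‖(p : C)‖)
    {a b : ℕ} (hab : a.Coprime b) (hb0 : 0 < b) {ζ : Cˣ} {g : ℕ} (hg : 0 < g)
    (hζ : ζ ^ g = 1) (hrel : qi ^ b = ζ * ql ^ a)
    (hrelc : ∀ c : ℤ, c ≠ 0 → c.natAbs ≤ W * N → ∀ (ε₂ : Cˣ), (ε₂ : C) ^ p ^ (s + 1) = 1 →
      ∀ (τ : ℝ) (h0 : 0 ≤ τ) (h1 : τ < 1), ‖(p : C)‖ ≤ τ → F * ε₁ ∈ GG C p τ h0 h1 →
      Yl ^ c * ε₂ ∈ GG C p τ h0 h1 → ‖(ε₁ : C) - 1‖ ^ D₂ ≤ τ) :
    s ≤ 1 := by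
  by_contra hs
  push Not at hs
  have hp3 : 3 ≤ p := by omega
  have hp2 : p ≠ 2 := by omega
  set P := p ^ s with hPdef
  have hP1 : 1 ≤ P := Nat.one_le_pow _ _ hpf.out.pos
  have hPp : p ≤ P := by
    calc p = p ^ 1 := (pow_one p).symm
      _ ≤ p ^ s := Nat.pow_le_pow_right hpf.out.pos (by omega)
  set φ := P * (p - 1) with hφ
  have hφP : 2 * P ≤ φ := by rw [mul_comm 2 P]; exact Nat.mul_le_mul_left _ (by omega)
  have hρφ : ‖(ε₁ : C) - 1‖ ^ φ = ‖(p : C)‖ := ppow_root_norm hp2 hp1 hε₁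
  have hρ0 : 0 < ‖(ε₁ : C) - 1‖ := PData.root_pos hp2 hp1 hp0 hε₁
  have hρ1 : ‖(ε₁ : C) - 1‖ < 1 := ppow_root_lt hp1 hε₁.pow_eq_one
  have hεne : (ε₁ : C) - 1 ≠ 0 := norm_pos_iff.1 hρ0
  set u : Cˣ := Units.mk0 ((ε₁ : C) - 1) hεne with hu
  obtain ⟨hfρ, hK1⟩ := exc_step1 hp2 hp0 hp1 hη1 hf hw₀ hw hw1 hcon hε₁ (u := u) rfl hG₁
  have hun : ‖(u : C)‖ = ‖(ε₁ : C) - 1‖ := rfl
  set ρ := ‖(ε₁ : C) - 1‖ with hρ
  set θ := ‖(η : C)‖ with hθ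
  have hθ0 : 0 < θ := norm_pos_iff.2 η.ne_zero
  have hge : ρ ≤ θ := by
    rw [hfρ]
    exact pow_le_of_le_one hθ0.le hη1.le hf.ne'
  have hpow_le : ∀ M : ℕ, M ≤ φ → ‖(p : C)‖ ≤ θ ^ M := by
    intro M hM
    calc ‖(p : C)‖ = ρ ^ φ := hρφ.symm
      _ ≤ ρ ^ M := pow_le_pow_of_le_one hρ0.le hρ1.le hM
      _ ≤ θ ^ M := pow_le_pow_left₀ hρ0.le hge M
  -- norms
  have hΛn : ∀ (Λ : Cˣ) (w : ℕ), Λ * pu ^ ((w : ℤ) * e) ∈ GG C p 0 le_rfl one_pos →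
      ‖(Λ : C)‖ = ‖(p : C)‖⁻¹ ^ (w * e) := by
    intro Λ w hΛ
    have h1 := GG_norm hΛ
    have e1 : pu ^ ((w : ℤ) * e) = pu ^ (w * e) := by
      rw [← Nat.cast_mul, zpow_natCast]
    rw [e1, Units.val_mul, norm_mul, Units.val_pow_eq_pow_val, norm_pow, hpu] at h1
    rw [inv_pow]
    exact eq_inv_of_mul_eq_one_left h1
  have hΛan := hΛn Λa wa hΛa
  have hΛln := hΛn Λl wl hΛl
  have hYln : ‖(Yl : C)‖ = 1 := GG_norm hYl
  have hϖθ : ‖(p : C)‖ = θ ^ (f * φ) := by rw [pow_mul, ← hfρ, hρφ]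
  have hxln : ‖((Λl * Yl : Cˣ) : C)‖ = ‖(p : C)‖⁻¹ ^ (wl * e) := by
    rw [Units.val_mul, norm_mul, hYln, mul_one, hΛln]
  have hμn : ‖((η ^ μ : Cˣ) : C)‖ = θ ^ μ := by
    rw [Units.val_zpow_eq_zpow_val, norm_zpow]
  have hqi2 : ‖((qi * Λa * η ^ μ : Cˣ) : C) - 1‖ ≤ θ := by
    refine hqi.trans ?_
    rw [hμn, ← zpow_neg]
    have h1 : θ ^ (-μ) ≤ (θ ^ N)⁻¹ := by
      rw [← zpow_natCast, ← zpow_neg]
      exact zpow_le_zpow_right_of_le_one₀ hθ0 hη1.le (by omega)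
    have h2 := hpow_le (N + 1) (by
      have h4 : p - 1 ≤ φ := Nat.le_mul_of_pos_left _ (by omega)
      omega)
    have h3 : 0 < θ ^ N := pow_pos hθ0 N
    calc ‖(p : C)‖ * θ ^ (-μ) ≤ θ ^ (N + 1) * (θ ^ N)⁻¹ := by
          gcongr
      _ = θ := by rw [pow_succ]; field_simp
  have hqin : ‖(qi : C)‖ = ‖((Λa * η ^ μ : Cˣ) : C)‖⁻¹ := by
    have h1 : ‖((qi * Λa * η ^ μ : Cˣ) : C)‖ = 1 :=
      neq_one (hqi2.trans_lt hη1) norm_one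
    rw [mul_assoc, Units.val_mul, norm_mul] at h1
    exact eq_inv_of_mul_eq_one_left h1
  have hpinv : ‖((Λl * Yl : Cˣ) : C)‖⁻¹ = ‖(p : C)‖ ^ (wl * e) := by
    rw [hxln, inv_pow, inv_inv]
  have hwle : wl * e ≠ 0 := (Nat.mul_pos hwl he).ne'
  have hwae : wa * e ≠ 0 := (Nat.mul_pos hwa he).ne'
  have hpe : ‖(p : C)‖ ^ (wl * e) ≤ ‖(p : C)‖ := pow_le_of_le_one (norm_nonneg _) hp1.le hwle
  have hpe' : ‖(p : C)‖ ^ (wa * e) ≤ ‖(p : C)‖ := pow_le_of_le_one (norm_nonneg _) hp1.le hwae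
  have hqln : ‖(ql : C)‖ = ‖(p : C)‖ ^ (wl * e) := by
    have h1 : ‖((ql * Λl * Yl : Cˣ) : C)‖ = 1 := neq_one (hql.trans_lt hp1) norm_one
    rw [mul_assoc, Units.val_mul, norm_mul] at h1
    rw [← hpinv]
    exact eq_inv_of_mul_eq_one_left h1
  have hζn : ‖(ζ : C)‖ = 1 := by
    have h1 : ‖(ζ : C)‖ ^ g = 1 := by
      rw [← norm_pow, ← Units.val_pow_eq_pow_val, hζ, Units.val_one, norm_one]
    exact (pow_eq_one_iff_of_nonneg (norm_nonneg _) hg.ne').1 h1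
  set c : ℤ := (wa : ℤ) * b - wl * a with hc
  have hK3 : μ * b = (f : ℤ) * (P * ((p - 1 : ℕ) : ℤ)) * e * c := by
    have h1 : ‖(qi : C)‖ ^ b = ‖(ql : C)‖ ^ a := by
      have := congrArg (fun x : Cˣ => ‖(x : C)‖) hrel
      simpa [hζn] using this
    rw [hqin, hqln, Units.val_mul, norm_mul, hΛan, hμn, hϖθ] at h1
    have hθne : θ ≠ 0 := hθ0.ne'
    have h2 : θ ^ (-(μ * b)) * θ ^ (((f * φ : ℕ) : ℤ) * (wa * e) * b) =
        θ ^ (((f * φ : ℕ) : ℤ) * (wl * e) * a) := by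
      have e1 : ((θ ^ (f * φ))⁻¹ ^ (wa * e) * θ ^ μ)⁻¹ ^ b =
          (θ ^ μ)⁻¹ ^ b * θ ^ (f * φ * (wa * e) * b) := by
        rw [mul_inv, inv_pow, inv_inv, mul_pow, ← pow_mul, ← pow_mul, mul_comm, ← mul_assoc]
      have e2 : (θ ^ μ)⁻¹ ^ b = θ ^ (-(μ * b)) := by
        rw [← zpow_neg, ← zpow_natCast, ← zpow_mul, neg_mul]
      have e3 : ((θ ^ (f * φ)) ^ (wl * e)) ^ a = θ ^ (f * φ * (wl * e) * a) := by
        rw [← pow_mul, ← pow_mul, ← mul_assoc]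
      rw [e1, e2, e3, ← zpow_natCast, ← zpow_natCast] at h1
      push_cast at h1 ⊢
      exact h1
    rw [← zpow_add₀ hθne] at h2
    have h3 := zpow_right_injective₀ hθ0 hη1.ne h2
    rw [hφ] at h3
    push_cast at h3 ⊢
    rw [hc]
    linear_combination -h3
  have hc0 : c ≠ 0 := by
    intro h0
    rw [h0, mul_zero] at hK3
    rcases mul_eq_zero.1 hK3 with h1 | h1
    · exact hμ0 h1
    · exact hb0.ne' (by exact_mod_cast h1)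
  have hcμ : c ∣ wl * μ := by
    have h1 : IsCoprime (a : ℤ) (b : ℤ) := Nat.isCoprime_iff_coprime.2 hab
    obtain ⟨x, y, hxy⟩ := h1
    have h2 : c ∣ μ * b := ⟨(f : ℤ) * (P * ((p - 1 : ℕ) : ℤ)) * e, by rw [hK3]; ring⟩
    obtain ⟨z, hz⟩ := h2
    refine ⟨x * wa * z - x * μ + wl * y * z, ?_⟩
    rw [hc] at hz ⊢
    linear_combination -(wl * μ : ℤ) * hxy + (x * wa + wl * y : ℤ) * hz
  have hcd : c.natAbs ≤ W * N := by
    have h1 : wl * μ ≠ 0 := mul_ne_zero (by exact_mod_cast hwl.ne') hμ0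
    refine (Nat.le_of_dvd (Int.natAbs_pos.2 h1) (Int.natAbs_dvd_natAbs.2 hcμ)).trans ?_
    rw [Int.natAbs_mul, Int.natAbs_natCast]
    exact Nat.mul_le_mul hwlW hμN
  have hPb : P ∣ b := by
    have h1 : (P : ℤ) ∣ μ * b := ⟨(f : ℤ) * (((p - 1 : ℕ) : ℤ)) * e * c, by rw [hK3]; ring⟩
    have h2 : IsCoprime (P : ℤ) μ := by
      rw [hPdef]
      push_cast
      refine IsCoprime.pow_left ?_
      rw [Int.isCoprime_iff_nat_coprime, Int.natAbs_natCast, Nat.Prime.coprime_iff_not_dvd hpf.out]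
      intro h3
      have := Nat.le_of_dvd (Int.natAbs_pos.2 hμ0) h3
      omega
    exact_mod_cast h2.dvd_of_dvd_mul_left h1
  obtain ⟨b', hb'⟩ := hPb
  -- the group `GG τ`
  set τ := θ ^ P with hτ
  have hτ0 : 0 < τ := pow_pos hθ0 P
  have hτ1 : τ < 1 := pow_lt_one₀ hθ0.le hη1 (by omega)
  have hτθ : τ ≤ θ := pow_le_of_le_one hθ0.le hη1.le (by omega)
  have hpτ : ‖(p : C)‖ ≤ τ := hpow_le _ (by omega)
  have hpowP : ∀ x : Cˣ, x ∈ GG C p θ hθ0.le hη1 → x ^ P ∈ GG C p τ hτ0.le hτ1 := by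
    intro x hx
    refine GG_pow_pow hθ0 s le_rfl (fun i' hi' => hpow_le _ ?_) hx
    exact Nat.mul_le_mul_right _ (Nat.pow_le_pow_right hpf.out.pos hi'.le)
  have hpowb : ∀ x : Cˣ, x ∈ GG C p θ hθ0.le hη1 → x ^ (b : ℤ) ∈ GG C p τ hτ0.le hτ1 := by
    intro x hx
    rw [zpow_natCast, hb', pow_mul]
    exact pow_mem (hpowP x hx) _
  have hfinal : ζ ^ (wl : ℤ) * Yl ^ c ∈ GG C p τ hτ0.le hτ1 := by
    set ω : C := (ε₁ : C) ^ P with hω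
    have hωp : ω ^ p = 1 := by rw [hω, ← pow_mul, hPdef, ← pow_succ]; exact hε₁.pow_eq_one
    have hωne : ω ≠ 1 :=
      hε₁.pow_ne_one_of_pos_of_lt (pow_pos hpf.out.pos s).ne'
        (Nat.pow_lt_pow_right hpf.out.one_lt (Nat.lt_succ_self s))
    have hω0 : ω - 1 ≠ 0 := sub_ne_zero.2 hωne
    have hωn : ‖ω - 1‖ = ρ ^ P := (ppow_root_norm_aux hp2 hp1 hε₁).symm
    set Wu : Cˣ := Units.mk0 (ω - 1) hω0 with hWu
    refine mul_key2 (GG C p τ hτ0.le hτ1) (Λa := Λa) (Λl := Λl) (Ya := η ^ μ) (qi := qi)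
      (ql := ql) (η := η) (u := u) (w := Wu) (pp := pu) (a := a) (b := b) (e := e) (f := f)
      (P := P) (q := ((p - 1 : ℕ) : ℤ)) (μ := μ) (wa := wa) (wl := wl) ?_ rfl (hpowb _ hYl)
      ?_ ?_ ?_ ?_ ?_ ?_ ?_ hK3 hc
    · apply hpowb
      exact GG_of_close (one_mem _) norm_one hqi2
    · exact GG_of_close (one_mem _) norm_one (hql.trans hpτ)
    · rw [zpow_natCast, zpow_natCast]
      exact hpowP _ hK1
    · refine GG_of_ratio (one_mem _) norm_one ?_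
      rw [one_mul, zpow_natCast, Units.val_pow_eq_pow_val]
      show ‖((ε₁ : C) - 1) ^ P - (ω - 1)‖ ≤ τ * ‖ω - 1‖
      refine (ppow_root_sub hp1 hε₁.pow_eq_one).trans ?_
      rw [hωn]
      calc ‖(p : C)‖ = ρ ^ φ := hρφ.symm
        _ ≤ ρ ^ (2 * P) := pow_le_pow_of_le_one hρ0.le hρ1.le hφP
        _ = ρ ^ P * ρ ^ P := by rw [two_mul, pow_add]
        _ ≤ τ * ρ ^ P := by
            gcongr
            exact pow_le_pow_left₀ hρ0.le hge P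
    · obtain ⟨r, hr, hre⟩ := root_p_eq hp1 hωp hωne
      refine GG_of_ratio (w := -1) (neg_mem (one_mem _)) (by rw [norm_neg, norm_one]) ?_
      rw [zpow_natCast, Units.val_pow_eq_pow_val, hpu]
      have e1 : (Wu : C) ^ (p - 1) - -1 * p = -((ω - 1) * r) * p := by
        have : (Wu : C) = ω - 1 := rfl
        rw [this, hre]; ring
      rw [e1, norm_mul, norm_neg]
      gcongr
      refine (nmul_le' le_rfl hr).trans ?_
      rw [hωn]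
      exact pow_le_pow_left₀ hρ0.le hge P
    · exact GG_mono hτ0.le hΛa
    · exact GG_mono hτ0.le hΛl
    · rw [zpow_natCast, zpow_natCast]
      exact hrel
  -- the `p`-part of `ζ`
  obtain ⟨g', s₃, ζ', ε₃, -, hg', hζ', hε₃, hζe⟩ := root_decomp (p := p) (ζ := (ζ : C))
    (orderOf_pos_iff.2 (isOfFinOrder_iff_pow_eq_one.2 ⟨g, hg, hζ⟩)) (by
      rw [← orderOf_units]
      exact IsPrimitiveRoot.orderOf _)
  have hg'0 : g' ≠ 0 := by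
    rintro rfl
    exact hpf.out.one_lt.ne' ((Nat.coprime_zero_left p).1 hg')
  have hζ'0 : ζ' ≠ 0 := hζ'.ne_zero hg'0
  have hε₃0 : ε₃ ≠ 0 := hε₃.ne_zero (pow_pos hpf.out.pos _).ne'
  set Z : Cˣ := Units.mk0 ζ' hζ'0
  set T : Cˣ := Units.mk0 ε₃ hε₃0
  have hζT : ζ = Z * T := Units.ext hζe
  have hZG : Z ∈ GG C p τ hτ0.le hτ1 := by
    obtain ⟨f', hf', hff⟩ := fixed_of_pow_eq_one hg' hζ'.pow_eq_one
    refine GG_of_close (w := ζ') (Nr_of_fixed hf' hff) ?_ ?_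
    · have h1 : ‖ζ'‖ ^ g' = 1 := by rw [← norm_pow, hζ'.pow_eq_one, norm_one]
      exact (pow_eq_one_iff_of_nonneg (norm_nonneg _) hg'0).1 h1
    · show ‖ζ' - ζ'‖ ≤ τ
      simpa using hτ0.le
  set T' : Cˣ := T ^ wl with hT'
  have hTG : T' * Yl ^ c ∈ GG C p τ hτ0.le hτ1 := by
    have e1 : T' * Yl ^ c = (Z ^ wl)⁻¹ * (ζ ^ (wl : ℤ) * Yl ^ c) := by
      rw [hζT, hT', zpow_natCast, mul_pow, mul_assoc, inv_mul_cancel_left]
    rw [e1]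
    exact mul_mem (inv_mem (pow_mem hZG _)) hfinal
  have hTθ : T' ∈ GG C p θ hθ0.le hη1 := by
    have e1 : T' = (T' * Yl ^ c) * (Yl ^ c)⁻¹ := by group
    rw [e1]
    exact mul_mem (GG_mono hτθ hTG) (inv_mem (zpow_mem hYl _))
  have hcopl : Nat.Coprime wl (p ^ s₃) := by
    refine Nat.Coprime.pow_right _ ?_
    rw [Nat.coprime_comm, Nat.Prime.coprime_iff_not_dvd hpf.out]
    intro h3
    have := Nat.le_of_dvd hwl h3
    omega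
  have hT'prim : IsPrimitiveRoot (T' : C) (p ^ s₃) := by
    rw [hT', Units.val_pow_eq_pow_val]
    exact hε₃.pow_of_coprime wl hcopl
  have hTpow : (T' : C) ^ p ^ s₃ = 1 := hT'prim.pow_eq_one
  have hpθ : ‖(p : C)‖ ≤ θ := by
    have := hpow_le 1 (by omega)
    rwa [pow_one] at this
  have hTn : ‖(T' : C) - 1‖ ≤ θ := ppow_GG hp1 hTpow hpθ hTθ
  have hs₃ : s₃ ≤ s + 1 := by
    by_contra hcon
    push Not at hcon
    obtain ⟨s', rfl⟩ : ∃ s', s₃ = s' + 1 := ⟨s₃ - 1, by omega⟩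
    have h1 : ‖(T' : C) - 1‖ ^ (p ^ s' * (p - 1)) = ‖(p : C)‖ := ppow_root_norm hp2 hp1 hT'prim
    have h2 : θ ^ (f * φ) ≤ θ ^ (p ^ s' * (p - 1)) := by
      rw [← hϖθ, ← h1]
      exact pow_le_pow_left₀ (norm_nonneg _) hTn _
    have h3 : p ^ s' * (p - 1) ≤ f * φ := by
      by_contra h4
      push Not at h4
      exact absurd h2 (not_le.2 (pow_lt_pow_right_of_lt_one₀ hθ0 hη1 h4))
    have h4 : p * φ ≤ p ^ s' * (p - 1) := by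
      rw [hφ, ← mul_assoc]
      refine Nat.mul_le_mul_right _ ?_
      rw [hPdef, ← pow_succ']
      exact Nat.pow_le_pow_right hpf.out.pos (by omega)
    have h5 : p * φ ≤ f * φ := h4.trans h3
    have h6 : p ≤ f := Nat.le_of_mul_le_mul_right h5 (by omega)
    omega
  have hTpow' : (T' : C) ^ p ^ (s + 1) = 1 := by
    obtain ⟨x, hx⟩ := Nat.pow_dvd_pow p hs₃
    rw [hx, pow_mul, hTpow, one_pow]
  have hle := hrelc c hc0 hcd T' hTpow' τ hτ0.le hτ1 hpτ (GG_mono hpτ hG₁)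
    (by rw [mul_comm]; exact hTG)
  have hP2 : P ≤ f * D₂ := by
    by_contra h4
    push Not at h4
    rw [hfρ, ← pow_mul] at hle
    exact absurd hle (not_le.2 (pow_lt_pow_right_of_lt_one₀ hθ0 hη1 h4))
  have h1 : f * D₂ ≤ D * D₂ := Nat.mul_le_mul_right _ hfD
  omega

end Pool.Agent.Q170.PO
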