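import Pool.Agent.Q170.PO.Nw
import Pool.Agent.Q170.PO.CjInt

/-!
# Pairs of good coordinates at one place
-/

set_option autoImplicit false
set_option linter.unusedSectionVars false

open UpperHalfPlane H294ZP Polynomial

namespace Pool.Agent.Q170.PO

open Pool.Agent.Y226 Pool.Agent.Y226.ZG Pool.Agent.Y226.ZM

/-- the data at one place -/
structure PT {C : Type} [NormedField C] (p d : ℕ) {n : ℕ} (φ : QA →+* C) (f : Fin n → ℤ[X])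
    (g : ℤ[X]) (m : ℤ) (u : QA) (X : Fin n → QA) : Prop where
  hp0 : 0 < ‖(p : C)‖
  hp1 : ‖(p : C)‖ < 1
  good : GoodP p d f g
  d0 : 0 < d
  big : 4 * d * d + 4 * d + 4 < p
  m0 : m ≠ 0
  pm : (p : ℤ) ∣ m
  u1 : ‖φ u‖ ≤ 1
  g0 : vl g u ≠ 0
  hX : ∀ i, X i = vl (f i) u / (m * vl g u)

/-- the information on a pair -/
structure PP {C : Type} [NormedField C] (p : ℕ) {n : ℕ} (φ : QA →+* C) (f : Fin n → ℤ[X])
    (g : ℤ[X]) (m : ℤ) (u : QA) (X : Fin n → QA) (j l : Fin n) (g' s : ℕ) (ζ' ε : Cˣ) :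
    Prop where
  hg : 0 < g'
  hcop : g'.Coprime p
  hζ : IsPrimitiveRoot (ζ' : C) g'
  hε : IsPrimitiveRoot (ε : C) (p ^ s)
  hexp : ‖vl (f l) (φ u) / vl (f j) (φ u) * ((ζ' * ε : Cˣ) : C) -
    (1 + φ (iA (cj 1)) * (m * vl g (φ u) * ((vl (f l) (φ u))⁻¹ - (vl (f j) (φ u))⁻¹)))‖ ≤
      ‖(p : C)‖ ^ 2
  hrel : PsiE ιZ (mP ((g' * p ^ s) ^ 2)) (mD ((g' * p ^ s) ^ 2)) (rA (X j)) (rA (X l)) = 0

section

variable {C : Type} [NormedField C] [IsUltrametricDist C] [CompleteSpace C] [CharZero C]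
  [IsAlgClosed C] {p d n : ℕ} [hpf : Fact p.Prime] {φ : QA →+* C} {f : Fin n → ℤ[X]} {g : ℤ[X]}
  {m : ℤ} {u : QA} {X : Fin n → QA} (T : PT p d φ f g m u X)

include T

theorem PT.gv0 : vl g (φ u) ≠ 0 := by
  rw [← vl_map]
  exact (map_ne_zero φ).2 T.g0

theorem PT.mC0 : (m : C) ≠ 0 := Int.cast_ne_zero.2 T.m0

theorem PT.mn : ‖(m : C)‖ ≤ ‖(p : C)‖ := by
  obtain ⟨k, hk⟩ := T.pm
  rw [hk, Int.cast_mul, Int.cast_natCast]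
  exact nmul_le' le_rfl (nint k)

theorem PT.mgn : ‖(m : C) * vl g (φ u)‖ ≤ ‖(p : C)‖ := nmul_le' T.mn (vl_le g T.u1)

theorem PT.mg0 : (m : C) * vl g (φ u) ≠ 0 := mul_ne_zero T.mC0 T.gv0

theorem PT.φX (i : Fin n) : φ (X i) = vl (f i) (φ u) / (m * vl g (φ u)) := by
  rw [T.hX, map_div₀, map_mul, map_intCast, vl_map, vl_map]

theorem PT.nX (i : Fin n) : ‖φ (X i)‖ = ‖vl (f i) (φ u)‖ * ‖(m : C) * vl g (φ u)‖⁻¹ := by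
  rw [T.φX, norm_div, div_eq_mul_inv]

theorem PT.one {i j : Fin n} (hi : ‖vl (f i) (φ u)‖ < 1) (hj : ‖vl (f j) (φ u)‖ < 1) : i = j := by
  by_contra hne
  exact absurd (cop_norm T.hp1 (T.good.cop i j hne) T.u1 hi) hj.ne

theorem PT.nb {i : Fin n} (hi : ¬ ‖vl (f i) (φ u)‖ < 1) : ‖vl (f i) (φ u)‖ = 1 :=
  le_antisymm (vl_le _ T.u1) (not_lt.1 hi)

theorem PT.inv_mg : ‖(p : C)‖⁻¹ ≤ ‖(m : C) * vl g (φ u)‖⁻¹ :=
  inv_anti₀ (norm_pos_iff.2 T.mg0) T.mgn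

theorem PT.big1 {i : Fin n} (hi : ‖vl (f i) (φ u)‖ = 1) : 1 < ‖φ (X i)‖ := by
  rw [T.nX, hi, one_mul]
  exact ((one_lt_inv₀ T.hp0).2 T.hp1).trans_le T.inv_mg

theorem PT.iX (i : Fin n) : (φ (X i))⁻¹ = m * vl g (φ u) * (vl (f i) (φ u))⁻¹ := by
  rw [T.φX, inv_div, div_eq_mul_inv]

/-- the information on a pair -/
theorem PT.pair (hP : S_PAIR) {j l : Fin n} (hj : ‖vl (f j) (φ u)‖ = 1)
    (hl : ‖vl (f l) (φ u)‖ = 1) {τ w : ℍ} {a b c e : ℤ} (hdet : 0 < a * e - b * c)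
    (hw : (w : ℂ) * (c * τ + e) = a * τ + b) (hXj : rA (X j) = jj τ) (hXl : rA (X l) = jj w) :
    ∃ (g' s : ℕ) (ζ' ε : Cˣ), PP p φ f g m u X j l g' s ζ' ε := by
  obtain ⟨g', s, ζ', ε, h1, h2, h3, h4, h5, h6⟩ := hP C p φ T.hp0 T.hp1 (X j) (X l) (T.big1 hj)
    (by rw [T.nX, T.nX, hj, hl]) τ w a b c e hdet hw hXj hXl
  refine ⟨g', s, ζ', ε, h1, h2, h3, h4, ?_, h6⟩
  have hj0 : vl (f j) (φ u) ≠ 0 := norm_pos_iff.1 (by rw [hj]; exact one_pos)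
  have hl0 : vl (f l) (φ u) ≠ 0 := norm_pos_iff.1 (by rw [hl]; exact one_pos)
  have e1 : φ (X l) / φ (X j) = vl (f l) (φ u) / vl (f j) (φ u) := by
    rw [T.φX, T.φX]
    have := T.mC0
    have := T.gv0
    field_simp
  have e2 : (φ (X l))⁻¹ - (φ (X j))⁻¹ =
      m * vl g (φ u) * ((vl (f l) (φ u))⁻¹ - (vl (f j) (φ u))⁻¹) := by
    rw [T.iX, T.iX]
    ring
  rw [e1, e2] at h5
  refine h5.trans ?_
  have h7 : ‖φ (X j)‖⁻¹ ≤ ‖(p : C)‖ := by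
    rw [T.nX, hj, one_mul, inv_inv]
    exact T.mgn
  exact pow_le_pow_left₀ (inv_nonneg.2 (norm_nonneg _)) h7 2

theorem PT.corr {j l : Fin n} (hj : ‖vl (f j) (φ u)‖ = 1) (hl : ‖vl (f l) (φ u)‖ = 1) :
    ‖φ (iA (cj 1)) * (m * vl g (φ u) * ((vl (f l) (φ u))⁻¹ - (vl (f j) (φ u))⁻¹))‖ ≤
      ‖(p : C)‖ := by
  refine nmul_le (psi_norm φ (cj 1)) (nmul_le' T.mgn (nsub_le ?_ ?_))
  · rw [norm_inv, hl, inv_one]
  · rw [norm_inv, hj, inv_one]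

/-- the relation modulo `p` -/
theorem PT.mod {j l : Fin n} (hj : ‖vl (f j) (φ u)‖ = 1) (hl : ‖vl (f l) (φ u)‖ = 1)
    {g' s : ℕ} {ζ' ε : Cˣ} (h : PP p φ f g m u X j l g' s ζ' ε) :
    ‖vl (f l) (φ u) / vl (f j) (φ u) * ((ζ' * ε : Cˣ) : C) - 1‖ ≤ ‖(p : C)‖ := by
  have e : vl (f l) (φ u) / vl (f j) (φ u) * ((ζ' * ε : Cˣ) : C) - 1 =
      (vl (f l) (φ u) / vl (f j) (φ u) * ((ζ' * ε : Cˣ) : C) -
    (1 + φ (iA (cj 1)) * (m * vl g (φ u) * ((vl (f l) (φ u))⁻¹ - (vl (f j) (φ u))⁻¹)))) +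
      φ (iA (cj 1)) * (m * vl g (φ u) * ((vl (f l) (φ u))⁻¹ - (vl (f j) (φ u))⁻¹)) := by ring
  rw [e]
  exact nadd_le (h.hexp.trans (pow_le_of_le_one (norm_nonneg _) T.hp1.le two_ne_zero))
    (T.corr hj hl)

omit T in
theorem PP.nζ {j l : Fin n} {g' s : ℕ} {ζ' ε : Cˣ} (h : PP p φ f g m u X j l g' s ζ' ε) :
    ‖(ζ' : C)‖ = 1 := by
  have h1 : ‖(ζ' : C)‖ ^ g' = 1 := by rw [← norm_pow, h.hζ.pow_eq_one, norm_one]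
  exact (pow_eq_one_iff_of_nonneg (norm_nonneg _) h.hg.ne').1 h1

omit T in
theorem PP.nε {j l : Fin n} {g' s : ℕ} {ζ' ε : Cˣ} (h : PP p φ f g m u X j l g' s ζ' ε) :
    ‖(ε : C)‖ = 1 := by
  have h1 : ‖(ε : C)‖ ^ p ^ s = 1 := by rw [← norm_pow, h.hε.pow_eq_one, norm_one]
  exact (pow_eq_one_iff_of_nonneg (norm_nonneg _) (pow_pos hpf.out.pos _).ne').1 h1

theorem PT.gg {j l : Fin n} (hj : ‖vl (f j) (φ u)‖ = 1) (hl : ‖vl (f l) (φ u)‖ = 1)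
    {g' s : ℕ} {ζ' ε : Cˣ} (h : PP p φ f g m u X j l g' s ζ' ε) {F : Cˣ}
    (hF : (F : C) * vl (f j) (φ u) = vl (f l) (φ u)) :
    F * ε ∈ GG C p ‖(p : C)‖ (norm_nonneg _) T.hp1 := by
  have hj0 : vl (f j) (φ u) ≠ 0 := norm_pos_iff.1 (by rw [hj]; exact one_pos)
  have h1 := T.mod hj hl h
  obtain ⟨k, hk, hk'⟩ := fixed_of_pow_eq_one h.hcop h.hζ.pow_eq_one
  refine ⟨(ζ' : C)⁻¹, Nr_inv (Nr_of_fixed hk hk') h.nζ, by rw [norm_inv, h.nζ, inv_one], ?_⟩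
  have hζ0 : (ζ' : C) ≠ 0 := ζ'.ne_zero
  have e : ((F * ε : Cˣ) : C) - (ζ' : C)⁻¹ =
      (vl (f l) (φ u) / vl (f j) (φ u) * ((ζ' * ε : Cˣ) : C) - 1) * (ζ' : C)⁻¹ := by
    rw [← hF]
    simp only [Units.val_mul]
    field_simp
  rw [e]
  exact nmul_le' h1 (by rw [norm_inv, h.nζ, inv_one])

theorem PT.exF {j l : Fin n} (hj : ‖vl (f j) (φ u)‖ = 1) (hl : ‖vl (f l) (φ u)‖ = 1) :
    ∃ F : Cˣ, (F : C) * vl (f j) (φ u) = vl (f l) (φ u) := by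
  have hj0 : vl (f j) (φ u) ≠ 0 := norm_pos_iff.1 (by rw [hj]; exact one_pos)
  have hl0 : vl (f l) (φ u) ≠ 0 := norm_pos_iff.1 (by rw [hl]; exact one_pos)
  refine ⟨Units.mk0 _ (div_ne_zero hl0 hj0), ?_⟩
  rw [Units.val_mk0, div_mul_cancel₀ _ hj0]

theorem PT.p2 : p ≠ 2 := by
  have := T.big
  omega

/-- a wild root of unity is far from one -/
theorem PT.wfar {ε : C} {s : ℕ} (hε : IsPrimitiveRoot ε (p ^ (s + 1))) :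
    ‖ε - 1‖ < 1 ∧ ‖(p : C)‖ < ‖ε - 1‖ ∧ ∀ D : ℕ, D < p - 1 → ‖(p : C)‖ < ‖ε - 1‖ ^ D := by
  have h1 := ppow_root_norm T.p2 T.hp1 hε
  have h2 : ‖ε - 1‖ < 1 := ppow_root_lt T.hp1 hε.pow_eq_one
  have h0 : 0 < ‖ε - 1‖ := PData.root_pos T.p2 T.hp1 T.hp0 hε
  have h3 : ∀ D : ℕ, D < p - 1 → ‖(p : C)‖ < ‖ε - 1‖ ^ D := by
    intro D hD
    rw [← h1]
    refine pow_lt_pow_right_of_lt_one₀ h0 h2 (hD.trans_le ?_)
    exact Nat.le_mul_of_pos_left _ (pow_pos hpf.out.pos _)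
  refine ⟨h2, ?_, h3⟩
  have := h3 1 (by have := T.big; omega)
  rwa [pow_one] at this

/-- no wild torsion in two relations -/
theorem PT.no_wild' (hW : S_WILD) {e : C} (he : e ∈ Nr C p) (hue : ‖φ u - e‖ < 1)
    {j l j' l' : Fin n} (hj : ‖vl (f j) (φ u)‖ = 1) (hl : ‖vl (f l) (φ u)‖ = 1)
    (hj' : ‖vl (f j') (φ u)‖ = 1) (hl' : ‖vl (f l') (φ u)‖ = 1) (hjl : j ≠ l) (hjl' : j' ≠ l')
    (hne : ¬ ((j = j' ∧ l = l') ∨ (j = l' ∧ l = j')))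
    {g' s : ℕ} {ζ' ε : Cˣ} (h : PP p φ f g m u X j l g' s ζ' ε)
    {g'' s' : ℕ} {ζ'' ε' : Cˣ} (h' : PP p φ f g m u X j' l' g'' s' ζ'' ε') (hs : s' ≤ s) :
    s = 0 := by
  by_contra h0
  obtain ⟨t, rfl⟩ : ∃ t, s = t + 1 := ⟨s - 1, by omega⟩
  obtain ⟨F₁, hF₁⟩ := T.exF hj hl
  obtain ⟨F₂, hF₂⟩ := T.exF hj' hl'
  have h1 := hW C p T.p2 T.hp0 T.hp1 d T.d0 (f l) (f j) (f l') (f j') (T.good.degf l)
    (T.good.degf j) (T.good.degf l') (T.good.degf j') (T.good.nw_pair hjl hjl' hne) (φ u) e T.u1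
    he hue hl hj hl' hj' F₁ F₂ hF₁ hF₂ t ε ε' h.hε (by
      obtain ⟨k, hk⟩ := Nat.exists_eq_add_of_le hs
      rw [hk, pow_add, pow_mul, h'.hε.pow_eq_one, one_pow]) ‖(p : C)‖ (norm_nonneg _) T.hp1 le_rfl
    (T.gg hj hl h hF₁) (T.gg hj' hl' h' hF₂)
  have h2 := (T.wfar h.hε).2.2 (4 * d) (by have := T.big; omega)
  exact absurd h1 (not_le.2 h2)

theorem PT.no_wild (hW : S_WILD) {e : C} (he : e ∈ Nr C p) (hue : ‖φ u - e‖ < 1)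
    {j l j' l' : Fin n} (hj : ‖vl (f j) (φ u)‖ = 1) (hl : ‖vl (f l) (φ u)‖ = 1)
    (hj' : ‖vl (f j') (φ u)‖ = 1) (hl' : ‖vl (f l') (φ u)‖ = 1) (hjl : j ≠ l) (hjl' : j' ≠ l')
    (hne : ¬ ((j = j' ∧ l = l') ∨ (j = l' ∧ l = j')))
    {g' s : ℕ} {ζ' ε : Cˣ} (h : PP p φ f g m u X j l g' s ζ' ε)
    {g'' s' : ℕ} {ζ'' ε' : Cˣ} (h' : PP p φ f g m u X j' l' g'' s' ζ'' ε') :
    s = 0 ∧ s' = 0 := by
  rcases le_total s' s with hs | hs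
  · have h1 := T.no_wild' hW he hue hj hl hj' hl' hjl hjl' hne h h' hs
    omega
  · have h1 := T.no_wild' hW he hue hj' hl' hj hl hjl' hjl (by
      rintro (⟨h1, h2⟩ | ⟨h1, h2⟩)
      · exact hne (Or.inl ⟨h1.symm, h2.symm⟩)
      · exact hne (Or.inr ⟨h2.symm, h1.symm⟩)) h' h hs
    omega

end

end Pool.Agent.Q170.PO
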