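import Pool.Agent.Q170.PO.Loc2
import Pool.Agent.Q170.PO.Exc

/-!
# Pairs of good coordinates at one place, second part
-/

set_option autoImplicit false
set_option linter.unusedSectionVars false

open UpperHalfPlane H294ZP Polynomial

namespace Pool.Agent.Q170.PO

open Pool.Agent.Y226 Pool.Agent.Y226.ZG Pool.Agent.Y226.ZM

/-- the tame statement for one prime -/
def TB (p d B : ℕ) : Prop :=
  ∀ (C : Type) [NormedField C] [IsUltrametricDist C] [CompleteSpace C] [CharZero C]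
  [IsAlgClosed C] [Fact p.Prime], 0 < ‖(p : C)‖ → ‖(p : C)‖ < 1 →
  ∀ P Q P₂ Q₂ g : ℤ[X], P.natDegree ≤ d → Q.natDegree ≤ d → P₂.natDegree ≤ d →
  Q₂.natDegree ≤ d → g.natDegree ≤ d → rd p (wr P Q) ≠ 0 → 0 < (rd p P₂).natDegree →
  IsCoprime (rd p P₂) (derivative (rd p P₂)) → IsCoprime (rd p P₂) (rd p Q₂) →
  IsCoprime (rd p P₂) (rd p P) → IsCoprime (rd p P₂) (rd p Q) →
  ∀ (u e : C), ‖u‖ ≤ 1 → (∃ f : ℕ, 0 < f ∧ e ^ p ^ f = e) → ‖u - e‖ < 1 →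
  ‖vl P u‖ = 1 → ‖vl Q u‖ = 1 → ‖vl P₂ u‖ = 1 → ‖vl Q₂ u‖ = 1 → ∀ (m₁ z : ℤ) (ζ₁ ζ₂ : C),
  (∃ f : ℕ, 0 < f ∧ ζ₁ ^ p ^ f = ζ₁) → (∃ f : ℕ, 0 < f ∧ ζ₂ ^ p ^ f = ζ₂) →
  ‖vl P u / vl Q u * ζ₁ - (1 + z * (p * m₁ * vl g u * ((vl P u)⁻¹ - (vl Q u)⁻¹)))‖ ≤
    ‖(p : C)‖ ^ 2 →
  ‖vl P₂ u / vl Q₂ u * ζ₂ - (1 + z * (p * m₁ * vl g u * ((vl P₂ u)⁻¹ - (vl Q₂ u)⁻¹)))‖ ≤
    ‖(p : C)‖ ^ 2 →
  e ^ p ^ B = e

section gen

variable {C : Type} [NormedField C] [IsUltrametricDist C]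
variable {p : ℕ} [hpf : Fact p.Prime]

/-- second order expansion -/
theorem vl_taylor (P : ℤ[X]) {v e : C} (hv : ‖v‖ ≤ 1) (he : ‖e‖ ≤ 1) :
    ‖vl P v - (vl P e + vl (derivative P) e * (v - e))‖ ≤ ‖v - e‖ ^ 2 := by
  set x : OO C := ⟨e, he⟩ with hx
  set y : OO C := ⟨v - e, nsub_le hv he⟩ with hy
  obtain ⟨k, hk⟩ := (P.map (Int.castRingHom (OO C))).binomExpansion x y
  have e1 : x + y = ⟨v, hv⟩ := by
    apply Subtype.ext
    show e + (v - e) = v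
    ring
  rw [e1, derivative_map, ← vl_eq_eval, ← vl_eq_eval, ← vl_eq_eval] at hk
  have h2 := congrArg Subtype.val hk
  simp only [Subring.coe_add, Subring.coe_mul, Subring.coe_pow, vl_OO] at h2
  have h3 : vl P v = vl P e + vl (derivative P) e * (v - e) + (k : C) * (v - e) ^ 2 := h2
  rw [h3]
  have e2 : vl P e + vl (derivative P) e * (v - e) + (k : C) * (v - e) ^ 2 -
      (vl P e + vl (derivative P) e * (v - e)) = (k : C) * (v - e) ^ 2 := by ring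
  rw [e2, norm_mul, norm_pow]
  have h4 : ‖(k : C)‖ ≤ 1 := k.2
  calc ‖(k : C)‖ * ‖v - e‖ ^ 2 ≤ 1 * ‖v - e‖ ^ 2 := by gcongr
    _ = _ := one_mul _

/-- a simple root -/
theorem simple_root (hp1 : ‖(p : C)‖ < 1) {P : ℤ[X]}
    (hs : IsCoprime (rd p P) (derivative (rd p P))) {v e : C} (hv : ‖v‖ ≤ 1) (he : e ∈ Nr C p)
    (hve : ‖v - e‖ < 1) (h : ‖vl P v‖ < 1) : ‖vl P e‖ ≤ ‖(p : C)‖ ∧ ‖vl (derivative P) e‖ = 1 ∧
      ‖vl P v - vl (derivative P) e * (v - e)‖ ≤ max ‖(p : C)‖ (‖v - e‖ ^ 2) := by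
  have he1 := Nr_le he
  have h1 : ‖vl P e‖ < 1 := by
    have e1 : vl P e = vl P v - (vl P v - vl P e) := by ring
    rw [e1]
    exact nsub_lt h ((vl_sub_le P hv he1).trans_lt hve)
  have h2 : ‖vl P e‖ ≤ ‖(p : C)‖ := Nr_gap (vl_Nr P he) h1
  refine ⟨h2, cop_norm hp1 (by rw [rd_deriv]; exact hs) he1 h1, ?_⟩
  have e2 : vl P v - vl (derivative P) e * (v - e) =
      (vl P v - (vl P e + vl (derivative P) e * (v - e))) + vl P e := by ring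
  rw [e2]
  exact nadd_le ((vl_taylor P hv he1).trans (le_max_right _ _)) (h2.trans (le_max_left _ _))

theorem vl_norm_e {P : ℤ[X]} {v e : C} (hv : ‖v‖ ≤ 1) (he1 : ‖e‖ ≤ 1) (hve : ‖v - e‖ < 1)
    (h : ‖vl P v‖ = 1) : ‖vl P e‖ = 1 := by
  refine neq_one ?_ h
  rw [norm_sub_rev]
  exact (vl_sub_le P hv he1).trans_lt hve

end gen

section

variable {C : Type} [NormedField C] [IsUltrametricDist C] [CompleteSpace C] [CharZero C]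
  [IsAlgClosed C] {p d n : ℕ} [hpf : Fact p.Prime] {φ : QA →+* C} {f : Fin n → ℤ[X]} {g : ℤ[X]}
  {m : ℤ} {u : QA} {X : Fin n → QA} (T : PT p d φ f g m u X)

include T

/-- two tame relations -/
theorem PT.tame {B : ℕ} (hB : TB p d B) {e : C} (he : ∃ f : ℕ, 0 < f ∧ e ^ p ^ f = e)
    (hue : ‖φ u - e‖ < 1)
    {j l j' l' : Fin n} (hj : ‖vl (f j) (φ u)‖ = 1) (hl : ‖vl (f l) (φ u)‖ = 1)
    (hj' : ‖vl (f j') (φ u)‖ = 1) (hl' : ‖vl (f l') (φ u)‖ = 1) (hjl : j ≠ l) (hjl' : j' ≠ l')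
    (h1 : l' ≠ j) (h2 : l' ≠ l)
    {g' : ℕ} {ζ' ε : Cˣ} (h : PP p φ f g m u X j l g' 0 ζ' ε)
    {g'' : ℕ} {ζ'' ε' : Cˣ} (h' : PP p φ f g m u X j' l' g'' 0 ζ'' ε') : e ^ p ^ B = e := by
  obtain ⟨z, hz⟩ := cj_int' φ 1
  obtain ⟨m₁, hm₁⟩ := T.pm
  have hε : (ε : C) = 1 := by
    have := h.hε.pow_eq_one
    simpa using this
  have hε' : (ε' : C) = 1 := by
    have := h'.hε.pow_eq_one
    simpa using this
  have e1 := h.hexp
  have e2 := h'.hexp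
  rw [hz, hm₁, Int.cast_mul, Int.cast_natCast, Units.val_mul, hε, mul_one] at e1
  rw [hz, hm₁, Int.cast_mul, Int.cast_natCast, Units.val_mul, hε', mul_one] at e2
  exact hB C T.hp0 T.hp1 (f l) (f j) (f l') (f j') g (T.good.degf l)
    (T.good.degf j) (T.good.degf l') (T.good.degf j') T.good.degg (T.good.wr_ne hjl)
    (T.good.pos l') (T.good.sep l') (T.good.cop l' j' hjl'.symm) (T.good.cop l' l h2)
    (T.good.cop l' j h1) (φ u) e T.u1 he hue hl hj hl' hj' m₁ z ζ' ζ''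
    (fixed_of_pow_eq_one h.hcop h.hζ.pow_eq_one) (fixed_of_pow_eq_one h'.hcop h'.hζ.pow_eq_one)
    e1 e2

/-- the order of the tame root of unity -/
theorem PT.ord {e : C} (he1 : ‖e‖ ≤ 1) (hue : ‖φ u - e‖ < 1) {B : ℕ} (hB : 0 < B)
    (he : e ^ p ^ B = e) {j l : Fin n} (hj : ‖vl (f j) (φ u)‖ = 1)
    (hl : ‖vl (f l) (φ u)‖ = 1)
    {g' s : ℕ} {ζ' ε : Cˣ} (h : PP p φ f g m u X j l g' s ζ' ε) : g' ≤ p ^ B := by
  refine order_bound T.hp1 T.u1 he1 hue hB he hl hj h.hg h.hcop h.hζ ?_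
  have h1 := T.mod hj hl h
  have h2 : ‖(ε : C) - 1‖ < 1 := ppow_root_lt T.hp1 h.hε.pow_eq_one
  have e1 : vl (f l) (φ u) / vl (f j) (φ u) * (ζ' : C) - 1 =
      (vl (f l) (φ u) / vl (f j) (φ u) * ((ζ' * ε : Cˣ) : C) - 1) -
        vl (f l) (φ u) / vl (f j) (φ u) * (ζ' : C) * ((ε : C) - 1) := by
    rw [Units.val_mul]
    ring
  rw [e1]
  refine nsub_lt (h1.trans_lt T.hp1) ?_
  have h3 : ‖vl (f l) (φ u) / vl (f j) (φ u) * (ζ' : C)‖ = 1 := by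
    rw [norm_mul, norm_div, hl, hj, h.nζ, div_one, mul_one]
  rw [norm_mul, h3, one_mul]
  exact h2

/-- the residue class of a root -/
theorem PT.root {e : C} (he : ∃ f : ℕ, 0 < f ∧ e ^ p ^ f = e)
    (hue : ‖φ u - e‖ < 1) {a : Fin n} (ha : ‖vl (f a) (φ u)‖ < 1) : e ^ p ^ d.factorial = e := by
  obtain ⟨k, _, _, red, hker⟩ := exists_residue (C := C) (p := p) T.hp1
  have heN : e ∈ Nr C p := by
    obtain ⟨f, hf, hf'⟩ := he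
    exact Nr_of_fixed hf hf'
  have he1 : ‖e‖ ≤ 1 := Nr_le heN
  refine fixed_of_red red hker T.hp1 he1 he ?_
  have h0 : rd p (f a) ≠ 0 := by
    intro h0
    have := T.good.pos a
    rw [h0, natDegree_zero] at this
    exact lt_irrefl _ this
  refine root_bound h0 (natDegree_map_le.trans (T.good.degf a)) ?_
  rw [← vl_rd, ← vl_map, hker, vl_OO]
  exact (simple_root T.hp1 (T.good.sep a) T.u1 heN hue ha).1.trans_lt T.hp1

/-- wild torsion: the point is not very near -/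
theorem PT.far (hN : S_NEAR) {e : C} (he : e ∈ Nr C p) (hue : ‖φ u - e‖ < 1)
    {j l : Fin n} (hj : ‖vl (f j) (φ u)‖ = 1) (hl : ‖vl (f l) (φ u)‖ = 1)
    {g' t : ℕ} {ζ' ε : Cˣ} (h : PP p φ f g m u X j l g' (t + 1) ζ' ε) :
    ‖(p : C)‖ < ‖φ u - e‖ := by
  obtain ⟨F₁, hF₁⟩ := T.exF hj hl
  have h1 := hN C p T.hp0 T.hp1 (f l) (f j) (φ u) e T.u1 he hue hl hj F₁ hF₁ ε
    (ppow_root_lt T.hp1 h.hε.pow_eq_one) ‖(p : C)‖ (norm_nonneg _) T.hp1 le_rfl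
    (T.gg hj hl h hF₁)
  have h2 := (T.wfar h.hε).2.1
  rcases le_max_iff.1 h1 with h3 | h3
  · exact h2.trans_le h3
  · exact absurd h2 (not_lt.2 h3)

theorem PT.na {e : C} (he : e ∈ Nr C p) (hue : ‖φ u - e‖ < 1) {a : Fin n}
    (ha : ‖vl (f a) (φ u)‖ < 1) (hfar : ‖(p : C)‖ < ‖φ u - e‖) :
    ‖vl (f a) (φ u)‖ = ‖φ u - e‖ := by
  obtain ⟨-, h2, h3⟩ := simple_root T.hp1 (T.good.sep a) T.u1 he hue ha
  have h4 : ‖vl (derivative (f a)) e * (φ u - e)‖ = ‖φ u - e‖ := by rw [norm_mul, h2, one_mul]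
  rw [← h4]
  refine neq_of_sub_lt (h3.trans_lt ?_)
  rw [h4]
  refine max_lt hfar ?_
  have h0 : 0 < ‖φ u - e‖ := T.hp0.trans hfar
  calc ‖φ u - e‖ ^ 2 = ‖φ u - e‖ * ‖φ u - e‖ := sq _
    _ < ‖φ u - e‖ * 1 := by gcongr
    _ = _ := mul_one _

/-- an integral coordinate -/
theorem PT.c2 (hN : S_NEAR) {e : C} (he : e ∈ Nr C p) (hue : ‖φ u - e‖ < 1)
    {j l a : Fin n} (hj : ‖vl (f j) (φ u)‖ = 1) (hl : ‖vl (f l) (φ u)‖ = 1)
    (ha : ‖vl (f a) (φ u)‖ < 1) (hXa : ‖φ (X a)‖ ≤ 1)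
    {g' s : ℕ} {ζ' ε : Cˣ} (h : PP p φ f g m u X j l g' s ζ' ε) : s = 0 := by
  by_contra h0
  obtain ⟨t, rfl⟩ : ∃ t, s = t + 1 := ⟨s - 1, by omega⟩
  have hfar := T.far hN he hue hj hl h
  have h1 := T.na he hue ha hfar
  rw [T.nX, h1] at hXa
  have h2 : ‖φ u - e‖ ≤ ‖(m : C) * vl g (φ u)‖ := by
    have h3 : 0 < ‖(m : C) * vl g (φ u)‖ := norm_pos_iff.2 T.mg0
    rwa [← div_eq_mul_inv, div_le_one h3] at hXa
  exact absurd hfar (not_lt.2 (h2.trans T.mgn))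

end

end Pool.Agent.Q170.PO
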