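import Pool.Agent.Q170.PO.Loc3

/-!
# The coordinate which is not a unit bounds wild torsion
-/

set_option autoImplicit false
set_option linter.unusedSectionVars false

open UpperHalfPlane H294ZP Polynomial

namespace Pool.Agent.Q170.PO

open Pool.Agent.Y226 Pool.Agent.Y226.ZG Pool.Agent.Y226.ZM

section gen

variable {C : Type} [NormedField C] [IsUltrametricDist C]
variable {p : ℕ} [hpf : Fact p.Prime]

/-- two coprime polynomials are not proportional modulo `p` -/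
theorem coeff_unit (hp1 : ‖(p : C)‖ < 1) {P Q : ℤ[X]} (hc : IsCoprime (rd p P) (rd p Q))
    (h0 : 0 < (rd p Q).natDegree) {w : C} (hw : ‖w‖ ≤ 1) :
    ∃ i, ‖(P.map (Int.castRingHom C) - Polynomial.C w * Q.map (Int.castRingHom C)).coeff i‖ = 1 := by
  obtain ⟨k, _, _, red, hker⟩ := exists_residue (C := C) (p := p) hp1
  by_contra hcon
  push Not at hcon
  have h1 : ∀ i, ‖((P.coeff i : ℤ) : C) - w * ((Q.coeff i : ℤ) : C)‖ < 1 := by
    intro i
    have h2 := hcon i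
    rw [coeff_sub, coeff_C_mul, coeff_map, coeff_map] at h2
    exact lt_of_le_of_ne (nsub_le (nint _) (nmul_le hw (nint _))) h2
  have h2 : (rd p P).map (ZMod.castHom dvd_rfl k) =
      Polynomial.C (red ⟨w, hw⟩) * (rd p Q).map (ZMod.castHom dvd_rfl k) := by
    ext i
    rw [coeff_C_mul, coeff_map, coeff_map]
    unfold rd
    rw [coeff_map, coeff_map]
    have h3 : red ((P.coeff i : OO C) - ⟨w, hw⟩ * (Q.coeff i : OO C)) = 0 := by
      rw [hker]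
      exact h1 i
    rw [map_sub, map_mul, map_intCast, map_intCast, sub_eq_zero] at h3
    simpa using h3
  have h4 := hc.map (mapRingHom (ZMod.castHom dvd_rfl k))
  rw [coe_mapRingHom, h2] at h4
  have h5 : IsUnit ((rd p Q).map (ZMod.castHom dvd_rfl k)) :=
    h4.isUnit_of_dvd' (dvd_mul_left _ _) dvd_rfl
  have h6 := natDegree_eq_zero_of_isUnit h5
  rw [natDegree_map] at h6
  omega

theorem map_PS (P : ℤ[X]) : P.map (Int.castRingHom C) ∈ PS (Nr C p) := by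
  rw [mem_PS]
  intro i
  rw [coeff_map]
  exact intCast_mem _ _

theorem inv_sub_le {a b : C} (ha : ‖a‖ = 1) (hb : ‖b‖ = 1) {δ : ℝ} (h : ‖a - b‖ ≤ δ) :
    ‖a⁻¹ - b⁻¹‖ ≤ δ := by
  have ha0 : a ≠ 0 := norm_pos_iff.1 (by rw [ha]; exact one_pos)
  have hb0 : b ≠ 0 := norm_pos_iff.1 (by rw [hb]; exact one_pos)
  have e : a⁻¹ - b⁻¹ = -((a - b) * (a⁻¹ * b⁻¹)) := by
    field_simp
    ring
  rw [e, norm_neg]
  refine nmul_le' h ?_
  rw [norm_mul, norm_inv, norm_inv, ha, hb, inv_one, one_mul]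

theorem pow_sub_small {x y : C} {ρ δ : ℝ} (hx : ‖x‖ = ρ) (hy : ‖y‖ = ρ) (hδ : ‖x - y‖ ≤ δ)
    {r : ℕ} (hr : 0 < r) : ‖x ^ r - y ^ r‖ ≤ δ * ρ ^ (r - 1) := by
  have h0 : 0 ≤ δ := (norm_nonneg _).trans hδ
  have hρ : 0 ≤ ρ := hx ▸ norm_nonneg _
  rw [← (Commute.all x y).geom_sum₂_mul, mul_comm, norm_mul]
  refine mul_le_mul hδ ?_ (norm_nonneg _) h0
  refine nsum_le _ _ (pow_nonneg hρ _) fun i hi => ?_
  rw [norm_mul, norm_pow, norm_pow, hx, hy, ← pow_add]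
  have := Finset.mem_range.1 hi
  have e : i + (r - 1 - i) = r - 1 := by omega
  rw [e]

end gen

section

variable {C : Type} [NormedField C] [IsUltrametricDist C] [CompleteSpace C] [CharZero C]
  [IsAlgClosed C] {p d n : ℕ} [hpf : Fact p.Prime] {φ : QA →+* C} {f : Fin n → ℤ[X]} {g : ℤ[X]}
  {m : ℤ} {u : QA} {X : Fin n → QA} (T : PT p d φ f g m u X)

include T

/-- the local parameter and the coordinate -/
theorem PT.kap {e : C} (he : e ∈ Nr C p) (hue : ‖φ u - e‖ < 1)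
    {a : Fin n} (ha : ‖vl (f a) (φ u)‖ < 1) (hfar : ‖(p : C)‖ < ‖φ u - e‖) :
    ∃ κ ∈ Nr C p, ‖κ‖ = 1 ∧ ‖vl (f a) (φ u) / vl g (φ u)‖ = ‖φ u - e‖ ∧
      ‖(φ u - e) - κ * (vl (f a) (φ u) / vl g (φ u))‖ ≤ max ‖(p : C)‖ (‖φ u - e‖ ^ 2) := by
  have hp1 := T.hp1
  have he1 := Nr_le he
  have hga : ‖vl g (φ u)‖ = 1 := cop_norm hp1 (T.good.copg a) T.u1 ha
  have hge : ‖vl g e‖ = 1 := vl_norm_e T.u1 he1 hue hga
  obtain ⟨-, hc, hca⟩ := simple_root T.hp1 (T.good.sep a) T.u1 he hue ha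
  have hna := T.na he hue ha hfar
  have hηn : ‖vl (f a) (φ u) / vl g (φ u)‖ = ‖φ u - e‖ := by rw [norm_div, hga, div_one, hna]
  have hg0 : vl g (φ u) ≠ 0 := T.gv0
  have hc0 : vl (derivative (f a)) e ≠ 0 := norm_pos_iff.1 (by rw [hc]; exact one_pos)
  refine ⟨vl g e * (vl (derivative (f a)) e)⁻¹, mul_mem (vl_Nr _ he) (Nr_inv (vl_Nr _ he) hc),
    by rw [norm_mul, norm_inv, hge, hc, inv_one, mul_one], hηn, ?_⟩
  have hsub := vl_sub_le g T.u1 he1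
  generalize φ u - e = h at *
  generalize vl (derivative (f a)) e = c at *
  generalize vl g (φ u) = gv at *
  generalize vl g e = ge at *
  generalize vl (f a) (φ u) = fa at *
  have e1 : h - ge * c⁻¹ * (fa / gv) = -((fa - c * h) + (ge - gv) * (fa / gv)) * c⁻¹ := by
    field_simp
    ring
  rw [e1]
  refine nmul_le' ?_ (by rw [norm_inv, hc, inv_one])
  rw [norm_neg]
  refine nadd_le hca ?_
  refine le_trans ?_ (le_max_right _ _)
  rw [norm_mul, hηn, sq, norm_sub_rev]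
  exact mul_le_mul_of_nonneg_right hsub (norm_nonneg _)

/-- the contact of a quotient with its value -/
theorem PT.conE {e : C} (he : e ∈ Nr C p) (hue : ‖φ u - e‖ < 1)
    {j l : Fin n} (hjl : j ≠ l) (hj : ‖vl (f j) (φ u)‖ = 1) (hl : ‖vl (f l) (φ u)‖ = 1) :
    ∃ r, 0 < r ∧ r ≤ d ∧ ∃ w₀ ∈ Nr C p, ∃ w ∈ Nr C p, ‖w‖ = 1 ∧
      ‖vl (f l) (φ u) - w₀ * vl (f j) (φ u) - w * (φ u - e) ^ r‖ ≤
        max ‖(p : C)‖ (‖φ u - e‖ ^ (r + 1)) := by
  have hp1 := T.hp1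
  have he1 := Nr_le he
  have hje : ‖vl (f j) e‖ = 1 := vl_norm_e T.u1 he1 hue hj
  have hle : ‖vl (f l) e‖ = 1 := vl_norm_e T.u1 he1 hue hl
  have hje0 : vl (f j) e ≠ 0 := norm_pos_iff.1 (by rw [hje]; exact one_pos)
  obtain ⟨w₀, hw₀, hw₀N, hw₀1⟩ : ∃ w₀, w₀ = vl (f l) e / vl (f j) e ∧ w₀ ∈ Nr C p ∧
      ‖w₀‖ = 1 := by
    refine ⟨_, rfl, ?_, ?_⟩
    · rw [div_eq_mul_inv]
      exact mul_mem (vl_Nr _ he) (Nr_inv (vl_Nr _ he) hje)
    · rw [norm_div, hle, hje, div_one]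
  obtain ⟨E, hE⟩ : ∃ E : C[X], E = (f l).map (Int.castRingHom C) -
      Polynomial.C w₀ * (f j).map (Int.castRingHom C) := ⟨_, rfl⟩
  have hEv : ∀ y : C, E.eval y = vl (f l) y - w₀ * vl (f j) y := by
    intro y
    rw [hE, eval_sub, eval_mul, eval_C, ← vl_eq_eval, ← vl_eq_eval]
  have hEN : E ∈ PS (Nr C p) := by
    rw [hE]
    exact sub_mem (map_PS _) (mul_mem (C_mem_PS hw₀N) (map_PS _))
  have hED : E.natDegree ≤ d := by
    rw [hE]
    refine (natDegree_sub_le _ _).trans (max_le ?_ ?_)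
    · exact natDegree_map_le.trans (T.good.degf l)
    · refine (natDegree_C_mul_le _ _).trans ?_
      exact natDegree_map_le.trans (T.good.degf j)
  have hunit : ∃ i, ‖E.coeff i‖ = 1 := by
    rw [hE]
    exact coeff_unit hp1 (T.good.cop l j hjl.symm) (T.good.pos j) hw₀1.le
  obtain ⟨r, hrD, w', hw'N, hw'1, hcon⟩ := contact2 hp1 hEN hED hunit he hue
  have hEe : E.eval e = 0 := by
    rw [hEv, hw₀, div_mul_cancel₀ _ hje0, sub_self]
  have hr0 : 0 < r := by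
    rcases Nat.eq_zero_or_pos r with h1 | h1
    · exfalso
      rw [h1, pow_zero, mul_one, zero_add, pow_one] at hcon
      have h2 : ‖E.eval (φ u)‖ = 1 := neq_one (hcon.trans_lt (max_lt hp1 hue)) hw'1
      have h3 : ‖E.eval (φ u)‖ ≤ ‖φ u - e‖ := by
        have e1 : E.eval (φ u) = E.eval (φ u) - E.eval e := by rw [hEe, sub_zero]
        rw [e1, hEv, hEv]
        have e2 : vl (f l) (φ u) - w₀ * vl (f j) (φ u) - (vl (f l) e - w₀ * vl (f j) e) =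
            (vl (f l) (φ u) - vl (f l) e) - w₀ * (vl (f j) (φ u) - vl (f j) e) := by ring
        rw [e2]
        exact nsub_le (vl_sub_le _ T.u1 he1) (nmul_le hw₀1.le (vl_sub_le _ T.u1 he1))
      rw [h2] at h3
      exact absurd hue (not_lt.2 h3)
    · exact h1
  refine ⟨r, hr0, hrD, w₀, hw₀N, w', hw'N, hw'1, ?_⟩
  rw [← hEv]
  exact hcon

/-- the contact of a quotient with a coordinate which is not a unit -/
theorem PT.contact {e : C} (he : e ∈ Nr C p) (hue : ‖φ u - e‖ < 1)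
    {j l a : Fin n} (hjl : j ≠ l) (hj : ‖vl (f j) (φ u)‖ = 1) (hl : ‖vl (f l) (φ u)‖ = 1)
    (ha : ‖vl (f a) (φ u)‖ < 1) (hfar : ‖(p : C)‖ < ‖φ u - e‖) :
    ∃ r, 0 < r ∧ r ≤ d ∧ ∃ w₀ ∈ Nr C p, ∃ w ∈ Nr C p, ‖w‖ = 1 ∧
      ‖vl (f l) (φ u) / vl (f j) (φ u) - w₀ - w * (vl (f a) (φ u) / vl g (φ u)) ^ r‖ ≤
        max ‖(p : C)‖ (‖vl (f a) (φ u) / vl g (φ u)‖ ^ (r + 1)) := by
  have he1 := Nr_le he
  have hje : ‖vl (f j) e‖ = 1 := vl_norm_e T.u1 he1 hue hj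
  obtain ⟨κ, hκN, hκ1, hηn, hhκ⟩ := T.kap he hue ha hfar
  obtain ⟨r, hr0, hrD, w₀, hw₀N, w', hw'N, hw'1, hcon⟩ := T.conE he hue hjl hj hl
  refine ⟨r, hr0, hrD, w₀, hw₀N, w' * (vl (f j) e)⁻¹ * κ ^ r,
    mul_mem (mul_mem hw'N (Nr_inv (vl_Nr _ he) hje)) (pow_mem hκN _), ?_, ?_⟩
  · rw [norm_mul, norm_mul, norm_pow, norm_inv, hw'1, hje, hκ1, inv_one, one_pow, mul_one, mul_one]
  have hj0 : vl (f j) (φ u) ≠ 0 := norm_pos_iff.1 (by rw [hj]; exact one_pos)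
  have hsub := vl_sub_le (f j) T.u1 he1
  have hinv := inv_sub_le hj hje hsub
  generalize vl (f a) (φ u) / vl g (φ u) = η at *
  have hue1 := hue.le
  generalize φ u - e = h at *
  generalize vl (f j) (φ u) = fj at *
  generalize vl (f j) e = fe at *
  generalize vl (f l) (φ u) = fl at *
  have hκη : ‖κ * η‖ = ‖h‖ := by rw [norm_mul, hκ1, one_mul, hηn]
  have hpw : ‖h ^ r - (κ * η) ^ r‖ ≤ max ‖(p : C)‖ (‖h‖ ^ (r + 1)) := by
    refine (pow_sub_small rfl hκη hhκ hr0).trans ?_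
    rw [max_mul_of_nonneg _ _ (pow_nonneg (norm_nonneg _) _)]
    refine max_le_max ?_ ?_
    · exact mul_le_of_le_one_right (norm_nonneg _) (pow_le_one₀ (norm_nonneg _) hue1)
    · rw [← pow_add]
      have e1 : 2 + (r - 1) = r + 1 := by omega
      rw [e1]
  rw [hηn]
  have e1 : fl / fj - w₀ - w' * fe⁻¹ * κ ^ r * η ^ r =
      (fl - w₀ * fj - w' * h ^ r) * fj⁻¹ + w' * fj⁻¹ * (h ^ r - (κ * η) ^ r) +
      w' * (κ * η) ^ r * (fj⁻¹ - fe⁻¹) := by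
    have e2 : fl / fj - w₀ = (fl - w₀ * fj) * fj⁻¹ := by
      field_simp
    rw [e2, mul_pow]
    ring
  rw [e1]
  have hji : ‖fj⁻¹‖ = 1 := by rw [norm_inv, hj, inv_one]
  refine nadd_le (nadd_le ?_ ?_) ?_
  · exact nmul_le' hcon hji.le
  · exact nmul_le (by rw [norm_mul, hw'1, hji, one_mul]) hpw
  · refine le_trans ?_ (le_max_right _ _)
    rw [norm_mul, norm_mul, hw'1, one_mul, norm_pow, hκη, pow_succ]
    exact mul_le_mul_of_nonneg_left hinv (pow_nonneg (norm_nonneg _) _)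

/-- the factor prime to `p` -/
theorem PT.mfac : ∃ (e : ℕ) (m' : ℤ), 0 < e ∧ m = p ^ e * m' ∧ ‖(m' : C)‖ = 1 := by
  have hfin : FiniteMultiplicity (p : ℤ) m := by
    rw [Int.finiteMultiplicity_iff]
    refine ⟨?_, T.m0⟩
    rw [Int.natAbs_natCast]
    exact hpf.out.ne_one
  obtain ⟨m', hm', hnd⟩ := hfin.exists_eq_pow_mul_and_not_dvd
  refine ⟨multiplicity (p : ℤ) m, m', ?_, hm', int_unit T.hp1 hnd⟩
  rw [Nat.pos_iff_ne_zero]
  intro h0
  rw [h0, pow_zero, one_mul] at hm'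
  exact hnd (hm' ▸ T.pm)

end

end Pool.Agent.Q170.PO
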