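import Pool.Agent.Q170.PO.Px11
import Pool.Agent.Q239.PO.DENP

/-!
# Residue classes and density
-/

set_option autoImplicit false
set_option linter.unusedSectionVars false

open UpperHalfPlane H294ZP Polynomial

namespace Pool.Agent.Q170.PO

open Pool.Agent.Y226 Pool.Agent.Y226.ZG Pool.Agent.Y226.ZM
open Pool.Agent.Q170.UZ (NoAt)

/-- integrality for almost all primes -/
theorem adm_large (Γ : Finset ℂ) (hΓ : ∀ γ ∈ Γ, IsAlgebraic ℚ γ) :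
    ∃ D : ℕ, ∀ p : ℕ, p.Prime → D < p → Adm (Γ : Set ℂ) p := by
  classical
  have h1 : ∀ γ ∈ Γ, ∃ (c : QA) (D : ℕ), rA c = γ ∧ ∀ (p : ℕ) [Fact p.Prime], D < p →
      ∀ (C : Type) [NormedField C] [IsUltrametricDist C] [IsAlgClosed C] (φ : QA →+* C),
      ‖(p : C)‖ < 1 → φ c ∈ Nr C p := by
    intro γ hγ
    have h2 : γ ∈ algebraicClosure ℚ ℂ := mem_algebraicClosure_iff'.2 (hΓ γ hγ).isIntegral
    obtain ⟨D, hD⟩ := nr_large (⟨γ, h2⟩ : QA)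
    exact ⟨⟨γ, h2⟩, D, rfl, fun p _ hp C _ _ _ φ hφ => hD p hp C φ hφ⟩
  choose! c D hc hD using h1
  refine ⟨Γ.sup D, fun p hp hpD => ?_⟩
  have : Fact p.Prime := ⟨hp⟩
  obtain ⟨C, i1, i2, i3, i4, i5, φ, hφ⟩ := exists_padic p
  refine ⟨C, i1, i2, i3, i4, i5, φ, hφ, fun γ hγ => ⟨c γ, hc γ hγ, ?_⟩⟩
  have hp1 : ‖(p : C)‖ < 1 := by
    rw [hφ]
    exact inv_lt_one_of_one_lt₀ (by exact_mod_cast hp.one_lt)
  exact Nr_le (hD γ hγ p (lt_of_le_of_lt (Finset.le_sup hγ) hpD) C φ hp1)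

/-- one good prime number for a residue class -/
theorem class_prime {n d : ℕ} (E : MvPolynomial (Fin n × Fin (d + 1)) ℤ) (hE : E ≠ 0) (Q : ℕ) :
    ∃ (p : ℕ) (b : Fin n → Fin (d + 1) → ℤ), p.Prime ∧ Q < p ∧
      ∀ a : Fin n → Fin (d + 1) → ℤ, (∀ i k, (p : ℤ) ∣ a i k - b i k) →
        ¬ (p : ℤ) ∣ MvPolynomial.eval (fun q => a q.1 q.2) E := by
  obtain ⟨b, hb⟩ : ∃ b : Fin n × Fin (d + 1) → ℤ, MvPolynomial.eval b E ≠ 0 := by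
    by_contra hcon
    push Not at hcon
    exact hE (MvPolynomial.funext fun b => by rw [hcon b, map_zero])
  obtain ⟨p, hp, hpp⟩ := Nat.exists_infinite_primes (max Q (MvPolynomial.eval b E).natAbs + 1)
  refine ⟨p, fun i k => b (i, k), hpp, by omega, fun a ha hdvd => ?_⟩
  have h1 : (p : ℤ) ∣ MvPolynomial.eval (fun q : Fin n × Fin (d + 1) => a q.1 q.2) E -
      MvPolynomial.eval b E := by
    rw [← ZMod.intCast_zmod_eq_zero_iff_dvd, Int.cast_sub, sub_eq_zero]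
    have h2 : ∀ x : Fin n × Fin (d + 1) → ℤ, ((MvPolynomial.eval x E : ℤ) : ZMod p) =
        MvPolynomial.eval₂ (Int.castRingHom (ZMod p)) (fun q => ((x q : ℤ) : ZMod p)) E := by
      intro x
      have h3 := MvPolynomial.eval₂_comp_left (Int.castRingHom (ZMod p)) (RingHom.id ℤ) x E
      rw [RingHom.comp_id] at h3
      exact h3
    rw [h2, h2]
    congr 1
    funext q
    have h4 := ha q.1 q.2
    rw [← ZMod.intCast_zmod_eq_zero_iff_dvd, Int.cast_sub, sub_eq_zero] at h4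
    exact h4
  have h2 : (p : ℤ) ∣ MvPolynomial.eval b E := by
    have := dvd_sub hdvd h1
    rwa [sub_sub_cancel] at this
  have h3 := Int.natAbs_dvd_natAbs.2 h2
  rw [Int.natAbs_natCast] at h3
  have h4 := Nat.le_of_dvd (Int.natAbs_pos.2 hb) h3
  omega

/-- All members of a residue class. -/
theorem classes (n d : ℕ) (hd : 0 < d) (g : Fin n → ℤ[X]) (h : Poles d g) (Γ : Finset ℂ)
    (hΓ : ∀ γ ∈ Γ, IsAlgebraic ℚ γ) : ∃ (M : ℕ) (b : Fin n → Fin (d + 1) → ℤ), 0 < M ∧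
    ∀ (m : ℤ) (a : Fin n → Fin (d + 1) → ℤ), m ≠ 0 → (M : ℤ) ∣ m →
      (∀ i k, (M : ℤ) ∣ a i k - b i k) → NoAt (Γ : Set ℂ) (crv m (fun _ => d) (fun i => pol (a i)) g) := by
  obtain ⟨D, hD⟩ := adm_large Γ hΓ
  obtain ⟨Q₁, E₁, hE₁, h₁⟩ := crit n d hd g h
  obtain ⟨p₁, b₁, hp₁, hQ₁, ha₁⟩ := class_prime E₁ hE₁ (max Q₁ D)
  obtain ⟨Q₂, E₂, hE₂, h₂⟩ := h₁ p₁
  obtain ⟨p₂, b₂, hp₂, hQ₂, ha₂⟩ := class_prime E₂ hE₂ (max (max Q₂ D) p₁)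
  obtain ⟨Q₃, E₃, hE₃, h₃⟩ := h₂ p₂
  obtain ⟨p₃, b₃, hp₃, hQ₃, ha₃⟩ := class_prime E₃ hE₃ (max (max Q₃ D) p₂)
  have l₁ : Q₁ < p₁ ∧ D < p₁ := by omega
  have l₂ : Q₂ < p₂ ∧ D < p₂ ∧ p₁ < p₂ := by omega
  have l₃ : Q₃ < p₃ ∧ D < p₃ ∧ p₂ < p₃ := by omega
  have c₁₂ : Nat.Coprime p₁ p₂ := (Nat.coprime_primes hp₁ hp₂).2 (by omega)
  have c₁₃ : Nat.Coprime p₁ p₃ := (Nat.coprime_primes hp₁ hp₃).2 (by omega)
  have c₂₃ : Nat.Coprime p₂ p₃ := (Nat.coprime_primes hp₂ hp₃).2 (by omega)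
  have hcrt : ∀ x y z : ℤ, ∃ w : ℤ, (p₁ : ℤ) ∣ w - x ∧ (p₂ : ℤ) ∣ w - y ∧ (p₃ : ℤ) ∣ w - z := by
    intro x y z
    obtain ⟨u, v, huv⟩ : IsCoprime (p₁ : ℤ) (p₂ : ℤ) := Nat.isCoprime_iff_coprime.2 c₁₂
    obtain ⟨u', v', huv'⟩ : IsCoprime ((p₁ * p₂ : ℕ) : ℤ) (p₃ : ℤ) :=
      Nat.isCoprime_iff_coprime.2 (Nat.Coprime.mul_left c₁₃ c₂₃)
    push_cast at huv'
    refine ⟨(x * (v * p₂) + y * (u * p₁)) * (v' * p₃) + z * (u' * (p₁ * p₂)),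
      ⟨(y - x) * u * (v' * p₃) - x * u' * p₂ + z * (u' * p₂), ?_⟩,
      ⟨(x - y) * v * (v' * p₃) - y * u' * p₁ + z * (u' * p₁), ?_⟩,
      ⟨(x * (v * p₂) + y * (u * p₁)) * v' - z * v', ?_⟩⟩
    · linear_combination (x * (v' * p₃)) * huv + x * huv'
    · linear_combination (y * (v' * p₃)) * huv + y * huv'
    · linear_combination z * huv'
  choose b hb using fun (i : Fin n) (k : Fin (d + 1)) => hcrt (b₁ i k) (b₂ i k) (b₃ i k)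
  refine ⟨p₁ * p₂ * p₃, b, by positivity [hp₁.pos, hp₂.pos, hp₃.pos], ?_⟩
  intro m a hm hMm hMa
  have d₁ : (p₁ : ℤ) ∣ ((p₁ * p₂ * p₃ : ℕ) : ℤ) := by
    push_cast
    exact ⟨p₂ * p₃, by ring⟩
  have d₂ : (p₂ : ℤ) ∣ ((p₁ * p₂ * p₃ : ℕ) : ℤ) := by
    push_cast
    exact ⟨p₁ * p₃, by ring⟩
  have d₃ : (p₃ : ℤ) ∣ ((p₁ * p₂ * p₃ : ℕ) : ℤ) := by
    push_cast
    exact ⟨p₁ * p₂, by ring⟩
  refine h₃ (Γ : Set ℂ) m a hm ⟨p₁, le_rfl, hp₁, l₁.1, d₁.trans hMm, ha₁ a fun i k => ?_,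
    hD p₁ hp₁ l₁.2⟩ ⟨p₂, le_rfl, hp₂, l₂.1, d₂.trans hMm, ha₂ a fun i k => ?_,
    hD p₂ hp₂ l₂.2.1⟩ ⟨p₃, hp₃, l₃.1, d₃.trans hMm, ha₃ a fun i k => ?_, hD p₃ hp₃ l₃.2.1⟩
  · have := dvd_add (d₁.trans (hMa i k)) (hb i k).1
    rwa [sub_add_sub_cancel] at this
  · have := dvd_add (d₂.trans (hMa i k)) (hb i k).2.1
    rwa [sub_add_sub_cancel] at this
  · have := dvd_add (d₃.trans (hMa i k)) (hb i k).2.2
    rwa [sub_add_sub_cancel] at this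

theorem box_fin (n d H : ℕ) : {t : ℤ × (Fin n → Fin (d + 1) → ℤ) |
    |t.1| ≤ H ∧ ∀ i k, |t.2 i k| ≤ H}.Finite := by
  have h1 : (Set.univ.pi fun _ : Fin n => Set.univ.pi fun _ : Fin (d + 1) =>
      Set.Icc (-(H : ℤ)) H).Finite :=
    Set.Finite.pi fun _ => Set.Finite.pi fun _ => Set.finite_Icc _ _
  refine ((Set.finite_Icc (-(H : ℤ)) H).prod h1).subset ?_
  rintro ⟨x, y⟩ ⟨h1, h2⟩
  exact ⟨abs_le.1 h1, fun i _ k _ => abs_le.1 (h2 i k)⟩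

/-- One hundred percent of the members. -/
theorem density (n d : ℕ) (hd : 0 < d) (g : Fin n → ℤ[X]) (h : Poles d g) (Γ : Finset ℂ)
    (hΓ : ∀ γ ∈ Γ, IsAlgebraic ℚ γ) (ε : ℝ) (hε : 0 < ε) : ∃ H₀ : ℕ, ∀ H : ℕ, H₀ ≤ H →
    ({t : ℤ × (Fin n → Fin (d + 1) → ℤ) | (|t.1| ≤ H ∧ ∀ i k, |t.2 i k| ≤ H) ∧
      ¬ (t.1 ≠ 0 ∧ NoAt (Γ : Set ℂ) (crv t.1 (fun _ => d) (fun i => pol (t.2 i)) g))}.ncard : ℝ) ≤
      ε * (2 * H + 1) ^ (1 + n * (d + 1)) := by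
  obtain ⟨D, hD⟩ := adm_large Γ hΓ
  have hε3 : 0 < ε / 3 := by positivity
  obtain ⟨Q₁, E₁, hE₁, h₁⟩ := crit n d hd g h
  obtain ⟨B₁, H₁, hd₁⟩ := Pool.Agent.Q239.PO.denp n d E₁ hE₁ (max Q₁ D) (ε / 3) hε3
  obtain ⟨Q₂, E₂, hE₂, h₂⟩ := h₁ B₁
  obtain ⟨B₂, H₂, hd₂⟩ := Pool.Agent.Q239.PO.denp n d E₂ hE₂ (max Q₂ D) (ε / 3) hε3
  obtain ⟨Q₃, E₃, hE₃, h₃⟩ := h₂ B₂
  obtain ⟨B₃, H₃, hd₃⟩ := Pool.Agent.Q239.PO.denp n d E₃ hE₃ (max Q₃ D) (ε / 3) hε3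
  refine ⟨max H₁ (max H₂ H₃), fun H hH => ?_⟩
  let Ex : MvPolynomial (Fin n × Fin (d + 1)) ℤ → ℕ → ℕ →
      Set (ℤ × (Fin n → Fin (d + 1) → ℤ)) := fun E Q B =>
    {t | (|t.1| ≤ H ∧ ∀ i k, |t.2 i k| ≤ H) ∧
      ¬ (t.1 ≠ 0 ∧ ∃ p : ℕ, p.Prime ∧ Q < p ∧ p ≤ B ∧ (p : ℤ) ∣ t.1 ∧
        ¬ (p : ℤ) ∣ MvPolynomial.eval (fun q => t.2 q.1 q.2) E)}
  have hfin : ∀ E Q B, (Ex E Q B).Finite := fun E Q B =>
    (box_fin n d H).subset fun t ht => ht.1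
  have hsub : {t : ℤ × (Fin n → Fin (d + 1) → ℤ) | (|t.1| ≤ H ∧ ∀ i k, |t.2 i k| ≤ H) ∧
      ¬ (t.1 ≠ 0 ∧ NoAt (Γ : Set ℂ) (crv t.1 (fun _ => d) (fun i => pol (t.2 i)) g))} ⊆
      Ex E₁ (max Q₁ D) B₁ ∪ (Ex E₂ (max Q₂ D) B₂ ∪ Ex E₃ (max Q₃ D) B₃) := by
    rintro t ⟨hbox, ht⟩
    by_contra hcon
    rw [Set.mem_union, Set.mem_union, not_or, not_or] at hcon
    obtain ⟨n₁, n₂, n₃⟩ := hcon
    have key : ∀ E Q B, t ∉ Ex E (max Q D) B → t.1 ≠ 0 ∧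
        ∃ p ≤ B, GoodPr E Q (Γ : Set ℂ) t.1 t.2 p := by
      intro E Q B hn
      have h4 : t.1 ≠ 0 ∧ ∃ p : ℕ, p.Prime ∧ max Q D < p ∧ p ≤ B ∧ (p : ℤ) ∣ t.1 ∧
          ¬ (p : ℤ) ∣ MvPolynomial.eval (fun q => t.2 q.1 q.2) E := by
        by_contra h5
        exact hn ⟨hbox, h5⟩
      obtain ⟨h0, p, hp, hQ, hB, hpm, hE⟩ := h4
      exact ⟨h0, p, hB, hp, lt_of_le_of_lt (le_max_left _ _) hQ, hpm, hE,
        hD p hp (lt_of_le_of_lt (le_max_right _ _) hQ)⟩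
    obtain ⟨h0, k₁⟩ := key E₁ Q₁ B₁ n₁
    obtain ⟨-, k₂⟩ := key E₂ Q₂ B₂ n₂
    obtain ⟨-, p₃, -, k₃⟩ := key E₃ Q₃ B₃ n₃
    exact ht ⟨h0, h₃ (Γ : Set ℂ) t.1 t.2 h0 k₁ k₂ ⟨p₃, k₃⟩⟩
  have c₁ := hd₁ H ((le_max_left _ _).trans hH)
  have c₂ := hd₂ H (((le_max_left _ _).trans (le_max_right _ _)).trans hH)
  have c₃ := hd₃ H (((le_max_right _ _).trans (le_max_right _ _)).trans hH)
  have e₁ := Set.ncard_le_ncard hsub ((hfin _ _ _).union ((hfin _ _ _).union (hfin _ _ _)))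
  have e₂ := e₁.trans ((Set.ncard_union_le _ _).trans
    (Nat.add_le_add_left (Set.ncard_union_le _ _) _))
  have e₃ := (Nat.cast_le (α := ℝ)).2 e₂
  rw [Nat.cast_add, Nat.cast_add] at e₃
  calc _ ≤ _ := e₃
    _ ≤ ε / 3 * (2 * H + 1) ^ (1 + n * (d + 1)) + (ε / 3 * (2 * H + 1) ^ (1 + n * (d + 1)) +
        ε / 3 * (2 * H + 1) ^ (1 + n * (d + 1))) := add_le_add c₁ (add_le_add c₂ c₃)
    _ = _ := by ring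

end Pool.Agent.Q170.PO
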