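import Pool.Agent.Q170.PO.Px14

/-!
# Fixed rational curves: criterion, residue classes, density
-/

set_option autoImplicit false
set_option linter.unusedSectionVars false

open UpperHalfPlane H294ZP Polynomial Filter Topology

namespace Pool.Agent.Q170.PO

open Pool.Agent.Y226 Pool.Agent.Y226.ZG Pool.Agent.Y226.ZM
open Pool.Agent.Q170.UZ (NoAt)

/-- `p` is a good prime number for the quotient `c / m` -/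
def GoodF (Q : ℕ) (Γ : Set ℂ) (c m : ℤ) (p : ℕ) : Prop :=
  p.Prime ∧ Q < p ∧ (p : ℤ) ∣ m ∧ ¬ (p : ℤ) ∣ c ∧ Adm Γ p

/-- One stage of the criterion. -/
theorem stageF {n : ℕ} {e : Fin n → ℕ} {f g : Fin n → ℤ[X]} (h : GPos e f g) (G' : ℕ) :
    ∃ Q : ℕ, ∀ (p : ℕ), p.Prime → ∃ G : ℕ, ∀ (Γ : Set ℂ) (c m : ℤ), m ≠ 0 →
      GoodF Q Γ c m p → Inf1 Γ (crv m e (fun i => C c * f i) g) G G' := by
  set d : ℕ := ∑ i, e i + 1 with hd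
  have hed : ∀ i, e i ≤ d := fun i =>
    (Finset.single_le_sum (f := e) (fun _ _ => Nat.zero_le _) (Finset.mem_univ i)).trans
      (Nat.le_succ _)
  have hM := Nat.factorial_pos (G' * G')
  obtain ⟨Q₁, h₁⟩ := h.ch hed hM
  obtain ⟨Q₂, h₂⟩ := h.refl.ch hed hM
  refine ⟨max (max Q₁ Q₂) (2 * d * (4 * dd d) + (4 * dd d + 1) + (d ^ 3 + 2 * d + 2)), ?_⟩
  intro p hp
  obtain ⟨B, hB0, hB⟩ := tb2 p (6 * d) hp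
  refine ⟨GB p d B, ?_⟩
  rintro Γ c m hm ⟨-, hQp, hpm, hc, hΓ⟩
  have : Fact p.Prime := ⟨hp⟩
  have hQ1 : Q₁ < p := lt_of_le_of_lt ((le_max_left _ _).trans (le_max_left _ _)) hQp
  have hQ2 : Q₂ < p := lt_of_le_of_lt ((le_max_right _ _).trans (le_max_left _ _)) hQp
  have hbig : Big p d := big_of (lt_of_le_of_lt (le_max_right _ _) hQp)
  have k₂ := (h₂ p hp hQ2).mulC hc
  have e1 : (fun i => C c * reflect (e i) (f i)) = fun i => reflect (e i) (C c * f i) := by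
    funext i
    rw [reflect_C_mul]
  rw [e1] at k₂
  exact onePrime hp (Nat.succ_pos _) hbig (fun i => (natDegree_C_mul_le _ _).trans (h.fe i)) h.ge
    ((h₁ p hp hQ1).mulC hc) k₂ hB0 hB hm hpm hΓ

/-- The criterion with three primes. -/
theorem critF {n : ℕ} {e : Fin n → ℕ} {f g : Fin n → ℤ[X]} (h : GPos e f g) :
    ∃ Q₁ : ℕ, ∀ B₁ : ℕ, ∃ Q₂ : ℕ, ∀ B₂ : ℕ, ∃ Q₃ : ℕ, ∀ (Γ : Set ℂ) (c m : ℤ), m ≠ 0 →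
      (∃ p ≤ B₁, GoodF Q₁ Γ c m p) → (∃ p ≤ B₂, GoodF Q₂ Γ c m p) → (∃ p, GoodF Q₃ Γ c m p) →
      NoAt Γ (crv m e (fun i => C c * f i) g) := by
  obtain ⟨Q₁, h₁⟩ := stageF h 0
  refine ⟨Q₁, fun B₁ => ?_⟩
  choose g₁ hg₁ using h₁
  obtain ⟨G₁, hG₁⟩ := exists_sup B₁ g₁
  obtain ⟨Q₂, h₂⟩ := stageF h G₁
  refine ⟨Q₂, fun B₂ => ?_⟩
  choose g₂ hg₂ using h₂
  obtain ⟨G₂, hG₂⟩ := exists_sup B₂ g₂
  obtain ⟨Q₃, h₃⟩ := stageF h (max G₁ G₂)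
  refine ⟨Q₃, ?_⟩
  rintro Γ c m hm ⟨p₁, hp₁B, hp₁⟩ ⟨p₂, hp₂B, hp₂⟩ ⟨p₃, hp₃⟩
  obtain ⟨G₃, hG₃⟩ := h₃ p₃ hp₃.1
  exact three ((hg₁ p₁ hp₁.1 Γ c m hm hp₁).mono (hG₁ p₁ hp₁B hp₁.1))
    ((hg₂ p₂ hp₂.1 Γ c m hm hp₂).mono (hG₂ p₂ hp₂B hp₂.1)) (hG₃ Γ c m hm hp₃)

/-- All multiples with denominators divisible by a fixed number. -/
theorem classF {n : ℕ} {e : Fin n → ℕ} {f g : Fin n → ℤ[X]} (h : GPos e f g) (Γ : Finset ℂ)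
    (hΓ : ∀ γ ∈ Γ, IsAlgebraic ℚ γ) : ∃ M : ℕ, 0 < M ∧ ∀ c m : ℤ, m ≠ 0 → (M : ℤ) ∣ m →
      IsCoprime c m → NoAt (Γ : Set ℂ) (crv m e (fun i => C c * f i) g) := by
  obtain ⟨D, hD⟩ := adm_large Γ hΓ
  obtain ⟨Q₁, h₁⟩ := critF h
  obtain ⟨p₁, l₁, hp₁⟩ := Nat.exists_infinite_primes (max Q₁ D + 1)
  obtain ⟨Q₂, h₂⟩ := h₁ p₁
  obtain ⟨p₂, l₂, hp₂⟩ := Nat.exists_infinite_primes (max Q₂ D + 1)
  obtain ⟨Q₃, h₃⟩ := h₂ p₂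
  obtain ⟨p₃, l₃, hp₃⟩ := Nat.exists_infinite_primes (max Q₃ D + 1)
  refine ⟨p₁ * p₂ * p₃, Nat.mul_pos (Nat.mul_pos hp₁.pos hp₂.pos) hp₃.pos, ?_⟩
  intro c m hm hMm hcm
  have key : ∀ p : ℕ, p.Prime → (p : ℤ) ∣ m → ¬ (p : ℤ) ∣ c := by
    intro p hp hpm hpc
    obtain ⟨a, b, hab⟩ := hcm
    have h1 : (p : ℤ) ∣ 1 := by
      rw [← hab]
      exact dvd_add (hpc.mul_left a) (hpm.mul_left b)
    have h2 := Int.natAbs_dvd_natAbs.2 h1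
    rw [Int.natAbs_natCast, Int.natAbs_one, Nat.dvd_one] at h2
    exact hp.one_lt.ne' h2
  have d₁ : (p₁ : ℤ) ∣ m := by
    refine dvd_trans ?_ hMm
    push_cast
    exact ⟨p₂ * p₃, by ring⟩
  have d₂ : (p₂ : ℤ) ∣ m := by
    refine dvd_trans ?_ hMm
    push_cast
    exact ⟨p₁ * p₃, by ring⟩
  have d₃ : (p₃ : ℤ) ∣ m := by
    refine dvd_trans ?_ hMm
    push_cast
    exact ⟨p₁ * p₂, by ring⟩
  exact h₃ (Γ : Set ℂ) c m hm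
    ⟨p₁, le_rfl, hp₁, by omega, d₁, key p₁ hp₁ d₁, hD p₁ hp₁ (by omega)⟩
    ⟨p₂, le_rfl, hp₂, by omega, d₂, key p₂ hp₂ d₂, hD p₂ hp₂ (by omega)⟩
    ⟨p₃, hp₃, by omega, d₃, key p₃ hp₃ d₃, hD p₃ hp₃ (by omega)⟩

/-- Density, for exceptional sets in general. -/
theorem densG {n : ℕ} {e : Fin n → ℕ} {f g : Fin n → ℤ[X]} (h : GPos e f g) (Γ : Finset ℂ)
    (hΓ : ∀ γ ∈ Γ, IsAlgebraic ℚ γ) {ι : Type} (c m : ι → ℤ) (box : ℕ → Set ι)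
    (hbox : ∀ H, (box H).Finite) (V : ℕ → ℝ)
    (hden : ∀ (Q : ℕ) (ε : ℝ), 0 < ε → ∃ B H₀ : ℕ, ∀ H : ℕ, H₀ ≤ H →
      ({t | t ∈ box H ∧ ¬ (m t ≠ 0 ∧ ∃ p : ℕ, p.Prime ∧ Q < p ∧ p ≤ B ∧ (p : ℤ) ∣ m t ∧
        ¬ (p : ℤ) ∣ c t)}.ncard : ℝ) ≤ ε * V H) (ε : ℝ) (hε : 0 < ε) :
    ∃ H₀ : ℕ, ∀ H : ℕ, H₀ ≤ H →
    ({t | t ∈ box H ∧
      ¬ (m t ≠ 0 ∧ NoAt (Γ : Set ℂ) (crv (m t) e (fun i => C (c t) * f i) g))}.ncard : ℝ) ≤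
      ε * V H := by
  obtain ⟨D, hD⟩ := adm_large Γ hΓ
  have hε3 : 0 < ε / 3 := by positivity
  obtain ⟨Q₁, h₁⟩ := critF h
  obtain ⟨B₁, H₁, hd₁⟩ := hden (max Q₁ D) (ε / 3) hε3
  obtain ⟨Q₂, h₂⟩ := h₁ B₁
  obtain ⟨B₂, H₂, hd₂⟩ := hden (max Q₂ D) (ε / 3) hε3
  obtain ⟨Q₃, h₃⟩ := h₂ B₂
  obtain ⟨B₃, H₃, hd₃⟩ := hden (max Q₃ D) (ε / 3) hε3
  refine ⟨max H₁ (max H₂ H₃), fun H hH => ?_⟩
  let Ex : ℕ → ℕ → Set ι := fun Q B =>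
    {t | t ∈ box H ∧ ¬ (m t ≠ 0 ∧ ∃ p : ℕ, p.Prime ∧ Q < p ∧ p ≤ B ∧ (p : ℤ) ∣ m t ∧
        ¬ (p : ℤ) ∣ c t)}
  have hfin : ∀ Q B, (Ex Q B).Finite := fun Q B => (hbox H).subset fun t ht => ht.1
  have hsub : {t | t ∈ box H ∧
      ¬ (m t ≠ 0 ∧ NoAt (Γ : Set ℂ) (crv (m t) e (fun i => C (c t) * f i) g))} ⊆
      Ex (max Q₁ D) B₁ ∪ (Ex (max Q₂ D) B₂ ∪ Ex (max Q₃ D) B₃) := by
    rintro t ⟨hbx, ht⟩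
    by_contra hcon
    rw [Set.mem_union, Set.mem_union, not_or, not_or] at hcon
    obtain ⟨n₁, n₂, n₃⟩ := hcon
    have key : ∀ Q B, t ∉ Ex (max Q D) B → m t ≠ 0 ∧
        ∃ p ≤ B, GoodF Q (Γ : Set ℂ) (c t) (m t) p := by
      intro Q B hn
      have h4 : m t ≠ 0 ∧ ∃ p : ℕ, p.Prime ∧ max Q D < p ∧ p ≤ B ∧ (p : ℤ) ∣ m t ∧
          ¬ (p : ℤ) ∣ c t := by
        by_contra h5
        exact hn ⟨hbx, h5⟩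
      obtain ⟨h0, p, hp, hQ, hB, hpm, hE⟩ := h4
      exact ⟨h0, p, hB, hp, lt_of_le_of_lt (le_max_left _ _) hQ, hpm, hE,
        hD p hp (lt_of_le_of_lt (le_max_right _ _) hQ)⟩
    obtain ⟨h0, k₁⟩ := key Q₁ B₁ n₁
    obtain ⟨-, k₂⟩ := key Q₂ B₂ n₂
    obtain ⟨-, p₃, -, k₃⟩ := key Q₃ B₃ n₃
    exact ht ⟨h0, h₃ (Γ : Set ℂ) (c t) (m t) h0 k₁ k₂ ⟨p₃, k₃⟩⟩
  have c₁ := hd₁ H ((le_max_left _ _).trans hH)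
  have c₂ := hd₂ H (((le_max_left _ _).trans (le_max_right _ _)).trans hH)
  have c₃ := hd₃ H (((le_max_right _ _).trans (le_max_right _ _)).trans hH)
  have e₁ := Set.ncard_le_ncard hsub ((hfin _ _).union ((hfin _ _).union (hfin _ _)))
  have e₂ := e₁.trans ((Set.ncard_union_le _ _).trans
    (Nat.add_le_add_left (Set.ncard_union_le _ _) _))
  have e₃ := (Nat.cast_le (α := ℝ)).2 e₂
  rw [Nat.cast_add, Nat.cast_add] at e₃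
  calc _ ≤ _ := e₃
    _ ≤ ε / 3 * V H + (ε / 3 * V H + ε / 3 * V H) := add_le_add c₁ (add_le_add c₂ c₃)
    _ = _ := by ring

/-- integral denominators -/
theorem den1 (Q : ℕ) (ε : ℝ) (hε : 0 < ε) : ∃ B H₀ : ℕ, ∀ H : ℕ, H₀ ≤ H →
    ({t : ℤ | t ∈ {t : ℤ | |t| ≤ H} ∧ ¬ (t ≠ 0 ∧ ∃ p : ℕ, p.Prime ∧ Q < p ∧ p ≤ B ∧
      (p : ℤ) ∣ t ∧ ¬ (p : ℤ) ∣ (1 : ℤ))}.ncard : ℝ) ≤ ε * (2 * H + 1) := by
  obtain ⟨B, H₀, h⟩ := Pool.Agent.Q239.PO.denp 0 0 1 one_ne_zero Q ε hε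
  refine ⟨B, H₀, fun H hH => ?_⟩
  have h1 := h H hH
  rw [zero_mul, add_zero, pow_one] at h1
  refine le_trans (Nat.cast_le.2 ?_) h1
  have hinj : Function.Injective
      (fun t : ℤ => ((t, fun i => i.elim0) : ℤ × (Fin 0 → Fin (0 + 1) → ℤ))) := by
    intro a b hab
    exact congrArg Prod.fst hab
  rw [← Set.ncard_image_of_injective _ hinj]
  refine Set.ncard_le_ncard ?_ ((box_fin 0 0 H).subset fun t ht => ht.1)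
  rintro _ ⟨t, ⟨h2, h3⟩, rfl⟩
  refine ⟨⟨h2, fun i => i.elim0⟩, ?_⟩
  rintro ⟨h4, p, h5, h6, h7, h8, h9⟩
  refine h3 ⟨h4, p, h5, h6, h7, h8, ?_⟩
  rwa [map_one] at h9

/-- rational multiples -/
theorem den2 (Q : ℕ) (ε : ℝ) (hε : 0 < ε) : ∃ B H₀ : ℕ, ∀ H : ℕ, H₀ ≤ H →
    ({t : ℤ × ℤ | t ∈ {t : ℤ × ℤ | |t.1| ≤ H ∧ |t.2| ≤ H} ∧ ¬ (t.2 ≠ 0 ∧ ∃ p : ℕ, p.Prime ∧
      Q < p ∧ p ≤ B ∧ (p : ℤ) ∣ t.2 ∧ ¬ (p : ℤ) ∣ t.1)}.ncard : ℝ) ≤ ε * (2 * H + 1) ^ 2 := by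
  obtain ⟨B, H₀, h⟩ := Pool.Agent.Q239.PO.denp 1 0 (MvPolynomial.X (0, 0))
    (MvPolynomial.X_ne_zero _) Q ε hε
  refine ⟨B, H₀, fun H hH => ?_⟩
  have h1 := h H hH
  rw [show 1 + 1 * (0 + 1) = 2 from rfl] at h1
  refine le_trans (Nat.cast_le.2 ?_) h1
  have hinj : Function.Injective
      (fun t : ℤ × ℤ => ((t.2, fun _ _ => t.1) : ℤ × (Fin 1 → Fin (0 + 1) → ℤ))) := by
    intro a b hab
    have e1 := congrArg Prod.fst hab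
    have e2 := congrFun (congrFun (congrArg Prod.snd hab) 0) 0
    exact Prod.ext e2 e1
  rw [← Set.ncard_image_of_injective _ hinj]
  refine Set.ncard_le_ncard ?_ ((box_fin 1 0 H).subset fun t ht => ht.1)
  rintro _ ⟨t, ⟨h2, h3⟩, rfl⟩
  refine ⟨⟨h2.2, fun i k => h2.1⟩, ?_⟩
  rintro ⟨h4, p, h5, h6, h7, h8, h9⟩
  refine h3 ⟨h4, p, h5, h6, h7, h8, ?_⟩
  rwa [MvPolynomial.eval_X] at h9

end Pool.Agent.Q170.PO
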