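import Pool.Agent.Q170.PO.Loc1

/-!
# Logarithmic derivatives modulo `p`
-/

set_option autoImplicit false
set_option linter.unusedSectionVars false

open UpperHalfPlane H294ZP Polynomial

namespace Pool.Agent.Q170.PO

open Pool.Agent.Y226 Pool.Agent.Y226.ZG Pool.Agent.Y226.ZM

variable {p : ℕ} [hpf : Fact p.Prime]

theorem rd_wr (P Q : ℤ[X]) : rd p (wr P Q) =
    derivative (rd p P) * rd p Q - rd p P * derivative (rd p Q) := by
  unfold wr
  rw [rd_sub, rd_mul, rd_mul, rd_deriv, rd_deriv]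

theorem not_unit_of_pos {A : (ZMod p)[X]} (h : 0 < A.natDegree) : ¬ IsUnit A := by
  intro hu
  rw [natDegree_eq_zero_of_isUnit hu] at h
  exact lt_irrefl _ h

theorem wr_ne {P Q : ℤ[X]} (h0 : 0 < (rd p P).natDegree)
    (h1 : IsCoprime (rd p P) (derivative (rd p P))) (h2 : IsCoprime (rd p P) (rd p Q)) :
    rd p (wr P Q) ≠ 0 := by
  intro h
  rw [rd_wr] at h
  have h3 : rd p P ∣ derivative (rd p P) * rd p Q := by
    rw [sub_eq_zero.1 h]
    exact dvd_mul_right _ _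
  exact not_unit_of_pos h0 ((h1.mul_right h2).isUnit_of_dvd' dvd_rfl h3)

theorem NW.swap₂ {P Q P₂ Q₂ : ℤ[X]} (h : NW p P Q P₂ Q₂) : NW p P Q Q₂ P₂ := by
  intro γ h0
  refine h (-γ) ?_
  rw [rd_mul, rd_mul, rd_wr] at h0 ⊢
  simp only [rd_mul] at h0 ⊢
  rw [C_neg]
  linear_combination -h0

theorem NW.swap₁ {P Q P₂ Q₂ : ℤ[X]} (h : NW p P Q P₂ Q₂) : NW p Q P P₂ Q₂ := by
  intro γ h0
  refine h (-γ) ?_
  simp only [rd_mul, rd_wr] at h0 ⊢
  rw [C_neg]
  linear_combination h0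

theorem nw_new {P Q P₂ Q₂ : ℤ[X]} (h0 : 0 < (rd p P₂).natDegree)
    (h1 : IsCoprime (rd p P₂) (derivative (rd p P₂))) (h2 : IsCoprime (rd p P₂) (rd p Q₂))
    (h3 : IsCoprime (rd p P₂) (rd p P)) (h4 : IsCoprime (rd p P₂) (rd p Q)) :
    NW p P Q P₂ Q₂ := by
  intro γ h
  rw [rd_mul, rd_mul, rd_wr, rd_mul, rd_mul] at h
  have h5 : rd p P₂ ∣ derivative (rd p P₂) * rd p Q₂ * (rd p P * rd p Q) :=
    ⟨derivative (rd p Q₂) * (rd p P * rd p Q) + C γ * rd p (wr P Q) * rd p Q₂, by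
      linear_combination h⟩
  exact not_unit_of_pos h0 (((h1.mul_right h2).mul_right (h3.mul_right h4)).isUnit_of_dvd'
    dvd_rfl h5)

theorem nw_same {P Q G : ℤ[X]} (h0 : 0 < (rd p P).natDegree) (h0' : 0 < (rd p Q).natDegree)
    (h1 : IsCoprime (rd p P) (derivative (rd p P))) (h1' : IsCoprime (rd p Q) (derivative (rd p Q)))
    (h2 : IsCoprime (rd p P) (rd p Q)) (h3 : IsCoprime (rd p P) (rd p G))
    (h3' : IsCoprime (rd p Q) (rd p G)) : NW p P Q P G := by
  intro γ h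
  simp only [rd_mul, rd_wr] at h
  have hP0 : rd p P ≠ 0 := by
    intro h4
    rw [h4, natDegree_zero] at h0
    exact lt_irrefl _ h0
  have h4 : rd p P * ((derivative (rd p P) * rd p G - rd p P * derivative (rd p G)) * rd p Q -
      C γ * (derivative (rd p P) * rd p Q - rd p P * derivative (rd p Q)) * rd p G) = 0 := by
    linear_combination h
  have h5 := (mul_eq_zero.1 h4).resolve_left hP0
  by_cases hγ : γ = 1
  · have h6 : rd p Q ∣ rd p P * derivative (rd p Q) * rd p G := by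
      rw [hγ, C_1, one_mul] at h5
      exact ⟨rd p P * derivative (rd p G), by linear_combination h5⟩
    exact not_unit_of_pos h0' (((h2.symm.mul_right h1').mul_right h3').isUnit_of_dvd' dvd_rfl h6)
  · have h6 : rd p P ∣ C (1 - γ) * (derivative (rd p P) * rd p G * rd p Q) :=
      ⟨derivative (rd p G) * rd p Q - C γ * derivative (rd p Q) * rd p G, by
        rw [C_sub, C_1]
        linear_combination h5⟩
    have hu : IsUnit (C (1 - γ) : (ZMod p)[X]) := by
      rw [isUnit_C]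
      exact (sub_ne_zero.2 (Ne.symm hγ)).isUnit
    rw [hu.dvd_mul_left] at h6
    exact not_unit_of_pos h0 (((h1.mul_right h3).mul_right h2).isUnit_of_dvd' dvd_rfl h6)

section good

variable {d n : ℕ} {f : Fin n → ℤ[X]} {g : ℤ[X]} (h : GoodP p d f g)

include h

theorem GoodP.wr_ne {j k : Fin n} (hjk : j ≠ k) : rd p (wr (f k) (f j)) ≠ 0 :=
  Pool.Agent.Q170.PO.wr_ne (h.pos k) (h.sep k) (h.cop k j hjk.symm)

/-- a new coordinate in the second pair -/
theorem GoodP.nw_new {j k j' k' : Fin n} (hjk' : j' ≠ k') (h1 : k' ≠ j) (h2 : k' ≠ k) :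
    NW p (f k) (f j) (f k') (f j') :=
  Pool.Agent.Q170.PO.nw_new (h.pos k') (h.sep k') (h.cop k' j' hjk'.symm) (h.cop k' k h2)
    (h.cop k' j h1)

theorem GoodP.nw_pair {j k j' k' : Fin n} (hjk : j ≠ k) (hjk' : j' ≠ k')
    (hne : ¬ ((j = j' ∧ k = k') ∨ (j = k' ∧ k = j'))) :
    NW p (f k) (f j) (f k') (f j') := by
  by_cases h1 : k' ≠ j ∧ k' ≠ k
  · exact h.nw_new hjk' h1.1 h1.2
  · have h2 : j' ≠ j ∧ j' ≠ k := by
      constructor
      · rintro rfl
        apply h1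
        refine ⟨hjk'.symm, ?_⟩
        rintro rfl
        exact hne (Or.inl ⟨rfl, rfl⟩)
      · rintro rfl
        apply h1
        refine ⟨?_, hjk'.symm⟩
        rintro rfl
        exact hne (Or.inr ⟨rfl, rfl⟩)
    exact (h.nw_new hjk'.symm h2.1 h2.2).swap₂

theorem GoodP.nw_g {j k : Fin n} (hjk : j ≠ k) (l : Fin n) : NW p (f k) (f j) (f l) g := by
  by_cases h1 : l = k
  · subst h1
    exact nw_same (h.pos l) (h.pos j) (h.sep l) (h.sep j) (h.cop l j hjk.symm) (h.copg l) (h.copg j)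
  · by_cases h2 : l = j
    · subst h2
      exact (nw_same (h.pos l) (h.pos k) (h.sep l) (h.sep k) (h.cop l k hjk) (h.copg l)
        (h.copg k)).swap₁
    · exact Pool.Agent.Q170.PO.nw_new (h.pos l) (h.sep l) (h.copg l) (h.cop l k h1) (h.cop l j h2)

end good

end Pool.Agent.Q170.PO
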