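import Pool.Agent.Q170.PO.St

/-!
# Project PX: Zilber-Pink for almost all rational curves with prescribed poles (statements)

`f_1, …, f_n` are integral polynomials of degree at most `d` (variable), `g_1, …, g_n` are fixed
integral polynomials, the curve is `x_i = f_i (s) / (m g_i (s))` in `Y(1)^n`. At each point of the
projective line the orders of the poles of the `x_i` agree, with at most one exception. Project PO
is the case `g_1 = … = g_n`. `rd`, `vl`, `wr`, `pol` are in `Pool.Agent.Q170.PO.St`.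
-/

set_option autoImplicit false
set_option linter.unusedSectionVars false

open UpperHalfPlane H294ZP Polynomial

namespace Pool.Agent.Q170.PO

open Pool.Agent.Y226 Pool.Agent.Y226.ZG Pool.Agent.Y226.ZM

/-- `f_1, …, f_n` are in general position modulo `p`, and prime to `g_1, …, g_n` -/
structure GoodQ (p d : ℕ) {n : ℕ} (f g : Fin n → ℤ[X]) : Prop where
  degf : ∀ i, (f i).natDegree ≤ d
  pos : ∀ i, 0 < (rd p (f i)).natDegree
  sep : ∀ i, IsCoprime (rd p (f i)) (derivative (rd p (f i)))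
  cop : ∀ i j, i ≠ j → IsCoprime (rd p (f i)) (rd p (f j))
  copg : ∀ i j, IsCoprime (rd p (f i)) (rd p (g j))

/-- the part of `g_i = c_i ∏ π_t ^ K t i` prime to `π_t` -/
noncomputable def Hq {n T : ℕ} (π : Fin T → ℤ[X]) (K : Fin T → Fin n → ℕ) (c : Fin n → ℤ)
    (t : Fin T) (i : Fin n) : ℤ[X] :=
  C (c i) * ∏ t' ∈ Finset.univ.erase t, π t' ^ K t' i

/-- no multiplicative relations of exponent `M` modulo `p` -/
structure NoRelQ (p M : ℕ) {n T : ℕ} (f g : Fin n → ℤ[X]) (π : Fin T → ℤ[X])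
    (K : Fin T → Fin n → ℕ) (c : Fin n → ℤ) : Prop where
  two : ∀ (k : Type) [Field k] [CharP k p] (x : k), (∀ i, vl (g i) x ≠ 0) → ∀ j l j' l' : Fin n,
    j ≠ l → j' ≠ l' → ¬ ((j = j' ∧ l = l') ∨ (j = l' ∧ l = j')) →
    (vl (f l) x * vl (g j) x) ^ M = (vl (f j) x * vl (g l) x) ^ M →
    (vl (f l') x * vl (g j') x) ^ M ≠ (vl (f j') x * vl (g l') x) ^ M
  one : ∀ (k : Type) [Field k] [CharP k p] (x : k) (a j l : Fin n), vl (f a) x = 0 → j ≠ l →
    a ≠ j → a ≠ l → (vl (f l) x * vl (g j) x) ^ M ≠ (vl (f j) x * vl (g l) x) ^ M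
  pole : ∀ (k : Type) [Field k] [CharP k p] (x : k) (t : Fin T) (j l : Fin n), vl (π t) x = 0 →
    j ≠ l → K t j = K t l →
    (vl (f l) x * vl (Hq π K c t j) x) ^ M ≠ (vl (f j) x * vl (Hq π K c t l) x) ^ M

/-- JOB PX-TAME. Generalization of `S_TAME` (`Pool.Agent.Q150.PO.tame`): the correction terms are
`p c (u) / (P (u) Q (u))` with arbitrary polynomials `c`, and `P₂ = R S` has a good factor `R`. The
proof is the same, with `c₁ = c̄`, `c₂ = c̄₂` and `T ≠ 0` from `R̄ ∣ (W₂ P̄ Q̄) ^ (p - 1)`: `R̄` is prime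
to `S̄ Q̄₂ P̄ Q̄` and to `R̄'`, so it is prime to `W₂ = (R S)' Q₂ - R S Q₂'`. -/
def S_TAME2 : Prop := ∀ (p d : ℕ), p.Prime → ∃ B : ℕ, 0 < B ∧
  ∀ (C : Type) [NormedField C] [IsUltrametricDist C] [CompleteSpace C] [CharZero C]
  [IsAlgClosed C] [Fact p.Prime], 0 < ‖(p : C)‖ → ‖(p : C)‖ < 1 →
  ∀ P Q R S Q₂ c c₂ : ℤ[X], P.natDegree ≤ d → Q.natDegree ≤ d → (R * S).natDegree ≤ d →
  Q₂.natDegree ≤ d → c.natDegree ≤ d → c₂.natDegree ≤ d → rd p (wr P Q) ≠ 0 →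
  0 < (rd p R).natDegree → IsCoprime (rd p R) (derivative (rd p R)) →
  IsCoprime (rd p R) (rd p S) → IsCoprime (rd p R) (rd p Q₂) →
  IsCoprime (rd p R) (rd p P) → IsCoprime (rd p R) (rd p Q) →
  ∀ (u e : C), ‖u‖ ≤ 1 → (∃ f : ℕ, 0 < f ∧ e ^ p ^ f = e) → ‖u - e‖ < 1 →
  ‖vl P u‖ = 1 → ‖vl Q u‖ = 1 → ‖vl (R * S) u‖ = 1 → ‖vl Q₂ u‖ = 1 → ∀ (ζ₁ ζ₂ : C),
  (∃ f : ℕ, 0 < f ∧ ζ₁ ^ p ^ f = ζ₁) → (∃ f : ℕ, 0 < f ∧ ζ₂ ^ p ^ f = ζ₂) →
  ‖vl P u / vl Q u * ζ₁ - (1 + p * (vl c u / (vl P u * vl Q u)))‖ ≤ ‖(p : C)‖ ^ 2 →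
  ‖vl (R * S) u / vl Q₂ u * ζ₂ - (1 + p * (vl c₂ u / (vl (R * S) u * vl Q₂ u)))‖ ≤
    ‖(p : C)‖ ^ 2 →
  e ^ p ^ B = e

/-- JOB PX-GEN. Generalization of `S_GEN` (`Pool.Agent.Q210.PO.gen`). PROOF. As for `S_GEN`, `E` is a
product of resultants in the coefficients `X (i, k)`, and `Q` excludes finitely many primes (leading
coefficients of the `π_t` and of the fixed Bezout identities). `pos`, `sep`, `cop`: as before.
`copg`: resultant of `F_i` (formal degree `d`) and `g_j`, as before. `pole`: resultant of `π_t`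
(full degree, `p` prime to the leading coefficient) and
`(F_l H_j) ^ M - (F_j H_l) ^ M`; for `F_l = 1`, `F_j = 0` it is the resultant of `π_t` and `H_j ^ M`,
not zero as `H_j` is prime to `π_t`. `one`: resultant of `F_a` (formal degree `d`) and
`(F_l g_j) ^ M - (F_j g_l) ^ M`; for `F_a = (X - r) ^ d`, `F_l = 1`, `F_j = 0` it is
`± g_j (r) ^ (M d)`. `two`: let `g_j = D a`, `g_l = D b` with `a`, `b` coprime (`D, a, b` in `ℤ[X]`,
`exists_reduced_factors'`), `g_j' = D' a'`, `g_l' = D' b'`. As `g_i (x) ≠ 0` the two equations are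
`R (x) = 0`, `R' (x) = 0` with `R = (F_l a) ^ M - (F_j b) ^ M`, `R' = (F_l' a') ^ M - (F_j' b') ^ M`;
take the resultant of `R` and `R'`. It is not zero: we may suppose that `y := l'` is not in `{j, l}`.
Choose `F_l`, `F_j`, `F_j'` (complex or integral polynomials of degree `d`, e.g. `c (X - r) ^ d`) such
that `R` has full formal degree `M (d + max (deg a) (deg b))` and such that `F_j'` has no zero in
common with `a'`. At each root `ρ` of `R` the number `R' (ρ) = (F_y (ρ) a' (ρ)) ^ M -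
(F_j' (ρ) b' (ρ)) ^ M` is a polynomial in the constant `F_y = τ` which is not identically zero (if
`a' (ρ) = 0` then `b' (ρ) ≠ 0` and `F_j' (ρ) ≠ 0`), so for almost all integers `τ` the polynomials
`R`, `R'` have no common root, and the resultant is not zero as `R` has full formal degree. -/
def S_GEN2 : Prop := ∀ (n d : ℕ), 0 < d → ∀ g : Fin n → ℤ[X], (∀ i, g i ≠ 0) →
  ∀ (T : ℕ) (π : Fin T → ℤ[X]) (K : Fin T → Fin n → ℕ) (c : Fin n → ℤ), (∀ i, c i ≠ 0) →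
  (∀ i, g i = C (c i) * ∏ t, π t ^ K t i) → (∀ t, 0 < (π t).natDegree) →
  (∀ t t', t ≠ t' → IsCoprime ((π t).map (Int.castRingHom ℚ)) ((π t').map (Int.castRingHom ℚ))) →
  ∀ M : ℕ, 0 < M → ∃ (Q : ℕ) (E : MvPolynomial (Fin n × Fin (d + 1)) ℤ), E ≠ 0 ∧
  ∀ (p : ℕ), p.Prime → Q < p →
  ∀ a : Fin n → Fin (d + 1) → ℤ, ¬ (p : ℤ) ∣ MvPolynomial.eval (fun q => a q.1 q.2) E →
    GoodQ p d (fun i => pol (a i)) g ∧ NoRelQ p M (fun i => pol (a i)) g π K c

/-- JOB PX-FPS. Generalization of `S_FPS` (`Pool.Agent.Q239.PO.fps`), same proof (a root of `f_j`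
where `g_j`, `g_l`, `f_l` are units). -/
def S_FPS2 : Prop := ∀ (n d p : ℕ) (f g : Fin n → ℤ[X]), p.Prime → GoodQ p d f g →
  ∀ m : ℤ, m ≠ 0 → (p : ℤ) ∣ m → ∀ j l : Fin n, j ≠ l → ∀ N : ℕ, 0 < N →
  ∃ H : QA[X], H ≠ 0 ∧ ∀ s : ℂ, vl (g j) s ≠ 0 → vl (g l) s ≠ 0 →
    PsiE ιZ (mP N) (mD N) (vl (f l) s / (m * vl (g l) s)) (vl (f j) s / (m * vl (g j) s)) = 0 →
    (H.map rA).eval s = 0

/-- JOB PX-FCN. Generalization of `S_FCN` (`Pool.Agent.Q210.PO.fcn`), same proof. -/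
def S_FCN2 : Prop := ∀ (n d p : ℕ) (f g : Fin n → ℤ[X]), p.Prime → GoodQ p d f g →
  ∀ m : ℤ, m ≠ 0 → ∀ (i : Fin n) (c : ℂ),
  {s : ℂ | vl (g i) s ≠ 0 ∧ vl (f i) s / (m * vl (g i) s) = c}.Finite

/-- JOB PX-FACT. The factors of the denominators. PROOF. `π_t` are the different primitive
irreducible factors of positive degree of `∏ g_i` in the factorial ring `ℤ[X]` (up to sign); each
has a complex root `ρ_t`, simple, not a root of another `π_t'` (irreducible over `ℚ`, separable), so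
`K t i` is the multiplicity of `ρ_t` in `g_i`. For large `p`: `c_i` is prime to `p`, and the Bezout
identities of `π_t` with `π_t'` and with the derivative of `π_t` over `ℚ` (clear denominators) give
the coprimality modulo `p`. -/
def S_FACT : Prop := ∀ (n : ℕ) (g : Fin n → ℤ[X]), (∀ i, g i ≠ 0) →
  (∀ ρ : ℂ, ∃ (a : Fin n) (k : ℕ), ∀ i, i ≠ a →
    ((g i).map (Int.castRingHom ℂ)).rootMultiplicity ρ = k) →
  ∃ (T : ℕ) (π : Fin T → ℤ[X]) (K : Fin T → Fin n → ℕ) (c : Fin n → ℤ), (∀ i, c i ≠ 0) ∧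
    (∀ i, g i = C (c i) * ∏ t, π t ^ K t i) ∧ (∀ t, 0 < (π t).natDegree) ∧
    (∀ t t', t ≠ t' →
      IsCoprime ((π t).map (Int.castRingHom ℚ)) ((π t').map (Int.castRingHom ℚ))) ∧
    (∀ t, ∃ (a : Fin n) (k : ℕ), ∀ i, i ≠ a → K t i = k) ∧
    ∃ Q : ℕ, ∀ p : ℕ, p.Prime → Q < p → (∀ i, ¬ (p : ℤ) ∣ c i) ∧
      (∀ t, IsCoprime (rd p (π t)) (derivative (rd p (π t)))) ∧
      ∀ t t', t ≠ t' → IsCoprime (rd p (π t)) (rd p (π t'))

/-- JOB PX-REV. The chart at infinity. PROOF. Coefficients of `reflect`; `eval₂_reflect_mul_pow` for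
the values; the multiplicity of `ρ ≠ 0` in `reflect d g` is the multiplicity of `ρ⁻¹` in `g` (a
reflection of a product is the product of the reflections, `reflect_mul`, or via the values), and
the multiplicity of zero is `d - natDegree g` (the first nonzero coefficient). -/
def S_REV : Prop := ∀ (d : ℕ) (g : ℤ[X]), g ≠ 0 → g.natDegree ≤ d →
  (reflect d g).natDegree ≤ d ∧ reflect d g ≠ 0 ∧
  (∀ (K : Type) [Field K] (u : K), u ≠ 0 → vl (reflect d g) u⁻¹ * u ^ d = vl g u) ∧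
  (∀ ρ : ℂ, ((reflect d g).map (Int.castRingHom ℂ)).rootMultiplicity ρ =
    if ρ = 0 then d - g.natDegree else (g.map (Int.castRingHom ℂ)).rootMultiplicity ρ⁻¹) ∧
  ∀ a : Fin (d + 1) → ℤ, pol (fun k => a (Fin.rev k)) = reflect d (pol a)

/-- JOB PX-ROOT. Roots of elements which are congruent to almost unramified units. PROOF. `ν` is
congruent modulo `p` to a root of unity `τ` of order prime to `p` (`exists_fixed`, `Nr_gap`), `ω` is
congruent modulo the maximal ideal to a root of unity `ω₀` of order prime to `p` (the residue class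
of `ω` is a root of `X ^ μ - τ̄`, so it is in a finite field; `exists_fixed`); `ω₀ ^ μ = τ`
(`Pool.Agent.Q170.PO.fixed_inj'` in `Pool.Agent.Q170.PO.Loc1`, on main), and for `x = ω / ω₀` we have
`‖x ^ μ - 1‖ = ‖x - 1‖` since `1 + x + … + x ^ (μ - 1)` is congruent to `μ`, a unit. -/
def S_ROOT : Prop := ∀ (C : Type) [NormedField C] [IsUltrametricDist C] [CompleteSpace C]
  [CharZero C] [IsAlgClosed C] (p : ℕ) [Fact p.Prime], 0 < ‖(p : C)‖ → ‖(p : C)‖ < 1 →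
  ∀ μ : ℕ, 0 < μ → μ < p → ∀ ω ν : C, ν ∈ Nr C p → ‖ν‖ = 1 → ∀ δ : ℝ, ‖(p : C)‖ ≤ δ → δ < 1 →
  ‖ω ^ μ - ν‖ ≤ δ → ∃ ω₀ ∈ Nr C p, ‖ω₀‖ = 1 ∧ ‖ω - ω₀‖ ≤ δ

end Pool.Agent.Q170.PO
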