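import Pool.Agent.Q170.PO.Nw
import Pool.Agent.Q170.PO.St2

/-!
# Logarithmic derivatives modulo `p`, second part
-/

set_option autoImplicit false
set_option linter.unusedSectionVars false

open UpperHalfPlane H294ZP Polynomial

namespace Pool.Agent.Q170.PO

open Pool.Agent.Y226 Pool.Agent.Y226.ZG Pool.Agent.Y226.ZM

variable {p : ℕ} [hpf : Fact p.Prime]

theorem rd_pow (P : ℤ[X]) (k : ℕ) : rd p (P ^ k) = rd p P ^ k := by
  unfold rd
  rw [Polynomial.map_pow]

/-- a new factor in the second pair -/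
theorem nw_fac {P Q R S Q₂ : ℤ[X]} (h0 : 0 < (rd p R).natDegree)
    (h1 : IsCoprime (rd p R) (derivative (rd p R))) (h2 : IsCoprime (rd p R) (rd p S))
    (h3 : IsCoprime (rd p R) (rd p Q₂)) (h4 : IsCoprime (rd p R) (rd p P))
    (h5 : IsCoprime (rd p R) (rd p Q)) : NW p P Q (R * S) Q₂ := by
  intro γ h
  simp only [rd_mul, rd_wr, derivative_mul] at h
  have h6 : rd p R ∣ derivative (rd p R) * (rd p S * (rd p Q₂ * (rd p P * rd p Q))) :=
    ⟨rd p S * derivative (rd p Q₂) * (rd p P * rd p Q) -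
      derivative (rd p S) * rd p Q₂ * (rd p P * rd p Q) +
      C γ * ((derivative (rd p P) * rd p Q - rd p P * derivative (rd p Q)) *
        (rd p S * rd p Q₂)), by linear_combination h⟩
  exact not_unit_of_pos h0
    ((h1.mul_right (h2.mul_right (h3.mul_right (h4.mul_right h5)))).isUnit_of_dvd' dvd_rfl h6)

/-- the Wronskian with a power -/
theorem wr_pow_ne {R S Q₂ : ℤ[X]} {α : ℕ} (hα : 0 < α) (hαp : α < p)
    (h0 : 0 < (rd p R).natDegree) (h1 : IsCoprime (rd p R) (derivative (rd p R)))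
    (h2 : IsCoprime (rd p R) (rd p S)) (h3 : IsCoprime (rd p R) (rd p Q₂)) :
    rd p (wr (R ^ α * S) Q₂) ≠ 0 := by
  intro h
  obtain ⟨β, rfl⟩ : ∃ β, α = β + 1 := ⟨α - 1, by omega⟩
  simp only [rd_mul, rd_wr, rd_pow, derivative_mul, derivative_pow, Nat.add_sub_cancel] at h
  have hR0 : rd p R ≠ 0 := by
    intro h4
    rw [h4, natDegree_zero] at h0
    exact lt_irrefl _ h0
  have hα0 : ((β + 1 : ℕ) : ZMod p) ≠ 0 := by
    intro h4
    rw [ZMod.natCast_eq_zero_iff] at h4
    exact absurd (Nat.le_of_dvd (Nat.succ_pos _) h4) (not_le.2 hαp)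
  have h4 : rd p R ^ β * (C ((β + 1 : ℕ) : ZMod p) * (derivative (rd p R) * (rd p S * rd p Q₂)) +
      rd p R * (derivative (rd p S) * rd p Q₂ - rd p S * derivative (rd p Q₂))) = 0 := by
    rw [pow_succ] at h
    linear_combination h
  have h5 := (mul_eq_zero.1 h4).resolve_left (pow_ne_zero _ hR0)
  have h6 : rd p R ∣ C ((β + 1 : ℕ) : ZMod p) * (derivative (rd p R) * (rd p S * rd p Q₂)) :=
    ⟨-(derivative (rd p S) * rd p Q₂ - rd p S * derivative (rd p Q₂)), by linear_combination h5⟩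
  have hu : IsUnit (C ((β + 1 : ℕ) : ZMod p) : (ZMod p)[X]) := by
    rw [isUnit_C]
    exact hα0.isUnit
  rw [hu.dvd_mul_left] at h6
  exact not_unit_of_pos h0 ((h1.mul_right (h2.mul_right h3)).isUnit_of_dvd' dvd_rfl h6)

theorem wr_swap (P Q : ℤ[X]) : rd p (wr P Q) = -rd p (wr Q P) := by
  rw [rd_wr, rd_wr]
  ring

/-- an old factor of the first pair which is not in the second pair -/
theorem nw_old {R S Q P₂ Q₂ : ℤ[X]} (h0 : 0 < (rd p R).natDegree)
    (h1 : IsCoprime (rd p R) (derivative (rd p R))) (h2 : IsCoprime (rd p R) (rd p S))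
    (h3 : IsCoprime (rd p R) (rd p Q)) (h4 : IsCoprime (rd p R) (rd p P₂))
    (h5 : IsCoprime (rd p R) (rd p Q₂)) (hw : rd p (wr P₂ Q₂) ≠ 0) (hS : rd p S ≠ 0)
    (hQ : rd p Q ≠ 0) : NW p (R * S) Q P₂ Q₂ := by
  intro γ h
  have hR0 : rd p R ≠ 0 := by
    intro h6
    rw [h6, natDegree_zero] at h0
    exact lt_irrefl _ h0
  rw [rd_mul, rd_mul, rd_mul, rd_mul] at h
  by_cases hγ : γ = 0
  · rw [hγ, C_0, zero_mul, sub_zero] at h
    rcases mul_eq_zero.1 h with h6 | h6
    · exact hw h6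
    · rcases mul_eq_zero.1 h6 with h7 | h7
      · exact (mul_ne_zero hR0 hS) h7
      · exact hQ h7
  · simp only [rd_mul, rd_wr, derivative_mul] at h
    have h6 : rd p R ∣ C γ * (derivative (rd p R) * (rd p S * (rd p Q * (rd p P₂ * rd p Q₂)))) :=
      ⟨(derivative (rd p P₂) * rd p Q₂ - rd p P₂ * derivative (rd p Q₂)) * (rd p S * rd p Q) -
        C γ * ((derivative (rd p S) * rd p Q - rd p S * derivative (rd p Q)) *
          (rd p P₂ * rd p Q₂)), by linear_combination -h⟩
    have hu : IsUnit (C γ : (ZMod p)[X]) := by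
      rw [isUnit_C]
      exact (Ne.isUnit hγ)
    rw [hu.dvd_mul_left] at h6
    exact not_unit_of_pos h0
      ((h1.mul_right (h2.mul_right (h3.mul_right (h4.mul_right h5)))).isUnit_of_dvd' dvd_rfl h6)

/-- general position of the `f_i` and of the local denominators `H_i` -/
structure GoodH (p d : ℕ) {n : ℕ} (f H : Fin n → ℤ[X]) : Prop where
  degf : ∀ i, (f i).natDegree ≤ d
  degH : ∀ i, (H i).natDegree ≤ d
  pos : ∀ i, 0 < (rd p (f i)).natDegree
  sep : ∀ i, IsCoprime (rd p (f i)) (derivative (rd p (f i)))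
  cop : ∀ i j, i ≠ j → IsCoprime (rd p (f i)) (rd p (f j))
  copH : ∀ i j, IsCoprime (rd p (f i)) (rd p (H j))

section good

variable {d n : ℕ} {f H : Fin n → ℤ[X]} (h : GoodH p d f H)

include h

theorem GoodH.f0 (i : Fin n) : rd p (f i) ≠ 0 := by
  intro h1
  have h0 := h.pos i
  rw [h1, natDegree_zero] at h0
  exact lt_irrefl _ h0

theorem GoodH.H0 (i : Fin n) : rd p (H i) ≠ 0 := by
  intro h1
  have h2 := h.copH i i
  rw [h1, isCoprime_zero_right] at h2
  exact not_unit_of_pos (h.pos i) h2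

theorem GoodH.deg (i j : Fin n) : (f i * H j).natDegree ≤ 2 * d := by
  refine natDegree_mul_le.trans ?_
  have := h.degf i
  have := h.degH j
  omega

theorem GoodH.wr_ne {j l : Fin n} (hjl : j ≠ l) : rd p (wr (f l * H j) (f j * H l)) ≠ 0 := by
  have := wr_pow_ne (p := p) (R := f l) (S := H j) (Q₂ := f j * H l) one_pos hpf.out.one_lt
    (h.pos l) (h.sep l) (h.copH l j) (by
      rw [rd_mul]
      exact (h.cop l j hjl.symm).mul_right (h.copH l l))
  rwa [pow_one] at this

theorem GoodH.nw_new {j l j' l' : Fin n} (hjl' : j' ≠ l') (h1 : l' ≠ j) (h2 : l' ≠ l) :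
    NW p (f l * H j) (f j * H l) (f l' * H j') (f j' * H l') := by
  refine nw_fac (h.pos l') (h.sep l') (h.copH l' j') ?_ ?_ ?_
  · rw [rd_mul]
    exact (h.cop l' j' hjl'.symm).mul_right (h.copH l' l')
  · rw [rd_mul]
    exact (h.cop l' l h2).mul_right (h.copH l' j)
  · rw [rd_mul]
    exact (h.cop l' j h1).mul_right (h.copH l' l)

theorem GoodH.nw_pair {j l j' l' : Fin n} (hjl : j ≠ l) (hjl' : j' ≠ l')
    (hne : ¬ ((j = j' ∧ l = l') ∨ (j = l' ∧ l = j'))) :
    NW p (f l * H j) (f j * H l) (f l' * H j') (f j' * H l') := by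
  by_cases h1 : l' ≠ j ∧ l' ≠ l
  · exact h.nw_new hjl' h1.1 h1.2
  · have h2 : j' ≠ j ∧ j' ≠ l := by
      constructor
      · rintro rfl
        apply h1
        refine ⟨hjl'.symm, ?_⟩
        rintro rfl
        exact hne (Or.inl ⟨rfl, rfl⟩)
      · rintro rfl
        apply h1
        refine ⟨?_, hjl'.symm⟩
        rintro rfl
        exact hne (Or.inr ⟨rfl, rfl⟩)
    exact (h.nw_new hjl'.symm h2.1 h2.2).swap₂

/-- the pair of an exceptional coordinate -/
theorem GoodH.nw_exc {j l a l' : Fin n} (hjl : j ≠ l) (haj : a ≠ j) (hal : a ≠ l) (hal' : a ≠ l')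
    {α β : ℕ} (hαp : α < p) (hβp : β < p) (hαβ : 0 < α ∨ 0 < β) :
    NW p (f l * H j) (f j * H l) (f a ^ α * H l' ^ β) (H a ^ α * f l' ^ β) := by
  have hw : rd p (wr (f a ^ α * H l' ^ β) (H a ^ α * f l' ^ β)) ≠ 0 := by
    by_cases hα : 0 < α
    · refine wr_pow_ne hα hαp (h.pos a) (h.sep a) ?_ ?_
      · rw [rd_pow]
        exact (h.copH a l').pow_right
      · rw [rd_mul, rd_pow, rd_pow]
        exact ((h.copH a a).pow_right).mul_right ((h.cop a l' hal').pow_right)
    · have hα0 : α = 0 := by omega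
      have hβ : 0 < β := by omega
      rw [hα0, pow_zero, pow_zero, one_mul, one_mul, wr_swap, neg_ne_zero]
      have := wr_pow_ne (p := p) (R := f l') (S := 1) (Q₂ := H l' ^ β) hβ hβp (h.pos l') (h.sep l')
        (by
          unfold rd
          rw [Polynomial.map_one]
          exact isCoprime_one_right) (by
          rw [rd_pow]
          exact (h.copH l' l').pow_right)
      rwa [mul_one] at this
  have hf0 : ∀ i k, rd p (f i * H k) ≠ 0 := fun i k => by
    rw [rd_mul]
    exact mul_ne_zero (h.f0 i) (h.H0 k)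
  by_cases hll : l = l'
  · -- use `f j`
    refine NW.swap₁ (nw_old (h.pos j) (h.sep j) (h.copH j l) ?_ ?_ ?_ hw (h.H0 l) (hf0 l j))
    · rw [rd_mul]
      exact (h.cop j l hjl).mul_right (h.copH j j)
    · rw [rd_mul, rd_pow, rd_pow]
      exact ((h.cop j a haj.symm).pow_right).mul_right ((h.copH j l').pow_right)
    · rw [rd_mul, rd_pow, rd_pow]
      exact ((h.copH j a).pow_right).mul_right ((h.cop j l' (hll ▸ hjl)).pow_right)
  · refine nw_old (h.pos l) (h.sep l) (h.copH l j) ?_ ?_ ?_ hw (h.H0 j) (hf0 j l)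
    · rw [rd_mul]
      exact (h.cop l j hjl.symm).mul_right (h.copH l l)
    · rw [rd_mul, rd_pow, rd_pow]
      exact ((h.cop l a hal.symm).pow_right).mul_right ((h.copH l l').pow_right)
    · rw [rd_mul, rd_pow, rd_pow]
      exact ((h.copH l a).pow_right).mul_right ((h.cop l l' hll).pow_right)

end good

end Pool.Agent.Q170.PO
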