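import Pool.Agent.Q170.PO.Px9
import Pool.Agent.Q285.PO.Fact
import Pool.Agent.Q285.PO.Rev
import Pool.Agent.Q285.PO.Root
import Pool.Agent.Q261.PO.GEN2
import Pool.Agent.Q257.PO.Wild
import Pool.Agent.Q257.PO.Pair

/-!
# The information at one place, both charts
-/

set_option autoImplicit false
set_option linter.unusedSectionVars false

open UpperHalfPlane H294ZP Polynomial

namespace Pool.Agent.Q170.PO

open Pool.Agent.Y226 Pool.Agent.Y226.ZG Pool.Agent.Y226.ZM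
open Pool.Agent.Q170.UZ (Iso PC)

/-- the orders of the poles agree with at most one exception -/
structure Poles (d : ℕ) {n : ℕ} (g : Fin n → ℤ[X]) : Prop where
  g0 : ∀ i, g i ≠ 0
  deg : ∀ i, (g i).natDegree ≤ d
  fin : ∀ ρ : ℂ, ∃ (a : Fin n) (k : ℕ), ∀ i, i ≠ a →
    ((g i).map (Int.castRingHom ℂ)).rootMultiplicity ρ = k
  inf : ∃ (a : Fin n) (k : ℕ), ∀ i, i ≠ a → d - (g i).natDegree = k

/-- the reflected denominators -/
theorem Poles.refl {d n : ℕ} {g : Fin n → ℤ[X]} (h : Poles d g) :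
    Poles d (fun i => reflect d (g i)) := by
  have hR := fun i => Pool.Agent.Q285.PO.rev d (g i) (h.g0 i) (h.deg i)
  refine ⟨fun i => (hR i).2.1, fun i => (hR i).1, fun ρ => ?_, ?_⟩
  · by_cases h0 : ρ = 0
    · obtain ⟨a, k, hk⟩ := h.inf
      refine ⟨a, k, fun i hi => ?_⟩
      rw [(hR i).2.2.2.1 ρ, if_pos h0, hk i hi]
    · obtain ⟨a, k, hk⟩ := h.fin ρ⁻¹
      refine ⟨a, k, fun i hi => ?_⟩
      rw [(hR i).2.2.2.1 ρ, if_neg h0, hk i hi]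
  · obtain ⟨a, k, hk⟩ := h.fin 0
    refine ⟨a, k, fun i hi => ?_⟩
    have h1 := Pool.Agent.Q285.PO.rev d (reflect d (g i)) (hR i).2.1 (hR i).1
    have h2 := h1.2.2.2.1 0
    rw [if_pos rfl, reflect_reflect] at h2
    exact h2.symm.trans (hk i hi)

/-- the conditions for one chart -/
def CH (p d M : ℕ) {n : ℕ} (f g : Fin n → ℤ[X]) : Prop :=
  ∃ (T : ℕ) (π : Fin T → ℤ[X]) (K : Fin T → Fin n → ℕ) (c : Fin n → ℤ), Fac d g π K c ∧
    FacP p π c ∧ GoodQ p d f g ∧ NoRelQ p M f g π K c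

theorem stage1 (n d : ℕ) (hd : 0 < d) (g : Fin n → ℤ[X]) (h : Poles d g) (M : ℕ) (hM : 0 < M) :
    ∃ (Q : ℕ) (E : MvPolynomial (Fin n × Fin (d + 1)) ℤ), E ≠ 0 ∧
    ∀ (p : ℕ), p.Prime → Q < p →
    ∀ a : Fin n → Fin (d + 1) → ℤ, ¬ (p : ℤ) ∣ MvPolynomial.eval (fun q => a q.1 q.2) E →
      CH p d M (fun i => pol (a i)) g := by
  obtain ⟨T, π, K, c, hc, hgK, hpos, hcop, hexc, Q₁, hQ₁⟩ := Pool.Agent.Q285.PO.fact n g h.g0 h.fin
  obtain ⟨Q₂, E, hE, hQ₂⟩ := Pool.Agent.Q261.PO.gen2 n d hd g h.g0 T π K c hc hgK hpos hcop M hM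
  refine ⟨max Q₁ Q₂, E, hE, fun p hp hQ a ha => ?_⟩
  obtain ⟨h1, h2, h3⟩ := hQ₁ p hp (lt_of_le_of_lt (le_max_left _ _) hQ)
  obtain ⟨h4, h5⟩ := hQ₂ p hp (lt_of_le_of_lt (le_max_right _ _) hQ) a ha
  exact ⟨T, π, K, c, ⟨h.g0, h.deg, hc, hgK, hpos, hexc⟩, ⟨h1, h2, h3⟩, h4, h5⟩

theorem stage2 (n d : ℕ) (hd : 0 < d) (g : Fin n → ℤ[X]) (h : Poles d g) (M : ℕ) (hM : 0 < M) :
    ∃ (Q : ℕ) (E : MvPolynomial (Fin n × Fin (d + 1)) ℤ), E ≠ 0 ∧
    ∀ (p : ℕ), p.Prime → Q < p →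
    ∀ a : Fin n → Fin (d + 1) → ℤ, ¬ (p : ℤ) ∣ MvPolynomial.eval (fun q => a q.1 q.2) E →
      CH p d M (fun i => reflect d (pol (a i))) (fun i => reflect d (g i)) := by
  obtain ⟨Q, E, hE, hQ⟩ := stage1 n d hd _ h.refl M hM
  have hinj : Function.Injective
      (fun q : Fin n × Fin (d + 1) => ((q.1, Fin.rev q.2) : Fin n × Fin (d + 1))) := by
    rintro ⟨i, k⟩ ⟨i', k'⟩ h
    simp only [Prod.mk.injEq, Fin.rev_inj] at h
    exact Prod.ext h.1 h.2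
  refine ⟨Q, MvPolynomial.rename (fun q => (q.1, Fin.rev q.2)) E, ?_, fun p hp hQp a ha => ?_⟩
  · intro h0
    exact hE (MvPolynomial.rename_injective _ hinj (h0.trans (map_zero _).symm))
  · rw [MvPolynomial.eval_rename] at ha
    have h1 := hQ p hp hQp (fun i k => a i (Fin.rev k)) ha
    have h2 : (fun i => pol (fun k => a i (Fin.rev k))) = fun i => reflect d (pol (a i)) :=
      funext fun i => (Pool.Agent.Q285.PO.rev d 1 one_ne_zero (by simp)).2.2.2.2 (a i)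
    rw [h2] at h1
    exact h1

/-- the conditions for both charts -/
theorem stage (n d : ℕ) (hd : 0 < d) (g : Fin n → ℤ[X]) (h : Poles d g) (M : ℕ) (hM : 0 < M) :
    ∃ (Q : ℕ) (E : MvPolynomial (Fin n × Fin (d + 1)) ℤ), E ≠ 0 ∧
    ∀ (p : ℕ), p.Prime → Q < p →
    ∀ a : Fin n → Fin (d + 1) → ℤ, ¬ (p : ℤ) ∣ MvPolynomial.eval (fun q => a q.1 q.2) E →
      CH p d M (fun i => pol (a i)) g ∧
      CH p d M (fun i => reflect d (pol (a i))) (fun i => reflect d (g i)) := by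
  obtain ⟨Q₁, E₁, h₁, H₁⟩ := stage1 n d hd g h M hM
  obtain ⟨Q₂, E₂, h₂, H₂⟩ := stage2 n d hd g h M hM
  refine ⟨max Q₁ Q₂, E₁ * E₂, mul_ne_zero h₁ h₂, fun p hp hQ a ha => ?_⟩
  rw [map_mul] at ha
  exact ⟨H₁ p hp (lt_of_le_of_lt (le_max_left _ _) hQ) a fun h => ha (h.mul_right _),
    H₂ p hp (lt_of_le_of_lt (le_max_right _ _) hQ) a fun h => ha (h.mul_left _)⟩

/-- the information at one place -/
theorem place {C : Type} [NormedField C] [IsUltrametricDist C] [CompleteSpace C] [CharZero C]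
    [IsAlgClosed C] {p d n : ℕ} [hpf : Fact p.Prime] {φ : QA →+* C} (hp0 : 0 < ‖(p : C)‖)
    (hp1 : ‖(p : C)‖ < 1) (hd : 0 < d) (hbig : Big p d) {f g : Fin n → ℤ[X]} {e : Fin n → ℕ}
    (hfe : ∀ i, (f i).natDegree ≤ e i) (hge : ∀ i, (g i).natDegree ≤ e i)
    {G' B : ℕ} (h₁ : CH p d (G' * G').factorial f g)
    (h₂ : CH p d (G' * G').factorial (fun i => reflect (e i) (f i))
      (fun i => reflect (e i) (g i)))
    (hB0 : 0 < B) (hB : TB2 p (6 * d) B) {m : ℤ} (hm : m ≠ 0) (hpm : (p : ℤ) ∣ m) {Γ : Set ℂ}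
    (hΓ : ∀ γ ∈ Γ, ∃ c : QA, rA c = γ ∧ ‖φ c‖ ≤ 1) {s : QA} (hs : ∀ i, vl (g i) s ≠ 0)
    {r : ℕ} (hr : r + 2 ≤ n) (Z : SV Γ n r)
    (hZ : (fun i => rA (vl (f i) s / (m * vl (g i) s))) ∈ Z.locus) :
    ∃ bad : Fin n → Prop, PC Z.cls (GB p d B) G'
      (fun i => rA (vl (f i) s / (m * vl (g i) s))) bad := by
  by_cases hu : ‖φ s‖ ≤ 1
  · obtain ⟨T, π, K, c, hfac, hfacP, hgood, hrel⟩ := h₁
    have R : Chart p d (G' * G').factorial φ f g π K c m s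
        (fun i => vl (f i) s / (m * vl (g i) s)) :=
      ⟨hp0, hp1, hd, hbig, hfac, hfacP, hgood, hrel, hm, hpm, hu, hs, fun i => rfl⟩
    exact R.pc rfl Pool.Agent.Q257.PO.pair Pool.Agent.Q257.PO.near Pool.Agent.Q257.PO.wild
      Pool.Agent.Q285.PO.root hB0 hB hΓ hr Z hZ
  · have hs0 : s ≠ 0 := by
      rintro rfl
      exact hu (by rw [map_zero, norm_zero]; exact zero_le_one)
    have hu' : ‖φ s⁻¹‖ ≤ 1 := by
      rw [map_inv₀, norm_inv]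
      exact inv_le_one_of_one_le₀ (le_of_lt (not_le.1 hu))
    have hv : ∀ (i : Fin n) (P : ℤ[X]), P ≠ 0 → P.natDegree ≤ e i →
        vl (reflect (e i) P) s⁻¹ * s ^ e i = vl P s :=
      fun i P hP0 hPd => (Pool.Agent.Q285.PO.rev (e i) P hP0 hPd).2.2.1 QA s hs0
    obtain ⟨T, π, K, c, hfac, hfacP, hgood, hrel⟩ := h₁
    obtain ⟨T', π', K', c', hfac', hfacP', hgood', hrel'⟩ := h₂
    have hf0 : ∀ i, f i ≠ 0 := by
      intro i h0
      have := hgood.pos i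
      unfold rd at this
      rw [h0, Polynomial.map_zero, natDegree_zero] at this
      exact lt_irrefl _ this
    have hX : ∀ i, vl (f i) s / (m * vl (g i) s) =
        vl (reflect (e i) (f i)) s⁻¹ / (m * vl (reflect (e i) (g i)) s⁻¹) := by
      intro i
      rw [← hv i _ (hf0 i) (hfe i), ← hv i _ (hfac.g0 i) (hge i)]
      have h1 : s ^ e i ≠ 0 := pow_ne_zero _ hs0
      rw [← mul_assoc, mul_div_mul_right _ _ h1]
    have R : Chart p d (G' * G').factorial φ (fun i => reflect (e i) (f i))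
        (fun i => reflect (e i) (g i)) π' K' c' m s⁻¹
        (fun i => vl (f i) s / (m * vl (g i) s)) := by
      refine ⟨hp0, hp1, hd, hbig, hfac', hfacP', hgood', hrel', hm, hpm, hu', fun i h0 => ?_, hX⟩
      apply hs i
      rw [← hv i _ (hfac.g0 i) (hge i), h0, zero_mul]
    exact R.pc rfl Pool.Agent.Q257.PO.pair Pool.Agent.Q257.PO.near Pool.Agent.Q257.PO.wild
      Pool.Agent.Q285.PO.root hB0 hB hΓ hr Z hZ

/-- the information at one place, point at infinity -/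
theorem placeInf {C : Type} [NormedField C] [IsUltrametricDist C] [CompleteSpace C] [CharZero C]
    [IsAlgClosed C] {p d n : ℕ} [hpf : Fact p.Prime] {φ : QA →+* C} (hp0 : 0 < ‖(p : C)‖)
    (hp1 : ‖(p : C)‖ < 1) (hd : 0 < d) (hbig : Big p d) {f g : Fin n → ℤ[X]}
    {G' B : ℕ} (h₂ : CH p d (G' * G').factorial f g)
    (hB0 : 0 < B) (hB : TB2 p (6 * d) B) {m : ℤ} (hm : m ≠ 0) (hpm : (p : ℤ) ∣ m) {Γ : Set ℂ}
    (hΓ : ∀ γ ∈ Γ, ∃ c : QA, rA c = γ ∧ ‖φ c‖ ≤ 1) (hs : ∀ i, vl (g i) (0 : QA) ≠ 0)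
    {r : ℕ} (hr : r + 2 ≤ n) (Z : SV Γ n r)
    (hZ : (fun i => rA (vl (f i) 0 / (m * vl (g i) 0))) ∈ Z.locus) :
    ∃ bad : Fin n → Prop, PC Z.cls (GB p d B) G'
      (fun i => rA (vl (f i) 0 / (m * vl (g i) 0))) bad := by
  obtain ⟨T', π', K', c', hfac', hfacP', hgood', hrel'⟩ := h₂
  have R : Chart p d (G' * G').factorial φ f g π' K' c' m 0
      (fun i => vl (f i) 0 / (m * vl (g i) 0)) := by
    refine ⟨hp0, hp1, hd, hbig, hfac', hfacP', hgood', hrel', hm, hpm, ?_, hs, fun i => rfl⟩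
    rw [map_zero, norm_zero]
    exact zero_le_one
  exact R.pc rfl Pool.Agent.Q257.PO.pair Pool.Agent.Q257.PO.near Pool.Agent.Q257.PO.wild
    Pool.Agent.Q285.PO.root hB0 hB hΓ hr Z hZ

end Pool.Agent.Q170.PO
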