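import Pool.Agent.Q170.PO.Px10
import Pool.Agent.Q26.PO.FPS2
import Pool.Agent.Q26.PO.FCN2
import Pool.Agent.Q210.PO.Tame2
import Pool.Agent.Q170.UZ.Crit3

/-!
# The criterion with three primes
-/

set_option autoImplicit false
set_option linter.unusedSectionVars false

open UpperHalfPlane H294ZP Polynomial

namespace Pool.Agent.Q170.PO

open Pool.Agent.Y226 Pool.Agent.Y226.ZG Pool.Agent.Y226.ZM
open Pool.Agent.Q170.UZ (Iso PC)

/-- the value at `(s, t)` of the form of degree `e` with the coefficients of `P` -/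
noncomputable def hfm (e : ℕ) (P : ℤ[X]) (s t : ℂ) : ℂ :=
  ∑ k ∈ Finset.range (e + 1), (P.coeff k : ℂ) * s ^ k * t ^ (e - k)

/-- the curve -/
def crv (m : ℤ) {n : ℕ} (e : Fin n → ℕ) (f g : Fin n → ℤ[X]) : Set (Fin n → ℂ) :=
  {x | ∃ s t : ℂ, (s ≠ 0 ∨ t ≠ 0) ∧ (∀ i, hfm (e i) (g i) s t ≠ 0) ∧
    ∀ i, x i = hfm (e i) (f i) s t / (m * hfm (e i) (g i) s t)}

theorem hfm_ne {e : ℕ} {P : ℤ[X]} (hP : P.natDegree ≤ e) {s t : ℂ} (ht : t ≠ 0) :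
    hfm e P s t = t ^ e * vl P (s / t) := by
  unfold hfm vl
  rw [eval₂_eq_sum_range' _ (Nat.lt_succ_of_le hP), Finset.mul_sum]
  refine Finset.sum_congr rfl fun k hk => ?_
  have h1 : k ≤ e := Nat.lt_succ_iff.1 (Finset.mem_range.1 hk)
  have h2 : t ^ e = t ^ k * t ^ (e - k) := by rw [← pow_add, Nat.add_sub_cancel' h1]
  rw [h2, div_pow, eq_intCast]
  field_simp

theorem hfm_zero (e : ℕ) (P : ℤ[X]) (s : ℂ) :
    hfm e P s 0 = P.coeff e * s ^ e := by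
  unfold hfm
  rw [Finset.sum_range_succ, Nat.sub_self, pow_zero, mul_one, add_eq_right]
  refine Finset.sum_eq_zero fun k hk => ?_
  have h1 : k < e := Finset.mem_range.1 hk
  rw [zero_pow (by omega), mul_zero]

theorem vl_reflect_zero {R : Type*} [CommRing R] (e : ℕ) (P : ℤ[X]) :
    vl (reflect e P) (0 : R) = P.coeff e := by
  unfold vl
  rw [eval₂_at_zero, coeff_reflect, revAt_le (Nat.zero_le e), Nat.sub_zero]
  rfl

theorem crv_cases {m : ℤ} {n : ℕ} {e : Fin n → ℕ} {f g : Fin n → ℤ[X]}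
    (hfe : ∀ i, (f i).natDegree ≤ e i) (hge : ∀ i, (g i).natDegree ≤ e i) {x : Fin n → ℂ}
    (hx : x ∈ crv m e f g) :
    (∃ s : ℂ, (∀ i, vl (g i) s ≠ 0) ∧ x = fun i => vl (f i) s / (m * vl (g i) s)) ∨
    ((∀ i, vl (reflect (e i) (g i)) (0 : ℂ) ≠ 0) ∧ x = fun i =>
      vl (reflect (e i) (f i)) (0 : ℂ) / (m * vl (reflect (e i) (g i)) (0 : ℂ))) := by
  obtain ⟨s, t, hst, hg, hx⟩ := hx
  by_cases ht : t = 0
  · right
    subst ht
    have hs : s ≠ 0 := hst.resolve_right fun h => h rfl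
    have h1 : ∀ i, vl (reflect (e i) (g i)) (0 : ℂ) ≠ 0 := by
      intro i h0
      apply hg i
      rw [hfm_zero, ← vl_reflect_zero, h0, zero_mul]
    refine ⟨h1, funext fun i => ?_⟩
    rw [hx, hfm_zero, hfm_zero, vl_reflect_zero, vl_reflect_zero]
    have h2 : s ^ e i ≠ 0 := pow_ne_zero _ hs
    rw [← mul_assoc, mul_div_mul_right _ _ h2]
  · left
    refine ⟨s / t, fun i h0 => hg i ?_, funext fun i => ?_⟩
    · rw [hfm_ne (hge i) ht, h0, mul_zero]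
    · rw [hx, hfm_ne (hge i) ht, hfm_ne (hfe i) ht]
      have h2 : t ^ e i ≠ 0 := pow_ne_zero _ ht
      rw [mul_left_comm, mul_div_mul_left _ _ h2]

theorem root_QA {H : QA[X]} (hH : H ≠ 0) {s : ℂ} (h : (H.map rA).eval s = 0) :
    ∃ s' : QA, rA s' = s := by
  have h1 : IsAlgebraic QA s := ⟨H, hH, by
    rw [aeval_def, ← eval_map]
    exact h⟩
  have h2 : IsIntegral QA s := h1.isIntegral
  obtain ⟨y, hy⟩ := minpoly.mem_range_of_degree_eq_one QA s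
    (IsAlgClosed.degree_eq_one_of_irreducible QA (minpoly.irreducible h2))
  exact ⟨y, hy⟩

theorem const_QA {Γ : Set ℂ} (hΓ : ∀ γ ∈ Γ, ∃ c : QA, rA c = γ) {x : ℂ}
    (hx : IsIntegral (Algebra.adjoin ℤ Γ) x) : ∃ c : QA, rA c = x := by
  have h1 : ∀ z ∈ Algebra.adjoin ℤ Γ, ∃ c : QA, rA c = z := by
    intro z hz
    refine Algebra.adjoin_induction (p := fun z _ => ∃ c : QA, rA c = z) ?_ ?_ ?_ ?_ hz
    · exact hΓ
    · intro r
      exact ⟨(r : QA), by simp⟩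
    · rintro x y - - ⟨c, rfl⟩ ⟨d, rfl⟩
      exact ⟨c + d, map_add _ _ _⟩
    · rintro x y - - ⟨c, rfl⟩ ⟨d, rfl⟩
      exact ⟨c * d, map_mul _ _ _⟩
  choose c hc using h1
  let G : Algebra.adjoin ℤ Γ →+* QA :=
    { toFun := fun z => c z z.2
      map_one' := rA.injective (by rw [hc, map_one]; rfl)
      map_mul' := fun x y => rA.injective (by rw [map_mul, hc, hc, hc]; rfl)
      map_zero' := rA.injective (by rw [hc, map_zero]; rfl)
      map_add' := fun x y => rA.injective (by rw [map_add, hc, hc, hc]; rfl) }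
  obtain ⟨P, hP, hPx⟩ := hx
  have h2 : (P.map G) ≠ 0 := (hP.map G).ne_zero
  refine root_QA h2 ?_
  rw [eval_map, eval₂_map]
  have h3 : rA.comp G = algebraMap (Algebra.adjoin ℤ Γ) ℂ := by
    ext z
    exact hc z z.2
  rw [h3]
  exact hPx

section

variable {n d p : ℕ} {f g : Fin n → ℤ[X]} (hp : p.Prime) (hG : GoodQ p d f g) {m : ℤ}
  (hm : m ≠ 0) (hpm : (p : ℤ) ∣ m)

include hp hG hm hpm

theorem pair_root {Γ : Set ℂ} {r : ℕ} (Z : SV Γ n r) {j l : Fin n} (hjl : j ≠ l) {k : Fin r}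
    (hj : Z.cls j = some k) (hl : Z.cls l = some k) :
    ∃ H : QA[X], H ≠ 0 ∧ ∀ s : ℂ, (∀ i, vl (g i) s ≠ 0) →
      (fun i => vl (f i) s / (m * vl (g i) s)) ∈ Z.locus → (H.map rA).eval s = 0 := by
  obtain ⟨a, b, c, e, hdet, hrel⟩ := Z.rel_unif hl hj
  have hN : 0 < (a * e - b * c).toNat := by omega
  have hN' : ((a * e - b * c).toNat : ℤ) = a * e - b * c := Int.toNat_of_nonneg hdet.le
  obtain ⟨H, hH, hs⟩ := Pool.Agent.Q26.PO.fps2 n d p f g hp hG m hm hpm j l hjl _ hN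
  refine ⟨H, hH, fun s h0 hZ => hs s (h0 j) (h0 l) ?_⟩
  obtain ⟨w, w', h1, h2, h3⟩ := hrel _ hZ
  obtain ⟨_, _, _, _, _, _, _, _, _, _, h5⟩ := modular_spec _ hN
  have h6 := h5 w w' a b c e hN'.symm h1
  rw [← h2, ← h3] at h6
  exact h6

/-- the points of the curve on a proper special subvariety -/
theorem glob {Γ : Set ℂ} {r : ℕ} (hr : r < n) (Z : SV Γ n r) (hg0 : ∀ i, g i ≠ 0) :
    {s : ℂ | (∀ i, vl (g i) s ≠ 0) ∧
      (fun i => vl (f i) s / (m * vl (g i) s)) ∈ Z.locus}.Finite ∧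
    ((∀ γ ∈ Γ, ∃ c : QA, rA c = γ) → ∀ s : ℂ, (∀ i, vl (g i) s ≠ 0) →
      (fun i => vl (f i) s / (m * vl (g i) s)) ∈ Z.locus → ∃ s' : QA, rA s' = s) := by
  by_cases hnone : ∃ i, Z.cls i = none
  · obtain ⟨i, hi⟩ := hnone
    have hfin := Pool.Agent.Q26.PO.fcn2 n d p f g hp hG m hm i (Z.const i)
    have hval : ∀ s : ℂ, (fun i => vl (f i) s / (m * vl (g i) s)) ∈ Z.locus →
        vl (f i) s / (m * vl (g i) s) = Z.const i := by
      rintro s ⟨z, hz⟩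
      exact (hz i).1 hi
    refine ⟨hfin.subset fun s hs => ⟨hs.1 i, hval s hs.2⟩, fun hΓ s hs hZ => ?_⟩
    obtain ⟨c, hc⟩ := const_QA hΓ (Z.int i)
    have hev : ∀ s : ℂ, (((f i).map (Int.castRingHom QA) - C (c * m) *
        (g i).map (Int.castRingHom QA)).map rA).eval s =
        vl (f i) s - Z.const i * m * vl (g i) s := by
      intro s
      rw [Polynomial.map_sub, Polynomial.map_mul, Polynomial.map_map, Polynomial.map_map, map_C,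
        eval_sub, eval_mul, eval_C, map_mul, hc, map_intCast, eval_map, eval_map,
        int_hom (rA.comp _) (Int.castRingHom ℂ)]
      rfl
    have hm' : (m : ℂ) ≠ 0 := Int.cast_ne_zero.2 hm
    refine root_QA (H := (f i).map (Int.castRingHom QA) - C (c * m) *
      (g i).map (Int.castRingHom QA)) ?_ ?_
    · intro h0
      have h1 : {s : ℂ | vl (g i) s ≠ 0} ⊆
          {s : ℂ | vl (g i) s ≠ 0 ∧ vl (f i) s / (m * vl (g i) s) = Z.const i} := by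
        intro s hs
        refine ⟨hs, ?_⟩
        have h2 := hev s
        rw [h0, Polynomial.map_zero, eval_zero] at h2
        rw [div_eq_iff (mul_ne_zero hm' hs)]
        linear_combination -h2
      have h3 : {s : ℂ | vl (g i) s = 0}.Finite := by
        have h4 : (g i).map (Int.castRingHom ℂ) ≠ 0 := by
          rw [Ne, Polynomial.map_eq_zero_iff (RingHom.injective_int _)]
          exact hg0 i
        refine (((g i).map (Int.castRingHom ℂ)).roots.toFinset.finite_toSet).subset ?_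
        intro s hs
        rw [Finset.mem_coe, Multiset.mem_toFinset, mem_roots h4, IsRoot.def, eval_map]
        exact hs
      have h5 : (Set.univ : Set ℂ) ⊆ {s : ℂ | vl (g i) s = 0} ∪
          {s : ℂ | vl (g i) s ≠ 0 ∧ vl (f i) s / (m * vl (g i) s) = Z.const i} := by
        intro s _
        by_cases hs : vl (g i) s = 0
        · exact Or.inl hs
        · exact Or.inr (h1 hs)
      exact Set.infinite_univ ((h3.union hfin).subset h5)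
    · rw [hev]
      have h2 := hval s hZ
      rw [div_eq_iff (mul_ne_zero hm' (hs i))] at h2
      rw [h2]
      ring
  · push Not at hnone
    choose c hc using fun i => Option.ne_none_iff_exists'.1 (hnone i)
    obtain ⟨j, l, hjl, hcjl⟩ := Fintype.exists_ne_map_eq_of_card_lt c (by simpa using hr)
    obtain ⟨H, hH, hs⟩ := pair_root hp hG hm hpm Z hjl (hc j) (by rw [hc l, ← hcjl])
    refine ⟨?_, fun _ s h1 h2 => root_QA hH (hs s h1 h2)⟩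
    have h4 : H.map rA ≠ 0 := by
      rw [Ne, Polynomial.map_eq_zero_iff rA.injective]
      exact hH
    refine ((H.map rA).roots.toFinset.finite_toSet).subset ?_
    rintro s ⟨h1, h2⟩
    rw [Finset.mem_coe, Multiset.mem_toFinset, mem_roots h4, IsRoot.def]
    exact hs s h1 h2

end

/-- the numbers in `Γ` are integral at a place above `p` -/
def Adm (Γ : Set ℂ) (p : ℕ) : Prop :=
  ∃ (C : Type) (_ : NormedField C) (_ : IsUltrametricDist C) (_ : CompleteSpace C)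
    (_ : CharZero C) (_ : IsAlgClosed C) (φ : QA →+* C), ‖(p : C)‖ = (p : ℝ)⁻¹ ∧
    ∀ γ ∈ Γ, ∃ c : QA, rA c = γ ∧ ‖φ c‖ ≤ 1

/-- One prime number. -/
theorem onePrime {p d n : ℕ} (hp : p.Prime) (hd : 0 < d) (hbig : Big p d) {f g : Fin n → ℤ[X]}
    {e : Fin n → ℕ} (hfe : ∀ i, (f i).natDegree ≤ e i) (hge : ∀ i, (g i).natDegree ≤ e i)
    {G' B : ℕ} (h₁ : CH p d (G' * G').factorial f g)
    (h₂ : CH p d (G' * G').factorial (fun i => reflect (e i) (f i))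
      (fun i => reflect (e i) (g i)))
    (hB0 : 0 < B) (hB : TB2 p (6 * d) B) {m : ℤ} (hm : m ≠ 0) (hpm : (p : ℤ) ∣ m) {Γ : Set ℂ}
    (hΓ : Adm Γ p) : (∀ (r : ℕ) (Z : SV Γ n r), r < n → {x | x ∈ crv m e f g ∧ x ∈ Z.locus}.Finite) ∧
    ∀ (r : ℕ) (Z : SV Γ n r), r + 2 ≤ n → ∀ x ∈ crv m e f g, x ∈ Z.locus →
      ∃ bad : Fin n → Prop, PC Z.cls (GB p d B) G' x bad := by
  obtain ⟨C, _, _, _, _, _, φ, hφ, hΓ⟩ := hΓ
  have : Fact p.Prime := ⟨hp⟩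
  have hpR : (1 : ℝ) < p := by exact_mod_cast hp.one_lt
  have hp0 : 0 < ‖(p : C)‖ := by
    rw [hφ]
    positivity
  have hp1 : ‖(p : C)‖ < 1 := by
    rw [hφ]
    exact inv_lt_one_of_one_lt₀ hpR
  obtain ⟨hG, hg0⟩ : GoodQ p d f g ∧ ∀ i, g i ≠ 0 := by
    obtain ⟨T, π, K, c, hf, -, hg, -⟩ := h₁
    exact ⟨hg, hf.g0⟩
  refine ⟨fun r Z hr => ?_, fun r Z hr x hx hZ => ?_⟩
  · refine (((glob hp hG hm hpm hr Z hg0).1.image
      (fun (s : ℂ) (i : Fin n) => vl (f i) s / (m * vl (g i) s))).union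
      (Set.finite_singleton (fun i : Fin n =>
        vl (reflect (e i) (f i)) (0 : ℂ) / (m * vl (reflect (e i) (g i)) (0 : ℂ))))).subset ?_
    rintro x ⟨hx, hZ⟩
    rcases crv_cases hfe hge hx with ⟨s, hs, rfl⟩ | ⟨-, rfl⟩
    · exact Or.inl ⟨s, ⟨hs, hZ⟩, rfl⟩
    · exact Or.inr rfl
  · rcases crv_cases hfe hge hx with ⟨s, hs, rfl⟩ | ⟨hs, rfl⟩
    · obtain ⟨s', rfl⟩ := (glob hp hG hm hpm (by omega) Z hg0).2
        (fun γ hγ => (hΓ γ hγ).imp fun c hc => hc.1) s hs hZ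
      have hs' : ∀ i, vl (g i) s' ≠ 0 := by
        intro i h0
        apply hs i
        rw [← vl_map, h0, map_zero]
      have e' : (fun i => vl (f i) (rA s') / (m * vl (g i) (rA s'))) =
          fun i => rA (vl (f i) s' / (m * vl (g i) s')) := by
        funext i
        rw [map_div₀, map_mul, map_intCast, vl_map, vl_map]
      rw [e'] at hZ ⊢
      exact place hp0 hp1 hd hbig hfe hge h₁ h₂ hB0 hB hm hpm hΓ hs' hr Z hZ
    · have hs' : ∀ i, vl (reflect (e i) (g i)) (0 : QA) ≠ 0 := by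
        intro i h0
        apply hs i
        have h1 := vl_map rA (reflect (e i) (g i)) 0
        rw [h0, map_zero] at h1
        exact h1.symm
      have e' : (fun i => vl (reflect (e i) (f i)) (0 : ℂ) /
          (m * vl (reflect (e i) (g i)) (0 : ℂ))) =
          fun i => rA (vl (reflect (e i) (f i)) 0 / (m * vl (reflect (e i) (g i)) 0)) := by
        funext i
        rw [map_div₀, map_mul, map_intCast, vl_map, vl_map, map_zero]
      rw [e'] at hZ ⊢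
      exact placeInf hp0 hp1 hd hbig h₂ hB0 hB hm hpm hΓ hs' hr Z hZ

theorem big_of {p d : ℕ} (h : 2 * d * (4 * dd d) + (4 * dd d + 1) + (d ^ 3 + 2 * d + 2) < p) :
    Big p d := ⟨by omega, by omega, by omega⟩

theorem tb2 (p d : ℕ) (hp : p.Prime) : ∃ B : ℕ, 0 < B ∧ TB2 p d B :=
  Pool.Agent.Q210.PO.tame2 p d hp

/-- the information at one prime number for all special subvarieties -/
def Inf1 (Γ : Set ℂ) {n : ℕ} (S : Set (Fin n → ℂ)) (G G' : ℕ) : Prop :=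
  (∀ (r : ℕ) (Z : SV Γ n r), r < n → {x | x ∈ S ∧ x ∈ Z.locus}.Finite) ∧
  ∀ (r : ℕ) (Z : SV Γ n r), r + 2 ≤ n → ∀ x ∈ S, x ∈ Z.locus →
    ∃ bad : Fin n → Prop, PC Z.cls G G' x bad

theorem Iso.mono {G G' : ℕ} {x x' : ℂ} (h : G ≤ G') (hI : Iso G x x') : Iso G' x x' := by
  obtain ⟨N, hN0, hN, hΨ⟩ := hI
  exact ⟨N, hN0, hN.trans h, hΨ⟩

theorem Inf1.mono {Γ : Set ℂ} {n : ℕ} {S : Set (Fin n → ℂ)} {G₁ G₂ G' : ℕ} (h : G₁ ≤ G₂)
    (hI : Inf1 Γ S G₁ G') : Inf1 Γ S G₂ G' := by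
  refine ⟨hI.1, fun r Z hr x hx hZ => ?_⟩
  obtain ⟨b, hb⟩ := hI.2 r Z hr x hx hZ
  exact ⟨b, hb.one, hb.const, fun j l c hjl hj hl h1 h2 => Iso.mono h (hb.good j l c hjl hj hl h1 h2),
    hb.b1, hb.b2, hb.b3⟩

/-- Three prime numbers. -/
theorem three {Γ : Set ℂ} {n : ℕ} {S : Set (Fin n → ℂ)} {G₁ G₂ G₃ : ℕ} (h₁ : Inf1 Γ S G₁ 0)
    (h₂ : Inf1 Γ S G₂ G₁) (h₃ : Inf1 Γ S G₃ (max G₁ G₂)) : Pool.Agent.Q170.UZ.NoAt Γ S := by
  refine ⟨fun r' Z hr x hx hxZ => ?_, h₁.1⟩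
  obtain ⟨b₁, hb₁⟩ := h₁.2 r' Z hr x hx hxZ
  obtain ⟨b₂, hb₂⟩ := h₂.2 r' Z hr x hx hxZ
  obtain ⟨b₃, hb₃⟩ := h₃.2 r' Z hr x hx hxZ
  exact Pool.Agent.Q26.UZ.t_COMB n r' Z.cls hr (fun j l => Iso G₁ (x j) (x l))
    (fun j l => Iso (max G₁ G₂) (x j) (x l)) (fun j l h => Iso.mono (le_max_left _ _) h) b₁ b₂ b₃
    hb₁.one hb₂.one hb₃.one (fun i hi => ⟨hb₁.const i hi, hb₂.const i hi, hb₃.const i hi⟩)
    hb₁.good
    (fun j l c hjl hj hl h h' => Iso.mono (le_max_right _ _) (hb₂.good j l c hjl hj hl h h'))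
    hb₂.b1 hb₃.b1 hb₃.b2 hb₃.b3

/-- the maximum of a function over the prime numbers which are at most `B` -/
theorem exists_sup (B : ℕ) (g₁ : (p : ℕ) → p.Prime → ℕ) :
    ∃ G₁ : ℕ, ∀ p ≤ B, ∀ hp : p.Prime, g₁ p hp ≤ G₁ := by
  classical
  refine ⟨(Finset.range (B + 1)).sup fun p => if hp : p.Prime then g₁ p hp else 0, ?_⟩
  intro p hpB hp
  have := Finset.le_sup (f := fun p => if hp : p.Prime then g₁ p hp else 0)
    (Finset.mem_range.2 (Nat.lt_succ_of_le hpB))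
  simpa only [dif_pos hp] using this

/-- `p` is a good prime number for the coefficients -/
def GoodPr {n d : ℕ} (E : MvPolynomial (Fin n × Fin (d + 1)) ℤ) (Q : ℕ) (Γ : Set ℂ) (m : ℤ)
    (a : Fin n → Fin (d + 1) → ℤ) (p : ℕ) : Prop :=
  p.Prime ∧ Q < p ∧ (p : ℤ) ∣ m ∧ ¬ (p : ℤ) ∣ MvPolynomial.eval (fun q => a q.1 q.2) E ∧ Adm Γ p

/-- One stage of the criterion. -/
theorem stageP (n d : ℕ) (hd : 0 < d) (g : Fin n → ℤ[X]) (h : Poles d g) (G' : ℕ) :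
    ∃ (Q : ℕ) (E : MvPolynomial (Fin n × Fin (d + 1)) ℤ), E ≠ 0 ∧ ∀ (p : ℕ), p.Prime →
    ∃ G : ℕ, ∀ (Γ : Set ℂ) (m : ℤ) (a : Fin n → Fin (d + 1) → ℤ), m ≠ 0 →
      GoodPr E Q Γ m a p → Inf1 Γ (crv m (fun _ => d) (fun i => pol (a i)) g) G G' := by
  obtain ⟨Q, E, hE, hQ⟩ := stage n d hd g h (G' * G').factorial (Nat.factorial_pos _)
  refine ⟨max Q (2 * d * (4 * dd d) + (4 * dd d + 1) + (d ^ 3 + 2 * d + 2)), E, hE, ?_⟩
  intro p hp
  obtain ⟨B, hB0, hB⟩ := tb2 p (6 * d) hp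
  refine ⟨GB p d B, ?_⟩
  rintro Γ m a hm ⟨-, hQp, hpm, hEp, hΓ⟩
  obtain ⟨h₁, h₂⟩ := hQ p hp (lt_of_le_of_lt (le_max_left _ _) hQp) a hEp
  have hbig : Big p d := big_of (lt_of_le_of_lt (le_max_right _ _) hQp)
  have hfd : ∀ i, (pol (a i)).natDegree ≤ d := by
    obtain ⟨T, π, K, c, -, -, hg, -⟩ := h₁
    exact hg.degf
  exact onePrime hp hd hbig hfd h.deg h₁ h₂ hB0 hB hm hpm hΓ

/-- The criterion with three primes. -/
theorem crit (n d : ℕ) (hd : 0 < d) (g : Fin n → ℤ[X]) (h : Poles d g) :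
    ∃ (Q₁ : ℕ) (E₁ : MvPolynomial (Fin n × Fin (d + 1)) ℤ), E₁ ≠ 0 ∧ ∀ B₁ : ℕ,
    ∃ (Q₂ : ℕ) (E₂ : MvPolynomial (Fin n × Fin (d + 1)) ℤ), E₂ ≠ 0 ∧ ∀ B₂ : ℕ,
    ∃ (Q₃ : ℕ) (E₃ : MvPolynomial (Fin n × Fin (d + 1)) ℤ), E₃ ≠ 0 ∧
    ∀ (Γ : Set ℂ) (m : ℤ) (a : Fin n → Fin (d + 1) → ℤ), m ≠ 0 →
      (∃ p ≤ B₁, GoodPr E₁ Q₁ Γ m a p) → (∃ p ≤ B₂, GoodPr E₂ Q₂ Γ m a p) →
      (∃ p, GoodPr E₃ Q₃ Γ m a p) →
      Pool.Agent.Q170.UZ.NoAt Γ (crv m (fun _ => d) (fun i => pol (a i)) g) := by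
  obtain ⟨Q₁, E₁, hE₁, h₁⟩ := stageP n d hd g h 0
  refine ⟨Q₁, E₁, hE₁, fun B₁ => ?_⟩
  choose g₁ hg₁ using h₁
  obtain ⟨G₁, hG₁⟩ := exists_sup B₁ g₁
  obtain ⟨Q₂, E₂, hE₂, h₂⟩ := stageP n d hd g h G₁
  refine ⟨Q₂, E₂, hE₂, fun B₂ => ?_⟩
  choose g₂ hg₂ using h₂
  obtain ⟨G₂, hG₂⟩ := exists_sup B₂ g₂
  obtain ⟨Q₃, E₃, hE₃, h₃⟩ := stageP n d hd g h (max G₁ G₂)
  refine ⟨Q₃, E₃, hE₃, ?_⟩
  rintro Γ m a hm ⟨p₁, hp₁B, hp₁⟩ ⟨p₂, hp₂B, hp₂⟩ ⟨p₃, hp₃⟩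
  obtain ⟨G₃, hG₃⟩ := h₃ p₃ hp₃.1
  exact three ((hg₁ p₁ hp₁.1 Γ m a hm hp₁).mono (hG₁ p₁ hp₁B hp₁.1))
    ((hg₂ p₂ hp₂.1 Γ m a hm hp₂).mono (hG₂ p₂ hp₂B hp₂.1)) (hG₃ Γ m a hm hp₃)

end Pool.Agent.Q170.PO
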