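import Pool.Agent.Q170.PO.Px12
import Pool.Agent.Q26.PO.Spread

/-!
# Fixed rational curves: from conditions over `ℂ` to conditions modulo `p`
-/

set_option autoImplicit false
set_option linter.unusedSectionVars false

open UpperHalfPlane H294ZP Polynomial Filter Topology

namespace Pool.Agent.Q170.PO

/-- the punctured neighbourhoods of a point of the projective line -/
noncomputable def nearP : Option ℂ → Filter ℂ
  | some ρ => 𝓝[≠] ρ
  | none => Bornology.cobounded ℂ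

/-- the multiplicity of a point in the divisor of degree `e` of a polynomial -/
noncomputable def mu (e : ℕ) (P : ℤ[X]) : Option ℂ → ℕ
  | some ρ => (P.map (Int.castRingHom ℂ)).rootMultiplicity ρ
  | none => e - P.natDegree

/-- the quotient of the coordinates `l` and `j` is a root of unity at `P` -/
def Rel {n : ℕ} (f g : Fin n → ℤ[X]) (P : Option ℂ) (j l : Fin n) : Prop :=
  ∃ (b : ℕ) (ζ : ℂ), 0 < b ∧ ζ ^ b = 1 ∧
    Tendsto (fun s : ℂ => (vl (f l) s / vl (g l) s) / (vl (f j) s / vl (g j) s)) (nearP P) (𝓝 ζ)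

/-- the conditions for a fixed curve -/
structure GPos {n : ℕ} (e : Fin n → ℕ) (f g : Fin n → ℤ[X]) : Prop where
  f0 : ∀ i, f i ≠ 0
  g0 : ∀ i, g i ≠ 0
  fe : ∀ i, (f i).natDegree ≤ e i
  ge : ∀ i, (g i).natDegree ≤ e i
  simple : ∀ i P, mu (e i) (f i) P ≤ 1
  zz : ∀ i j P, i ≠ j → mu (e i) (f i) P = 0 ∨ mu (e j) (f j) P = 0
  zp : ∀ i j P, mu (e i) (f i) P = 0 ∨ mu (e j) (g j) P = 0
  poles : ∀ P, ∃ (a : Fin n) (k : ℕ), ∀ i, i ≠ a → mu (e i) (g i) P = k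
  zero : ∀ i, ∃ ρ : ℂ, ρ ≠ 0 ∧ vl (f i) ρ = 0
  r1 : ∀ P j l j' l', j ≠ l → j' ≠ l' → Rel f g P j l → Rel f g P j' l' →
    (j = j' ∧ l = l') ∨ (j = l' ∧ l = j')
  r2 : ∀ P j l, j ≠ l → (∃ i, mu (e i) (f i) P ≠ 0 ∨ mu (e i) (g i) P ≠ 0) → ¬ Rel f g P j l

/-- the inversion of the projective line -/
noncomputable def pinv : Option ℂ → Option ℂ
  | some ρ => if ρ = 0 then none else some ρ⁻¹
  | none => some 0

theorem mu_refl {e : ℕ} {P : ℤ[X]} (hP : P ≠ 0) (he : P.natDegree ≤ e) (Q : Option ℂ) :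
    mu e (reflect e P) Q = mu e P (pinv Q) := by
  have hR := Pool.Agent.Q285.PO.rev e P hP he
  rcases Q with _ | ρ
  · have h1 := Pool.Agent.Q285.PO.rev e (reflect e P) hR.2.1 hR.1
    have h2 := h1.2.2.2.1 0
    rw [if_pos rfl, reflect_reflect] at h2
    exact h2.symm
  · show ((reflect e P).map (Int.castRingHom ℂ)).rootMultiplicity ρ = _
    rw [hR.2.2.2.1 ρ]
    by_cases h : ρ = 0
    · rw [if_pos h, show pinv (some ρ) = none from if_pos h]
      rfl
    · rw [if_neg h, show pinv (some ρ) = some ρ⁻¹ from if_neg h]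
      rfl

theorem near_ne (Q : Option ℂ) : ∀ᶠ s in nearP Q, s ≠ 0 := by
  rcases Q with _ | ρ
  · have h1 : {(0 : ℂ)}ᶜ ∈ Bornology.cobounded ℂ :=
      Bornology.isBounded_def.1 Bornology.isBounded_singleton
    exact h1
  · by_cases h : ρ = 0
    · subst h
      exact eventually_mem_nhdsWithin
    · exact nhdsWithin_le_nhds (isOpen_ne.mem_nhds h)

theorem inv_near (Q : Option ℂ) : Tendsto (fun s : ℂ => s⁻¹) (nearP (pinv Q)) (nearP Q) := by
  rcases Q with _ | ρ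
  · exact Filter.tendsto_inv₀_nhdsNE_zero
  · by_cases h : ρ = 0
    · subst h
      have e1 : pinv (some (0 : ℂ)) = none := if_pos rfl
      rw [e1]
      refine tendsto_nhdsWithin_iff.2 ⟨Filter.tendsto_inv₀_cobounded, ?_⟩
      filter_upwards [near_ne none] with s hs
      exact inv_ne_zero hs
    · have e1 : pinv (some ρ) = some ρ⁻¹ := if_neg h
      rw [e1]
      refine tendsto_nhdsWithin_iff.2 ⟨?_, ?_⟩
      · have h1 := tendsto_inv₀ (inv_ne_zero h)
        rw [inv_inv] at h1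
        exact h1.mono_left nhdsWithin_le_nhds
      · have h2 : ∀ᶠ s in 𝓝[≠] ρ⁻¹, s ≠ ρ⁻¹ := eventually_mem_nhdsWithin
        filter_upwards [h2] with s hs
        intro h3
        exact hs (by rw [← h3, inv_inv])

theorem rel_refl {n : ℕ} {e : Fin n → ℕ} {f g : Fin n → ℤ[X]} (f0 : ∀ i, f i ≠ 0)
    (g0 : ∀ i, g i ≠ 0) (fe : ∀ i, (f i).natDegree ≤ e i) (ge : ∀ i, (g i).natDegree ≤ e i)
    {Q : Option ℂ} {j l : Fin n}
    (h : Rel (fun i => reflect (e i) (f i)) (fun i => reflect (e i) (g i)) Q j l) :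
    Rel f g (pinv Q) j l := by
  obtain ⟨b, ζ, hb, hζ, ht⟩ := h
  refine ⟨b, ζ, hb, hζ, ?_⟩
  refine (ht.comp (inv_near Q)).congr' ?_
  filter_upwards [near_ne (pinv Q)] with s hs
  have key : ∀ i, vl (reflect (e i) (f i)) s⁻¹ / vl (reflect (e i) (g i)) s⁻¹ =
      vl (f i) s / vl (g i) s := by
    intro i
    rw [← (Pool.Agent.Q285.PO.rev (e i) (f i) (f0 i) (fe i)).2.2.1 ℂ s hs,
      ← (Pool.Agent.Q285.PO.rev (e i) (g i) (g0 i) (ge i)).2.2.1 ℂ s hs,
      mul_div_mul_right _ _ (pow_ne_zero _ hs)]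
  show vl (reflect (e l) (f l)) s⁻¹ / vl (reflect (e l) (g l)) s⁻¹ /
    (vl (reflect (e j) (f j)) s⁻¹ / vl (reflect (e j) (g j)) s⁻¹) = _
  rw [key, key]

/-- the chart at infinity -/
theorem GPos.refl {n : ℕ} {e : Fin n → ℕ} {f g : Fin n → ℤ[X]} (h : GPos e f g) :
    GPos e (fun i => reflect (e i) (f i)) (fun i => reflect (e i) (g i)) := by
  have hRf := fun i => Pool.Agent.Q285.PO.rev (e i) (f i) (h.f0 i) (h.fe i)
  have hRg := fun i => Pool.Agent.Q285.PO.rev (e i) (g i) (h.g0 i) (h.ge i)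
  have mf := fun i => mu_refl (h.f0 i) (h.fe i)
  have mg := fun i => mu_refl (h.g0 i) (h.ge i)
  refine ⟨fun i => (hRf i).2.1, fun i => (hRg i).2.1, fun i => (hRf i).1, fun i => (hRg i).1,
    fun i P => ?_, fun i j P hij => ?_, fun i j P => ?_, fun P => ?_, fun i => ?_,
    fun P j l j' l' h1 h2 h3 h4 => ?_, fun P j l h1 h2 h3 => ?_⟩
  · rw [mf]
    exact h.simple i _
  · rw [mf, mf]
    exact h.zz i j _ hij
  · rw [mf, mg]
    exact h.zp i j _
  · obtain ⟨a, k, hk⟩ := h.poles (pinv P)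
    exact ⟨a, k, fun i hi => (mg i P).trans (hk i hi)⟩
  · obtain ⟨ρ, hρ, h0⟩ := h.zero i
    refine ⟨ρ⁻¹, inv_ne_zero hρ, ?_⟩
    have h1 := (hRf i).2.2.1 ℂ ρ hρ
    rw [h0] at h1
    exact (mul_eq_zero.1 h1).resolve_right (pow_ne_zero _ hρ)
  · exact h.r1 _ j l j' l' h1 h2 (rel_refl h.f0 h.g0 h.fe h.ge h3)
      (rel_refl h.f0 h.g0 h.fe h.ge h4)
  · refine h.r2 _ j l h1 ?_ (rel_refl h.f0 h.g0 h.fe h.ge h3)
    obtain ⟨i, hi⟩ := h2
    rw [mf, mg] at hi
    exact ⟨i, hi⟩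

theorem mu_root {e : ℕ} {P : ℤ[X]} (hP : P ≠ 0) {x : ℂ} :
    vl P x = 0 ↔ mu e P (some x) ≠ 0 := by
  have h1 : P.map (Int.castRingHom ℂ) ≠ 0 := by
    rw [Ne, Polynomial.map_eq_zero_iff (RingHom.injective_int _)]
    exact hP
  show _ ↔ (P.map (Int.castRingHom ℂ)).rootMultiplicity x ≠ 0
  rw [← Nat.pos_iff_ne_zero, rootMultiplicity_pos h1, IsRoot.def, vl_eq_eval]

/-- coprime over `ℚ` if there is no common zero in `ℂ` -/
theorem cop_of {P Q : ℤ[X]} (h : ∀ x : ℂ, vl P x = 0 → vl Q x ≠ 0) :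
    IsCoprime (P.map (Int.castRingHom ℚ)) (Q.map (Int.castRingHom ℚ)) := by
  rw [isCoprime_iff_aeval_ne_zero_of_isAlgClosed ℚ ℂ]
  intro x
  have e1 : ∀ P : ℤ[X], aeval x (P.map (Int.castRingHom ℚ)) = vl P x := by
    intro P
    rw [aeval_def, eval₂_map, RingHom.eq_intCast' ((algebraMap ℚ ℂ).comp (Int.castRingHom ℚ))]
    unfold vl
    rw [RingHom.eq_intCast' (Int.castRingHom ℂ)]
  rw [e1, e1]
  by_cases h1 : vl P x = 0
  · exact Or.inr (h x h1)
  · exact Or.inl h1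

theorem GPos.sepQ {n : ℕ} {e : Fin n → ℕ} {f g : Fin n → ℤ[X]} (h : GPos e f g) (i : Fin n) :
    IsCoprime ((f i).map (Int.castRingHom ℚ)) (derivative ((f i).map (Int.castRingHom ℚ))) := by
  rw [derivative_map]
  refine cop_of fun x h1 h2 => ?_
  have h3 : (f i).map (Int.castRingHom ℂ) ≠ 0 := by
    rw [Ne, Polynomial.map_eq_zero_iff (RingHom.injective_int _)]
    exact h.f0 i
  have h4 := (one_lt_rootMultiplicity_iff_isRoot (t := x) h3).2 ⟨by
    rw [IsRoot.def, ← vl_eq_eval]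
    exact h1, by
    rw [IsRoot.def, derivative_map, ← vl_eq_eval]
    exact h2⟩
  exact absurd (h.simple i (some x)) (not_le.2 h4)

theorem GPos.pos {n : ℕ} {e : Fin n → ℕ} {f g : Fin n → ℤ[X]} (h : GPos e f g) (i : Fin n) :
    0 < (f i).natDegree := by
  obtain ⟨ρ, -, h0⟩ := h.zero i
  by_contra hcon
  have h1 : (f i).natDegree = 0 := by omega
  rw [eq_C_of_natDegree_eq_zero h1] at h0
  unfold vl at h0
  rw [eval₂_C, eq_intCast, Int.cast_eq_zero] at h0
  apply h.f0 i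
  rw [eq_C_of_natDegree_eq_zero h1, h0, C_0]

/-- the zeros of a polynomial near a point -/
theorem ev_ne {P : ℤ[X]} (hP : P ≠ 0) (x : ℂ) : ∀ᶠ s in 𝓝[≠] x, vl P s ≠ 0 := by
  have h1 : P.map (Int.castRingHom ℂ) ≠ 0 := by
    rw [Ne, Polynomial.map_eq_zero_iff (RingHom.injective_int _)]
    exact hP
  have h2 : {s : ℂ | vl P s = 0}.Finite := by
    refine ((P.map (Int.castRingHom ℂ)).roots.toFinset.finite_toSet).subset ?_
    intro s hs
    rw [Finset.mem_coe, Multiset.mem_toFinset, mem_roots h1, IsRoot.def, ← vl_eq_eval]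
    exact hs
  have h3 : ({s : ℂ | vl P s = 0} \ {x})ᶜ ∈ 𝓝 x :=
    (h2.subset Set.sdiff_subset).isClosed.compl_mem_nhds (by simp)
  have h4 : ∀ᶠ s in 𝓝[≠] x, s ≠ x := eventually_mem_nhdsWithin
  filter_upwards [h4, mem_nhdsWithin_of_mem_nhds h3] with s hs hs'
  intro h0
  exact hs' ⟨h0, hs⟩

theorem vl_cont (P : ℤ[X]) : Continuous fun s : ℂ => vl P s := by
  have : (fun s : ℂ => vl P s) = fun s => (P.map (Int.castRingHom ℂ)).eval s := by
    funext s
    rw [vl_eq_eval]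
  rw [this]
  exact Polynomial.continuous _

/-- a multiplicative relation of the values gives related coordinates -/
theorem rel_of {n : ℕ} {f g : Fin n → ℤ[X]} {x : ℂ} {j l : Fin n} (hfj : vl (f j) x ≠ 0)
    {π Aj Al : ℤ[X]} {k : ℕ} (hπ : π ≠ 0) (hgj : g j = π ^ k * Aj)
    (hgl : g l = π ^ k * Al) (hAj : vl Aj x ≠ 0) (hAl : vl Al x ≠ 0) {M : ℕ} (hM : 0 < M)
    (h : (vl (f l) x * vl Aj x) ^ M = (vl (f j) x * vl Al x) ^ M) : Rel f g (some x) j l := by
  refine ⟨M, (vl (f l) x * vl Aj x) / (vl (f j) x * vl Al x), hM, ?_, ?_⟩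
  · rw [div_pow, h, div_self]
    exact pow_ne_zero _ (mul_ne_zero hfj hAl)
  · have h1 : Tendsto (fun s : ℂ => (vl (f l) s * vl Aj s) / (vl (f j) s * vl Al s)) (𝓝 x)
        (𝓝 ((vl (f l) x * vl Aj x) / (vl (f j) x * vl Al x))) :=
      (((vl_cont (f l)).mul (vl_cont Aj)).tendsto x).div
        (((vl_cont (f j)).mul (vl_cont Al)).tendsto x) (mul_ne_zero hfj hAl)
    refine (h1.mono_left nhdsWithin_le_nhds).congr' ?_
    have hAj0 : Aj ≠ 0 := by
      rintro rfl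
      exact hAj (by unfold vl; rw [eval₂_zero])
    filter_upwards [ev_ne hπ x, ev_ne hAj0 x] with s hs hs'
    rw [hgj, hgl, vl_mul, vl_mul, vl_pow]
    have h2 : vl π s ^ k ≠ 0 := pow_ne_zero _ hs
    rcases eq_or_ne (vl (f j) s) 0 with h3 | h3
    · rw [h3]
      simp
    rcases eq_or_ne (vl Al s) 0 with h4 | h4
    · rw [h4]
      simp
    field_simp

end Pool.Agent.Q170.PO
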