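import Pool.Agent.Q170.PO.Px13

/-!
# Fixed rational curves: the conditions modulo `p`
-/

set_option autoImplicit false
set_option linter.unusedSectionVars false

open UpperHalfPlane H294ZP Polynomial Filter Topology

namespace Pool.Agent.Q170.PO

/-- the factors of the denominators, each of them occurs -/
theorem fact' (n : ℕ) (g : Fin n → ℤ[X]) (hg : ∀ i, g i ≠ 0)
    (hp : ∀ ρ : ℂ, ∃ (a : Fin n) (k : ℕ), ∀ i, i ≠ a →
      ((g i).map (Int.castRingHom ℂ)).rootMultiplicity ρ = k) :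
    ∃ (T : ℕ) (π : Fin T → ℤ[X]) (K : Fin T → Fin n → ℕ) (c : Fin n → ℤ), (∀ i, c i ≠ 0) ∧
    (∀ i, g i = C (c i) * ∏ t, π t ^ K t i) ∧ (∀ t, 0 < (π t).natDegree) ∧
    (∀ t t', t ≠ t' →
      IsCoprime ((π t).map (Int.castRingHom ℚ)) ((π t').map (Int.castRingHom ℚ))) ∧
    (∀ t, ∃ (a : Fin n) (k : ℕ), ∀ i, i ≠ a → K t i = k) ∧ (∀ t, ∃ i, K t i ≠ 0) ∧
    ∃ Q : ℕ, ∀ p : ℕ, p.Prime → Q < p → (∀ i, ¬ (p : ℤ) ∣ c i) ∧
      (∀ t, IsCoprime (rd p (π t)) (derivative (rd p (π t)))) ∧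
      ∀ t t', t ≠ t' → IsCoprime (rd p (π t)) (rd p (π t')) := by
  classical
  obtain ⟨T, π, K, c, hc, hgf, hpos, hcop, hexc, Q, hQ⟩ := Pool.Agent.Q285.PO.fact n g hg hp
  let T' := {t : Fin T // ∃ i, K t i ≠ 0}
  let e : Fin (Fintype.card T') ≃ T' := (Fintype.equivFin T').symm
  have hinj : ∀ t t' : Fin (Fintype.card T'), t ≠ t' → (e t).1 ≠ (e t').1 := by
    intro t t' h h'
    exact h (e.injective (Subtype.ext h'))
  refine ⟨Fintype.card T', fun t => π (e t).1, fun t => K (e t).1, c, hc, fun i => ?_,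
    fun t => hpos _, fun t t' h => hcop _ _ (hinj t t' h), fun t => hexc _, fun t => (e t).2,
    Q, fun p hpp hQp => ?_⟩
  · rw [hgf i]
    congr 1
    rw [Equiv.prod_comp e (fun t : T' => π t.1 ^ K t.1 i)]
    rw [← Finset.prod_subtype (Finset.univ.filter fun t => ∃ i, K t i ≠ 0)
      (fun t => by simp) (fun t => π t ^ K t i)]
    symm
    refine Finset.prod_subset (Finset.filter_subset _ _) ?_
    intro t _ ht
    have h1 : K t i = 0 := by
      by_contra h2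
      exact ht (Finset.mem_filter.2 ⟨Finset.mem_univ _, i, h2⟩)
    rw [h1, pow_zero]
  · obtain ⟨h1, h2, h3⟩ := hQ p hpp hQp
    exact ⟨h1, fun t => h2 _, fun t t' h => h3 _ _ (hinj t t' h)⟩

/-- the conditions modulo `p` for fixed polynomials -/
theorem GPos.ch {n d : ℕ} {e : Fin n → ℕ} {f g : Fin n → ℤ[X]} (h : GPos e f g)
    (hed : ∀ i, e i ≤ d) {M : ℕ} (hM : 0 < M) :
    ∃ Q : ℕ, ∀ p : ℕ, p.Prime → Q < p → CH p d M f g := by
  obtain ⟨T, π, K, c, hc, hgf, hpos, hcop, hexc, hK, Q₁, hQ₁⟩ := fact' n g h.g0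
    (fun ρ => h.poles (some ρ))
  have hfac : Fac d g π K c := ⟨h.g0, fun i => (h.ge i).trans (hed i), hc, hgf, hpos, hexc⟩
  have hz : ∀ {i j : Fin n} {x : ℂ}, i ≠ j → vl (f i) x = 0 → vl (f j) x ≠ 0 := by
    intro i j x hij h1 h2
    rcases h.zz i j (some x) hij with h3 | h3
    · exact (mu_root (h.f0 i)).1 h1 h3
    · exact (mu_root (h.f0 j)).1 h2 h3
  have hzp : ∀ {i j : Fin n} {x : ℂ}, vl (f i) x = 0 → vl (g j) x ≠ 0 := by
    intro i j x h1 h2
    rcases h.zp i j (some x) with h3 | h3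
    · exact (mu_root (h.f0 i)).1 h1 h3
    · exact (mu_root (h.g0 j)).1 h2 h3
  have hπ0 : ∀ t, π t ≠ 0 := by
    intro t h0
    have := hpos t
    rw [h0, natDegree_zero] at this
    exact lt_irrefl _ this
  have hcopC : ∀ t t', t ≠ t' → ∀ ρ : ℂ, (Pool.Agent.Q261.PO.cx (π t)).eval ρ = 0 →
      (Pool.Agent.Q261.PO.cx (π t')).eval ρ ≠ 0 := by
    intro t t' htt ρ h1 h2
    have h3 := (isCoprime_iff_aeval_ne_zero_of_isAlgClosed ℚ ℂ _ _).1 (hcop t t' htt) ρ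
    have e1 : ∀ P : ℤ[X], aeval ρ (P.map (Int.castRingHom ℚ)) =
        (Pool.Agent.Q261.PO.cx P).eval ρ := by
      intro P
      rw [aeval_def, eval₂_map, eval_map,
        RingHom.eq_intCast' ((algebraMap ℚ ℂ).comp (Int.castRingHom ℚ))]
    rw [e1, e1] at h3
    exact h3.elim (fun h4 => h4 h1) (fun h4 => h4 h2)
  have hr : ∀ (x : ℂ) (j l : Fin n), j ≠ l → (∀ i, vl (g i) x ≠ 0) →
      (vl (f l) x * vl (g j) x) ^ M = (vl (f j) x * vl (g l) x) ^ M → Rel f g (some x) j l := by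
    intro x j l hjl hg he
    have hfj : vl (f j) x ≠ 0 := by
      intro h0
      rw [h0, zero_mul, zero_pow hM.ne'] at he
      have h1 := (pow_eq_zero_iff hM.ne').1 he
      exact (mul_ne_zero (hz hjl h0) (hg j)) h1
    exact rel_of (π := 1) (k := 0) hfj one_ne_zero (by simp) (by simp) (hg j) (hg l) hM he
  obtain ⟨Q₂, hQ₂⟩ := Pool.Agent.Q26.PO.spread n d f g (fun i => (h.fe i).trans (hed i)) h.pos
    h.g0 h.sepQ (fun i j hij => cop_of fun x h1 => hz hij h1)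
    (fun i j => cop_of fun x h1 => hzp h1) T π K c M
    (by
      intro x hg j l j' l' h1 h2 h3 h4 h5
      exact h3 (h.r1 (some x) j l j' l' h1 h2 (hr x j l h1 hg h4) (hr x j' l' h2 hg h5)))
    (by
      intro x a j l h0 hjl haj hal he
      have hg : ∀ i, vl (g i) x ≠ 0 := fun i => hzp h0
      exact h.r2 (some x) j l hjl ⟨a, Or.inl ((mu_root (h.f0 a)).1 h0)⟩ (hr x j l hjl hg he))
    (by
      intro x t j l h0 hjl hKjl he
      obtain ⟨i, hi⟩ := hK t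
      have hgi : vl (g i) x = 0 := by
        rw [hfac.eqH t i, vl_mul, vl_pow, h0, zero_pow hi, zero_mul]
      have hf : ∀ a, vl (f a) x ≠ 0 := fun a h1 => hzp h1 hgi
      have hH : ∀ a, vl (Hq π K c t a) x ≠ 0 := by
        intro a
        rw [vl_eq_eval]
        refine Pool.Agent.Q261.PO.Hq_ne π K c hc hcopC t a x ?_
        rw [Pool.Agent.Q261.PO.cx, ← vl_eq_eval]
        exact h0
      refine h.r2 (some x) j l hjl ⟨i, Or.inr ((mu_root (h.g0 i)).1 hgi)⟩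
        (rel_of (π := π t) (k := K t j) (hf j) (hπ0 t) (hfac.eqH t j) ?_ (hH j) (hH l) hM he)
      rw [hKjl]
      exact hfac.eqH t l)
  refine ⟨max Q₁ Q₂, fun p hp hQ => ?_⟩
  obtain ⟨h1, h2, h3⟩ := hQ₁ p hp (lt_of_le_of_lt (le_max_left _ _) hQ)
  obtain ⟨h4, h5⟩ := hQ₂ p hp (lt_of_le_of_lt (le_max_right _ _) hQ)
  exact ⟨T, π, K, c, hfac, ⟨h1, h2, h3⟩, h4, h5⟩

/-- multiplication of the numerators with a constant -/
theorem CH.mulC {p d M n : ℕ} [hpf : Fact p.Prime] {f g : Fin n → ℤ[X]} (h : CH p d M f g)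
    {c : ℤ} (hc : ¬ (p : ℤ) ∣ c) : CH p d M (fun i => C c * f i) g := by
  obtain ⟨T, π, K, c', hfac, hfacP, hg, hr⟩ := h
  have hc0 : ((c : ℤ) : ZMod p) ≠ 0 := fun h0 =>
    hc ((ZMod.intCast_zmod_eq_zero_iff_dvd _ p).1 h0)
  have hu : IsUnit (C ((c : ℤ) : ZMod p)) := isUnit_C.2 (isUnit_iff_ne_zero.2 hc0)
  have e1 : ∀ P : ℤ[X], rd p (C c * P) = C ((c : ℤ) : ZMod p) * rd p P := by
    intro P
    unfold rd
    rw [Polynomial.map_mul, map_C]
    rfl
  refine ⟨T, π, K, c', hfac, hfacP, ⟨fun i => ?_, fun i => ?_, fun i => ?_, fun i j hij => ?_,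
    fun i j => ?_⟩, ⟨?_, ?_, ?_⟩⟩
  · exact (natDegree_C_mul_le _ _).trans (hg.degf i)
  · rw [e1, natDegree_C_mul hc0]
    exact hg.pos i
  · rw [e1, derivative_C_mul]
    exact (isCoprime_mul_unit_left hu _ _).2 (hg.sep i)
  · rw [e1, e1]
    exact (isCoprime_mul_unit_left hu _ _).2 (hg.cop i j hij)
  · rw [e1]
    exact (isCoprime_mul_unit_left_left hu _ _).2 (hg.copg i j)
  all_goals
    have hck : ∀ (k : Type) [Field k] [CharP k p], ((c : ℤ) : k) ≠ 0 := by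
      intro k _ _ h0
      exact hc ((CharP.intCast_eq_zero_iff k p c).1 h0)
    have e2 : ∀ (k : Type) [Field k] (x : k) (P : ℤ[X]), vl (C c * P) x = c * vl P x := by
      intro k _ x P
      rw [vl_mul, vl_C']
  · intro k _ _ x hgx j l j' l' h1 h2 h3 h4 h5
    rw [e2, e2, mul_assoc, mul_assoc, mul_pow, mul_pow (c : k)] at h4 h5
    have h6 : (c : k) ^ M ≠ 0 := pow_ne_zero _ (hck k)
    exact hr.two k x hgx j l j' l' h1 h2 h3 (mul_left_cancel₀ h6 h4) (mul_left_cancel₀ h6 h5)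
  · intro k _ _ x a j l h0 h1 h2 h3 h4
    rw [e2, e2, mul_assoc, mul_assoc, mul_pow, mul_pow (c : k)] at h4
    rw [e2] at h0
    have h6 : (c : k) ^ M ≠ 0 := pow_ne_zero _ (hck k)
    exact hr.one k x a j l ((mul_eq_zero.1 h0).resolve_left (hck k)) h1 h2 h3
      (mul_left_cancel₀ h6 h4)
  · intro k _ _ x t j l h0 h1 h2 h3
    rw [e2, e2, mul_assoc, mul_assoc, mul_pow, mul_pow (c : k)] at h3
    have h6 : (c : k) ^ M ≠ 0 := pow_ne_zero _ (hck k)
    exact hr.pole k x t j l h0 h1 h2 (mul_left_cancel₀ h6 h3)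

end Pool.Agent.Q170.PO
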