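import Pool.Agent.Q170.PO.Nw2
import Pool.Agent.Q170.PO.Loc3

/-!
# Pairs of good coordinates at one place, general denominators
-/

set_option autoImplicit false
set_option linter.unusedSectionVars false

open UpperHalfPlane H294ZP Polynomial

namespace Pool.Agent.Q170.PO

open Pool.Agent.Y226 Pool.Agent.Y226.ZG Pool.Agent.Y226.ZM

/-- the bound for the degrees of the auxiliary polynomials -/
def dd (d : ℕ) : ℕ := 2 * d ^ 4 + 2 * d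

theorem dd_pos {d : ℕ} (h : 0 < d) : 0 < dd d := by
  unfold dd
  omega

theorem le_dd (d : ℕ) : 2 * d ≤ dd d := Nat.le_add_left _ _

/-- the local data at one place: the coordinates in `S` have the same norm -/
structure PT2 {C : Type} [NormedField C] (p d : ℕ) {n : ℕ} (φ : QA →+* C) (f H : Fin n → ℤ[X])
    (g : ℤ[X]) (m : ℤ) (u : QA) (X : Fin n → QA) (S : Fin n → Prop) : Prop where
  hp0 : 0 < ‖(p : C)‖
  hp1 : ‖(p : C)‖ < 1
  good : GoodH p d f H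
  degg : g.natDegree ≤ d
  d0 : 0 < d
  big1 : 2 * d * (4 * dd d) < p
  big2 : 4 * dd d + 1 < p
  big3 : d ^ 3 + 2 * d + 2 < p
  m0 : m ≠ 0
  pm : (p : ℤ) ∣ m
  u1 : ‖φ u‖ ≤ 1
  g0 : vl g u ≠ 0
  nf : ∀ i, S i → ‖vl (f i) (φ u)‖ = 1
  nH : ∀ i, S i → ‖vl (H i) (φ u)‖ = 1
  hX : ∀ i, S i → X i = vl (f i) u / (m * vl g u * vl (H i) u)

/-- the information on a pair -/
structure PP2 {C : Type} [NormedField C] (p : ℕ) {n : ℕ} (φ : QA →+* C) (f H : Fin n → ℤ[X])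
    (g : ℤ[X]) (m : ℤ) (u : QA) (X : Fin n → QA) (j l : Fin n) (g' s : ℕ) (ζ' ε : Cˣ) :
    Prop where
  hg : 0 < g'
  hcop : g'.Coprime p
  hζ : IsPrimitiveRoot (ζ' : C) g'
  hε : IsPrimitiveRoot (ε : C) (p ^ s)
  hexp : ‖vl (f l * H j) (φ u) / vl (f j * H l) (φ u) * ((ζ' * ε : Cˣ) : C) -
    (1 + φ (iA (cj 1)) * (m * vl g (φ u) * (vl (H l) (φ u) * (vl (f l) (φ u))⁻¹ -
      vl (H j) (φ u) * (vl (f j) (φ u))⁻¹)))‖ ≤ ‖(p : C)‖ ^ 2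
  hrel : PsiE ιZ (mP ((g' * p ^ s) ^ 2)) (mD ((g' * p ^ s) ^ 2)) (rA (X j)) (rA (X l)) = 0

section

variable {C : Type} [NormedField C] [IsUltrametricDist C] [CompleteSpace C] [CharZero C]
  [IsAlgClosed C] {p d n : ℕ} [hpf : Fact p.Prime] {φ : QA →+* C} {f H : Fin n → ℤ[X]} {g : ℤ[X]}
  {m : ℤ} {u : QA} {X : Fin n → QA} {S : Fin n → Prop} (T : PT2 p d φ f H g m u X S)

include T

theorem PT2.gv0 : vl g (φ u) ≠ 0 := by
  rw [← vl_map]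
  exact (map_ne_zero φ).2 T.g0

theorem PT2.mC0 : (m : C) ≠ 0 := Int.cast_ne_zero.2 T.m0

theorem PT2.mn : ‖(m : C)‖ ≤ ‖(p : C)‖ := by
  obtain ⟨k, hk⟩ := T.pm
  rw [hk, Int.cast_mul, Int.cast_natCast]
  exact nmul_le' le_rfl (nint k)

theorem PT2.mgn : ‖(m : C) * vl g (φ u)‖ ≤ ‖(p : C)‖ := nmul_le' T.mn (vl_le g T.u1)

theorem PT2.mg0 : (m : C) * vl g (φ u) ≠ 0 := mul_ne_zero T.mC0 T.gv0

theorem PT2.f0 {i : Fin n} (hi : S i) : vl (f i) (φ u) ≠ 0 :=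
  norm_pos_iff.1 (by rw [T.nf i hi]; exact one_pos)

theorem PT2.H0 {i : Fin n} (hi : S i) : vl (H i) (φ u) ≠ 0 :=
  norm_pos_iff.1 (by rw [T.nH i hi]; exact one_pos)

theorem PT2.φX {i : Fin n} (hi : S i) :
    φ (X i) = vl (f i) (φ u) / (m * vl g (φ u) * vl (H i) (φ u)) := by
  rw [T.hX i hi, map_div₀, map_mul, map_mul, map_intCast, vl_map, vl_map, vl_map]

theorem PT2.nX {i : Fin n} (hi : S i) : ‖φ (X i)‖ = ‖(m : C) * vl g (φ u)‖⁻¹ := by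
  rw [T.φX hi, norm_div, norm_mul _ (vl (H i) (φ u)), T.nf i hi, T.nH i hi, mul_one, one_div]

theorem PT2.inv_mg : ‖(p : C)‖⁻¹ ≤ ‖(m : C) * vl g (φ u)‖⁻¹ :=
  inv_anti₀ (norm_pos_iff.2 T.mg0) T.mgn

theorem PT2.big {i : Fin n} (hi : S i) : 1 < ‖φ (X i)‖ := by
  rw [T.nX hi]
  exact ((one_lt_inv₀ T.hp0).2 T.hp1).trans_le T.inv_mg

theorem PT2.iX {i : Fin n} (hi : S i) :
    (φ (X i))⁻¹ = m * vl g (φ u) * (vl (H i) (φ u) * (vl (f i) (φ u))⁻¹) := by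
  rw [T.φX hi, inv_div, div_eq_mul_inv, mul_assoc ((m : C) * vl g (φ u))]

theorem PT2.nP {i j : Fin n} (hi : S i) (hj : S j) : ‖vl (f i * H j) (φ u)‖ = 1 := by
  rw [vl_mul, norm_mul, T.nf i hi, T.nH j hj, one_mul]

theorem PT2.P0 {i j : Fin n} (hi : S i) (hj : S j) : vl (f i * H j) (φ u) ≠ 0 :=
  norm_pos_iff.1 (by rw [T.nP hi hj]; exact one_pos)

/-- the information on a pair -/
theorem PT2.pair (hP : S_PAIR) {j l : Fin n} (hj : S j)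
    (hl : S l) {τ w : ℍ} {a b c e : ℤ} (hdet : 0 < a * e - b * c)
    (hw : (w : ℂ) * (c * τ + e) = a * τ + b) (hXj : rA (X j) = jj τ) (hXl : rA (X l) = jj w) :
    ∃ (g' s : ℕ) (ζ' ε : Cˣ), PP2 p φ f H g m u X j l g' s ζ' ε := by
  obtain ⟨g', s, ζ', ε, h1, h2, h3, h4, h5, h6⟩ := hP C p φ T.hp0 T.hp1 (X j) (X l) (T.big hj)
    (by rw [T.nX hj, T.nX hl]) τ w a b c e hdet hw hXj hXl
  refine ⟨g', s, ζ', ε, h1, h2, h3, h4, ?_, h6⟩
  have hj0 := T.f0 hj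
  have hl0 := T.f0 hl
  have e1 : φ (X l) / φ (X j) = vl (f l * H j) (φ u) / vl (f j * H l) (φ u) := by
    rw [T.φX hj, T.φX hl, vl_mul, vl_mul]
    have := T.mC0
    have := T.gv0
    have := T.H0 hj
    have := T.H0 hl
    field_simp
  have e2 : (φ (X l))⁻¹ - (φ (X j))⁻¹ =
      m * vl g (φ u) * (vl (H l) (φ u) * (vl (f l) (φ u))⁻¹ -
      vl (H j) (φ u) * (vl (f j) (φ u))⁻¹) := by
    rw [T.iX hj, T.iX hl]
    ring
  rw [e1, e2] at h5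
  refine h5.trans ?_
  have h7 : ‖φ (X j)‖⁻¹ ≤ ‖(p : C)‖ := by
    rw [T.nX hj, inv_inv]
    exact T.mgn
  exact pow_le_pow_left₀ (inv_nonneg.2 (norm_nonneg _)) h7 2

theorem PT2.corr {j l : Fin n} (hj : S j) (hl : S l) :
    ‖φ (iA (cj 1)) * (m * vl g (φ u) * (vl (H l) (φ u) * (vl (f l) (φ u))⁻¹ -
      vl (H j) (φ u) * (vl (f j) (φ u))⁻¹))‖ ≤ ‖(p : C)‖ := by
  refine nmul_le (psi_norm φ (cj 1)) (nmul_le' T.mgn (nsub_le ?_ ?_))
  · rw [norm_mul, norm_inv, T.nf l hl, T.nH l hl, inv_one, one_mul]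
  · rw [norm_mul, norm_inv, T.nf j hj, T.nH j hj, inv_one, one_mul]

/-- the relation modulo `p` -/
theorem PT2.mod {j l : Fin n} (hj : S j) (hl : S l)
    {g' s : ℕ} {ζ' ε : Cˣ} (h : PP2 p φ f H g m u X j l g' s ζ' ε) :
    ‖vl (f l * H j) (φ u) / vl (f j * H l) (φ u) * ((ζ' * ε : Cˣ) : C) - 1‖ ≤ ‖(p : C)‖ := by
  have h1 := T.corr hj hl
  have h2 := h.hexp
  generalize φ (iA (cj 1)) * (m * vl g (φ u) * (vl (H l) (φ u) * (vl (f l) (φ u))⁻¹ -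
      vl (H j) (φ u) * (vl (f j) (φ u))⁻¹)) = y at *
  have e : vl (f l * H j) (φ u) / vl (f j * H l) (φ u) * ((ζ' * ε : Cˣ) : C) - 1 =
      (vl (f l * H j) (φ u) / vl (f j * H l) (φ u) * ((ζ' * ε : Cˣ) : C) - (1 + y)) + y := by ring
  rw [e]
  exact nadd_le (h2.trans (pow_le_of_le_one (norm_nonneg _) T.hp1.le two_ne_zero)) h1

omit T in
theorem PP2.nζ {j l : Fin n} {g' s : ℕ} {ζ' ε : Cˣ} (h : PP2 p φ f H g m u X j l g' s ζ' ε) :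
    ‖(ζ' : C)‖ = 1 := by
  have h1 : ‖(ζ' : C)‖ ^ g' = 1 := by rw [← norm_pow, h.hζ.pow_eq_one, norm_one]
  exact (pow_eq_one_iff_of_nonneg (norm_nonneg _) h.hg.ne').1 h1

theorem PT2.gg {j l : Fin n} (hj : S j) (hl : S l)
    {g' s : ℕ} {ζ' ε : Cˣ} (h : PP2 p φ f H g m u X j l g' s ζ' ε) {F : Cˣ}
    (hF : (F : C) * vl (f j * H l) (φ u) = vl (f l * H j) (φ u)) :
    F * ε ∈ GG C p ‖(p : C)‖ (norm_nonneg _) T.hp1 := by
  have hj0 := T.P0 hj hl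
  have h1 := T.mod hj hl h
  obtain ⟨k, hk, hk'⟩ := fixed_of_pow_eq_one h.hcop h.hζ.pow_eq_one
  refine ⟨(ζ' : C)⁻¹, Nr_inv (Nr_of_fixed hk hk') h.nζ, by rw [norm_inv, h.nζ, inv_one], ?_⟩
  have hζ0 : (ζ' : C) ≠ 0 := ζ'.ne_zero
  have e : ((F * ε : Cˣ) : C) - (ζ' : C)⁻¹ =
      (vl (f l * H j) (φ u) / vl (f j * H l) (φ u) * ((ζ' * ε : Cˣ) : C) - 1) * (ζ' : C)⁻¹ := by
    rw [← hF]
    simp only [Units.val_mul]
    field_simp
  rw [e]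
  exact nmul_le' h1 (by rw [norm_inv, h.nζ, inv_one])

theorem PT2.exF {j l : Fin n} (hj : S j) (hl : S l) :
    ∃ F : Cˣ, (F : C) * vl (f j * H l) (φ u) = vl (f l * H j) (φ u) := by
  refine ⟨Units.mk0 _ (div_ne_zero (T.P0 hl hj) (T.P0 hj hl)), ?_⟩
  rw [Units.val_mk0, div_mul_cancel₀ _ (T.P0 hj hl)]

theorem PT2.p2 : p ≠ 2 := by
  have := T.big3
  omega

/-- a wild root of unity is far from one -/
theorem PT2.wfar {ε : C} {s : ℕ} (hε : IsPrimitiveRoot ε (p ^ (s + 1))) :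
    ‖ε - 1‖ < 1 ∧ ‖(p : C)‖ < ‖ε - 1‖ ∧ ∀ D : ℕ, D < p - 1 → ‖(p : C)‖ < ‖ε - 1‖ ^ D := by
  have h1 := ppow_root_norm T.p2 T.hp1 hε
  have h2 : ‖ε - 1‖ < 1 := ppow_root_lt T.hp1 hε.pow_eq_one
  have h0 : 0 < ‖ε - 1‖ := PData.root_pos T.p2 T.hp1 T.hp0 hε
  have h3 : ∀ D : ℕ, D < p - 1 → ‖(p : C)‖ < ‖ε - 1‖ ^ D := by
    intro D hD
    rw [← h1]
    refine pow_lt_pow_right_of_lt_one₀ h0 h2 (hD.trans_le ?_)
    exact Nat.le_mul_of_pos_left _ (pow_pos hpf.out.pos _)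
  refine ⟨h2, ?_, h3⟩
  have := h3 1 (by have := T.big3; omega)
  rwa [pow_one] at this

/-- no wild torsion in two relations -/
theorem PT2.no_wild' (hW : S_WILD) {e : C} (he : e ∈ Nr C p) (hue : ‖φ u - e‖ < 1)
    {j l j' l' : Fin n} (hj : S j) (hl : S l) (hj' : S j') (hl' : S l') (hjl : j ≠ l)
    (hjl' : j' ≠ l') (hne : ¬ ((j = j' ∧ l = l') ∨ (j = l' ∧ l = j')))
    {g' s : ℕ} {ζ' ε : Cˣ} (h : PP2 p φ f H g m u X j l g' s ζ' ε)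
    {g'' s' : ℕ} {ζ'' ε' : Cˣ} (h' : PP2 p φ f H g m u X j' l' g'' s' ζ'' ε') (hs : s' ≤ s) :
    s = 0 := by
  by_contra h0
  obtain ⟨t, rfl⟩ : ∃ t, s = t + 1 := ⟨s - 1, by omega⟩
  obtain ⟨F₁, hF₁⟩ := T.exF hj hl
  obtain ⟨F₂, hF₂⟩ := T.exF hj' hl'
  have hd := le_dd d
  have h1 := hW C p T.p2 T.hp0 T.hp1 (dd d) (dd_pos T.d0) (f l * H j) (f j * H l) (f l' * H j')
    (f j' * H l') ((T.good.deg l j).trans hd) ((T.good.deg j l).trans hd)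
    ((T.good.deg l' j').trans hd) ((T.good.deg j' l').trans hd) (T.good.nw_pair hjl hjl' hne)
    (φ u) e T.u1 he hue (T.nP hl hj) (T.nP hj hl) (T.nP hl' hj') (T.nP hj' hl') F₁ F₂ hF₁ hF₂ t
    ε ε' h.hε (by
      obtain ⟨k, hk⟩ := Nat.exists_eq_add_of_le hs
      rw [hk, pow_add, pow_mul, h'.hε.pow_eq_one, one_pow]) ‖(p : C)‖ (norm_nonneg _) T.hp1 le_rfl
    (T.gg hj hl h hF₁) (T.gg hj' hl' h' hF₂)
  have h2 := (T.wfar h.hε).2.2 (4 * dd d) (by have := T.big2; omega)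
  exact absurd h1 (not_le.2 h2)

theorem PT2.no_wild (hW : S_WILD) {e : C} (he : e ∈ Nr C p) (hue : ‖φ u - e‖ < 1)
    {j l j' l' : Fin n} (hj : S j) (hl : S l) (hj' : S j') (hl' : S l') (hjl : j ≠ l)
    (hjl' : j' ≠ l') (hne : ¬ ((j = j' ∧ l = l') ∨ (j = l' ∧ l = j')))
    {g' s : ℕ} {ζ' ε : Cˣ} (h : PP2 p φ f H g m u X j l g' s ζ' ε)
    {g'' s' : ℕ} {ζ'' ε' : Cˣ} (h' : PP2 p φ f H g m u X j' l' g'' s' ζ'' ε') :
    s = 0 ∧ s' = 0 := by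
  rcases le_total s' s with hs | hs
  · have h1 := T.no_wild' hW he hue hj hl hj' hl' hjl hjl' hne h h' hs
    omega
  · have h1 := T.no_wild' hW he hue hj' hl' hj hl hjl' hjl (by
      rintro (⟨h1, h2⟩ | ⟨h1, h2⟩)
      · exact hne (Or.inl ⟨h1.symm, h2.symm⟩)
      · exact hne (Or.inr ⟨h2.symm, h1.symm⟩)) h' h hs
    omega

end

/-- the tame statement for one prime, general correction terms -/
def TB2 (p d B : ℕ) : Prop :=
  ∀ (C : Type) [NormedField C] [IsUltrametricDist C] [CompleteSpace C] [CharZero C]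
  [IsAlgClosed C] [Fact p.Prime], 0 < ‖(p : C)‖ → ‖(p : C)‖ < 1 →
  ∀ P Q R S Q₂ c c₂ : ℤ[X], P.natDegree ≤ d → Q.natDegree ≤ d → (R * S).natDegree ≤ d →
  Q₂.natDegree ≤ d → c.natDegree ≤ d → c₂.natDegree ≤ d → rd p (wr P Q) ≠ 0 →
  0 < (rd p R).natDegree → IsCoprime (rd p R) (derivative (rd p R)) →
  IsCoprime (rd p R) (rd p S) → IsCoprime (rd p R) (rd p Q₂) →
  IsCoprime (rd p R) (rd p P) → IsCoprime (rd p R) (rd p Q) →
  ∀ (u e : C), ‖u‖ ≤ 1 → (∃ f : ℕ, 0 < f ∧ e ^ p ^ f = e) → ‖u - e‖ < 1 →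
  ‖vl P u‖ = 1 → ‖vl Q u‖ = 1 → ‖vl (R * S) u‖ = 1 → ‖vl Q₂ u‖ = 1 → ∀ (ζ₁ ζ₂ : C),
  (∃ f : ℕ, 0 < f ∧ ζ₁ ^ p ^ f = ζ₁) → (∃ f : ℕ, 0 < f ∧ ζ₂ ^ p ^ f = ζ₂) →
  ‖vl P u / vl Q u * ζ₁ - (1 + p * (vl c u / (vl P u * vl Q u)))‖ ≤ ‖(p : C)‖ ^ 2 →
  ‖vl (R * S) u / vl Q₂ u * ζ₂ - (1 + p * (vl c₂ u / (vl (R * S) u * vl Q₂ u)))‖ ≤
    ‖(p : C)‖ ^ 2 →
  e ^ p ^ B = e

section

variable {C : Type} [NormedField C] [IsUltrametricDist C] [CompleteSpace C] [CharZero C]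
  [IsAlgClosed C] {p d n : ℕ} [hpf : Fact p.Prime] {φ : QA →+* C} {f H : Fin n → ℤ[X]} {g : ℤ[X]}
  {m : ℤ} {u : QA} {X : Fin n → QA} {S : Fin n → Prop} (T : PT2 p d φ f H g m u X S)

include T

/-- the correction term as a quotient of polynomials -/
theorem PT2.tm {j l : Fin n} (hj : S j) (hl : S l) {g' : ℕ} {ζ' ε : Cˣ}
    (h : PP2 p φ f H g m u X j l g' 0 ζ' ε) {z m₁ : ℤ} (hz : φ (iA (cj 1)) = z)
    (hm : m = p * m₁) :
    ‖vl (f l * H j) (φ u) / vl (f j * H l) (φ u) * ζ' - (1 + p *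
      (vl (Polynomial.C (z * m₁) * (g * (H j * (H l * (f j * H l - f l * H j))))) (φ u) /
        (vl (f l * H j) (φ u) * vl (f j * H l) (φ u))))‖ ≤ ‖(p : C)‖ ^ 2 := by
  have hε : (ε : C) = 1 := by
    have := h.hε.pow_eq_one
    simpa using this
  have e1 := h.hexp
  rw [hz, hm, Int.cast_mul, Int.cast_natCast, Units.val_mul, hε, mul_one] at e1
  have hC : ∀ (y : ℤ) (w : C), vl (Polynomial.C y) w = y := by
    intro y w
    unfold vl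
    rw [eval₂_C]
    rfl
  have hfj := T.f0 hj
  have hfl := T.f0 hl
  have hHj := T.H0 hj
  have hHl := T.H0 hl
  have e2 : (z : C) * (p * m₁ * vl g (φ u) * (vl (H l) (φ u) * (vl (f l) (φ u))⁻¹ -
      vl (H j) (φ u) * (vl (f j) (φ u))⁻¹)) = p *
      (vl (Polynomial.C (z * m₁) * (g * (H j * (H l * (f j * H l - f l * H j))))) (φ u) /
        (vl (f l * H j) (φ u) * vl (f j * H l) (φ u))) := by
    rw [vl_mul, vl_mul g, vl_mul (H j), vl_mul (H l) (f j * H l - f l * H j), vl_sub, vl_mul (f j),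
      vl_mul (f l), hC]
    generalize vl (f j) (φ u) = fj at *
    generalize vl (f l) (φ u) = fl at *
    generalize vl (H j) (φ u) = Hj at *
    generalize vl (H l) (φ u) = Hl at *
    generalize vl g (φ u) = gg at *
    push_cast
    field_simp
  rw [e2] at e1
  exact e1

/-- two tame relations -/
theorem PT2.tame {B : ℕ} (hB : TB2 p (6 * d) B) {e : C} (he : ∃ f : ℕ, 0 < f ∧ e ^ p ^ f = e)
    (hue : ‖φ u - e‖ < 1)
    {j l j' l' : Fin n} (hj : S j) (hl : S l) (hj' : S j') (hl' : S l') (hjl : j ≠ l)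
    (hjl' : j' ≠ l') (h1 : l' ≠ j) (h2 : l' ≠ l)
    {g' : ℕ} {ζ' ε : Cˣ} (h : PP2 p φ f H g m u X j l g' 0 ζ' ε)
    {g'' : ℕ} {ζ'' ε' : Cˣ} (h' : PP2 p φ f H g m u X j' l' g'' 0 ζ'' ε') : e ^ p ^ B = e := by
  obtain ⟨z, hz⟩ := cj_int' φ 1
  obtain ⟨m₁, hm₁⟩ := T.pm
  have hd : ∀ i k, (f i * H k).natDegree ≤ 6 * d := fun i k => (T.good.deg i k).trans (by omega)
  have hc : ∀ i k, (Polynomial.C (z * m₁) * (g * (H i * (H k * (f i * H k - f k * H i))))).natDegree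
      ≤ 6 * d := by
    intro i k
    refine (natDegree_C_mul_le _ _).trans ?_
    refine natDegree_mul_le.trans ?_
    have h3 : (H i * (H k * (f i * H k - f k * H i))).natDegree ≤ 4 * d := by
      refine natDegree_mul_le.trans ?_
      have h4 : (H k * (f i * H k - f k * H i)).natDegree ≤ 3 * d := by
        refine natDegree_mul_le.trans ?_
        have h5 : (f i * H k - f k * H i).natDegree ≤ 2 * d :=
          (natDegree_sub_le _ _).trans (max_le (T.good.deg i k) (T.good.deg k i))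
        have := T.good.degH k
        omega
      have := T.good.degH i
      omega
    have := T.degg
    omega
  refine hB C T.hp0 T.hp1 (f l * H j) (f j * H l) (f l') (H j') (f j' * H l') _ _ (hd l j)
    (hd j l) (hd l' j') (hd j' l') (hc j l) (hc j' l') (T.good.wr_ne hjl) (T.good.pos l')
    (T.good.sep l') (T.good.copH l' j') ?_ ?_ ?_ (φ u) e T.u1 he hue (T.nP hl hj) (T.nP hj hl)
    (T.nP hl' hj') (T.nP hj' hl') ζ' ζ'' (fixed_of_pow_eq_one h.hcop h.hζ.pow_eq_one)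
    (fixed_of_pow_eq_one h'.hcop h'.hζ.pow_eq_one) (T.tm hj hl h hz hm₁) (T.tm hj' hl' h' hz hm₁)
  · rw [rd_mul]
    exact (T.good.cop l' j' hjl'.symm).mul_right (T.good.copH l' l')
  · rw [rd_mul]
    exact (T.good.cop l' l h2).mul_right (T.good.copH l' j)
  · rw [rd_mul]
    exact (T.good.cop l' j h1).mul_right (T.good.copH l' l)

/-- the order of the tame root of unity -/
theorem PT2.ord {e : C} (he1 : ‖e‖ ≤ 1) (hue : ‖φ u - e‖ < 1) {B : ℕ} (hB : 0 < B)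
    (he : e ^ p ^ B = e) {j l : Fin n} (hj : S j) (hl : S l)
    {g' s : ℕ} {ζ' ε : Cˣ} (h : PP2 p φ f H g m u X j l g' s ζ' ε) : g' ≤ p ^ B := by
  refine order_bound T.hp1 T.u1 he1 hue hB he (T.nP hl hj) (T.nP hj hl) h.hg h.hcop h.hζ ?_
  have h1 := T.mod hj hl h
  have h2 : ‖(ε : C) - 1‖ < 1 := ppow_root_lt T.hp1 h.hε.pow_eq_one
  have h3 : ‖vl (f l * H j) (φ u) / vl (f j * H l) (φ u) * (ζ' : C)‖ = 1 := by
    rw [norm_mul, norm_div, T.nP hl hj, T.nP hj hl, h.nζ, div_one, mul_one]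
  have e1 : vl (f l * H j) (φ u) / vl (f j * H l) (φ u) * (ζ' : C) - 1 =
      (vl (f l * H j) (φ u) / vl (f j * H l) (φ u) * ((ζ' * ε : Cˣ) : C) - 1) -
        vl (f l * H j) (φ u) / vl (f j * H l) (φ u) * (ζ' : C) * ((ε : C) - 1) := by
    rw [Units.val_mul]
    ring
  rw [e1]
  refine nsub_lt (h1.trans_lt T.hp1) ?_
  rw [norm_mul, h3, one_mul]
  exact h2

/-- wild torsion: the point is not very near -/
theorem PT2.far (hN : S_NEAR) {e : C} (he : e ∈ Nr C p) (hue : ‖φ u - e‖ < 1)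
    {j l : Fin n} (hj : S j) (hl : S l)
    {g' t : ℕ} {ζ' ε : Cˣ} (h : PP2 p φ f H g m u X j l g' (t + 1) ζ' ε) :
    ‖(p : C)‖ < ‖φ u - e‖ := by
  obtain ⟨F₁, hF₁⟩ := T.exF hj hl
  have h1 := hN C p T.hp0 T.hp1 (f l * H j) (f j * H l) (φ u) e T.u1 he hue (T.nP hl hj)
    (T.nP hj hl) F₁ hF₁ ε (ppow_root_lt T.hp1 h.hε.pow_eq_one) ‖(p : C)‖ (norm_nonneg _) T.hp1
    le_rfl (T.gg hj hl h hF₁)
  have h2 := (T.wfar h.hε).2.1
  rcases le_max_iff.1 h1 with h3 | h3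
  · exact h2.trans_le h3
  · exact absurd h2 (not_lt.2 h3)

end

end Pool.Agent.Q170.PO
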