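import Pool.Agent.Q170.PO.Px2
import Pool.Agent.Q170.PO.Loc4

/-!
# The exceptional coordinate, general denominators
-/

set_option autoImplicit false
set_option linter.unusedSectionVars false

open UpperHalfPlane H294ZP Polynomial

namespace Pool.Agent.Q170.PO

open Pool.Agent.Y226 Pool.Agent.Y226.ZG Pool.Agent.Y226.ZM

section gen

variable {C : Type} [NormedField C] [IsUltrametricDist C]
variable {p : ℕ} [hpf : Fact p.Prime]

/-- a simple root: the norm of the value -/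
theorem root_norm (hp1 : ‖(p : C)‖ < 1) {π : ℤ[X]}
    (hs : IsCoprime (rd p π) (derivative (rd p π))) {v e : C} (hv : ‖v‖ ≤ 1) (he : e ∈ Nr C p)
    (hve : ‖v - e‖ < 1) (h : ‖vl π v‖ < 1) (hfar : ‖(p : C)‖ < ‖v - e‖) :
    ‖vl π v‖ = ‖v - e‖ := by
  obtain ⟨-, h2, h3⟩ := simple_root hp1 hs hv he hve h
  have h4 : ‖vl (derivative π) e * (v - e)‖ = ‖v - e‖ := by rw [norm_mul, h2, one_mul]
  rw [← h4]
  refine neq_of_sub_lt (h3.trans_lt ?_)
  rw [h4]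
  refine max_lt hfar ?_
  have h0 : 0 < ‖v - e‖ := (norm_nonneg _).trans_lt hfar
  calc ‖v - e‖ ^ 2 = ‖v - e‖ * ‖v - e‖ := sq _
    _ < ‖v - e‖ * 1 := by gcongr
    _ = _ := mul_one _

/-- the local parameter and the value at a simple root -/
theorem root_param (hp1 : ‖(p : C)‖ < 1) {π : ℤ[X]}
    (hs : IsCoprime (rd p π) (derivative (rd p π))) {v e : C} (hv : ‖v‖ ≤ 1) (he : e ∈ Nr C p)
    (hve : ‖v - e‖ < 1) (h : ‖vl π v‖ < 1) :
    ∃ κ ∈ Nr C p, ‖κ‖ = 1 ∧ ‖(v - e) - κ * vl π v‖ ≤ max ‖(p : C)‖ (‖v - e‖ ^ 2) := by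
  obtain ⟨-, h2, h3⟩ := simple_root hp1 hs hv he hve h
  have hc0 : vl (derivative π) e ≠ 0 := norm_pos_iff.1 (by rw [h2]; exact one_pos)
  refine ⟨(vl (derivative π) e)⁻¹, Nr_inv (vl_Nr _ he) h2, by rw [norm_inv, h2, inv_one], ?_⟩
  have e1 : (v - e) - (vl (derivative π) e)⁻¹ * vl π v =
      -((vl (derivative π) e)⁻¹ * (vl π v - vl (derivative π) e * (v - e))) := by
    field_simp
    ring
  rw [e1, norm_neg]
  exact nmul_le (by rw [norm_inv, h2, inv_one]) h3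

/-- the residue class of a root -/
theorem root_field (hp1 : ‖(p : C)‖ < 1) {π : ℤ[X]} {d : ℕ} (hd : π.natDegree ≤ d)
    (hs : IsCoprime (rd p π) (derivative (rd p π))) {v e : C} (hv : ‖v‖ ≤ 1)
    (he : ∃ f : ℕ, 0 < f ∧ e ^ p ^ f = e) (hve : ‖v - e‖ < 1) (h : ‖vl π v‖ < 1) :
    e ^ p ^ d.factorial = e := by
  obtain ⟨k, _, _, red, hker⟩ := exists_residue (C := C) (p := p) hp1
  have heN : e ∈ Nr C p := by
    obtain ⟨f, hf, hf'⟩ := he
    exact Nr_of_fixed hf hf'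
  have he1 : ‖e‖ ≤ 1 := Nr_le heN
  refine fixed_of_red red hker hp1 he1 he ?_
  have h0 : rd p π ≠ 0 := by
    intro h0
    rw [h0, derivative_zero, isCoprime_zero_left] at hs
    exact not_isUnit_zero hs
  refine root_bound h0 (natDegree_map_le.trans hd) ?_
  rw [← vl_rd, ← vl_map, hker, vl_OO]
  exact (simple_root hp1 hs hv heN hve h).1.trans_lt hp1

/-- two polynomials which are not proportional modulo `p` -/
theorem coeff_unit2 (hp1 : ‖(p : C)‖ < 1) {P R Q : ℤ[X]} (hc : IsCoprime (rd p R) (rd p P))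
    (h0 : 0 < (rd p R).natDegree) {w : C} (hw : ‖w‖ ≤ 1) :
    ∃ i, ‖(P.map (Int.castRingHom C) -
      Polynomial.C w * (R * Q).map (Int.castRingHom C)).coeff i‖ = 1 := by
  obtain ⟨k, _, _, red, hker⟩ := exists_residue (C := C) (p := p) hp1
  by_contra hcon
  push Not at hcon
  have h1 : ∀ i, ‖((P.coeff i : ℤ) : C) - w * (((R * Q).coeff i : ℤ) : C)‖ < 1 := by
    intro i
    have h2 := hcon i
    rw [coeff_sub, coeff_C_mul, coeff_map, coeff_map] at h2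
    exact lt_of_le_of_ne (nsub_le (nint _) (nmul_le hw (nint _))) h2
  have h2 : (rd p P).map (ZMod.castHom dvd_rfl k) =
      Polynomial.C (red ⟨w, hw⟩) * (rd p (R * Q)).map (ZMod.castHom dvd_rfl k) := by
    ext i
    rw [coeff_C_mul, coeff_map, coeff_map]
    unfold rd
    rw [coeff_map, coeff_map]
    have h3 : red ((P.coeff i : OO C) - ⟨w, hw⟩ * ((R * Q).coeff i : OO C)) = 0 := by
      rw [hker]
      exact h1 i
    rw [map_sub, map_mul, map_intCast, map_intCast, sub_eq_zero] at h3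
    simpa using h3
  have h4 := hc.map (mapRingHom (ZMod.castHom dvd_rfl k))
  rw [coe_mapRingHom, h2, rd_mul, Polynomial.map_mul] at h4
  have h5 : IsUnit ((rd p R).map (ZMod.castHom dvd_rfl k)) :=
    h4.isUnit_of_dvd' dvd_rfl (dvd_mul_of_dvd_right (dvd_mul_right _ _) _)
  have h6 := natDegree_eq_zero_of_isUnit h5
  rw [natDegree_map] at h6
  omega

/-- the contact of a quotient with a parameter -/
theorem contact3 (hp1 : ‖(p : C)‖ < 1) {P Q : ℤ[X]} {D : ℕ} (hPD : P.natDegree ≤ D)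
    (hQD : Q.natDegree ≤ D) (hun : ∀ w : C, ‖w‖ ≤ 1 → ∃ i, ‖(P.map (Int.castRingHom C) -
      Polynomial.C w * Q.map (Int.castRingHom C)).coeff i‖ = 1)
    {v e : C} (hv : ‖v‖ ≤ 1) (he : e ∈ Nr C p) (hve : ‖v - e‖ < 1) (hP : ‖vl P v‖ = 1)
    (hQ : ‖vl Q v‖ = 1) {κ η : C} (hκN : κ ∈ Nr C p) (hκ1 : ‖κ‖ = 1) (hηn : ‖η‖ = ‖v - e‖)
    (hκη : ‖(v - e) - κ * η‖ ≤ max ‖(p : C)‖ (‖v - e‖ ^ 2)) :
    ∃ r, 0 < r ∧ r ≤ D ∧ ∃ w₀ ∈ Nr C p, ∃ w ∈ Nr C p, ‖w‖ = 1 ∧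
      ‖vl P v / vl Q v - w₀ - w * η ^ r‖ ≤ max ‖(p : C)‖ (‖η‖ ^ (r + 1)) := by
  have he1 := Nr_le he
  have hPe : ‖vl P e‖ = 1 := vl_norm_e hv he1 hve hP
  have hQe : ‖vl Q e‖ = 1 := vl_norm_e hv he1 hve hQ
  have hQe0 : vl Q e ≠ 0 := norm_pos_iff.1 (by rw [hQe]; exact one_pos)
  have hQ0 : vl Q v ≠ 0 := norm_pos_iff.1 (by rw [hQ]; exact one_pos)
  obtain ⟨w₀, hw₀, hw₀N, hw₀1⟩ : ∃ w₀, w₀ = vl P e / vl Q e ∧ w₀ ∈ Nr C p ∧
      ‖w₀‖ = 1 := by
    refine ⟨_, rfl, ?_, ?_⟩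
    · rw [div_eq_mul_inv]
      exact mul_mem (vl_Nr _ he) (Nr_inv (vl_Nr _ he) hQe)
    · rw [norm_div, hPe, hQe, div_one]
  obtain ⟨E, hE⟩ : ∃ E : C[X], E = P.map (Int.castRingHom C) -
      Polynomial.C w₀ * Q.map (Int.castRingHom C) := ⟨_, rfl⟩
  have hEv : ∀ y : C, E.eval y = vl P y - w₀ * vl Q y := by
    intro y
    rw [hE, eval_sub, eval_mul, eval_C, ← vl_eq_eval, ← vl_eq_eval]
  have hEN : E ∈ PS (Nr C p) := by
    rw [hE]
    exact sub_mem (map_PS _) (mul_mem (C_mem_PS hw₀N) (map_PS _))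
  have hED : E.natDegree ≤ D := by
    rw [hE]
    refine (natDegree_sub_le _ _).trans (max_le ?_ ?_)
    · exact natDegree_map_le.trans hPD
    · refine (natDegree_C_mul_le _ _).trans ?_
      exact natDegree_map_le.trans hQD
  have hunit : ∃ i, ‖E.coeff i‖ = 1 := by
    rw [hE]
    exact hun w₀ hw₀1.le
  obtain ⟨r, hrD, w', hw'N, hw'1, hcon⟩ := contact2 hp1 hEN hED hunit he hve
  have hEe : E.eval e = 0 := by
    rw [hEv, hw₀, div_mul_cancel₀ _ hQe0, sub_self]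
  have hr0 : 0 < r := by
    rcases Nat.eq_zero_or_pos r with h1 | h1
    · exfalso
      rw [h1, pow_zero, mul_one, zero_add, pow_one] at hcon
      have h2 : ‖E.eval v‖ = 1 := neq_one (hcon.trans_lt (max_lt hp1 hve)) hw'1
      have h3 : ‖E.eval v‖ ≤ ‖v - e‖ := by
        have e1 : E.eval v = E.eval v - E.eval e := by rw [hEe, sub_zero]
        rw [e1, hEv, hEv]
        have e2 : vl P v - w₀ * vl Q v - (vl P e - w₀ * vl Q e) =
            (vl P v - vl P e) - w₀ * (vl Q v - vl Q e) := by ring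
        rw [e2]
        exact nsub_le (vl_sub_le _ hv he1) (nmul_le hw₀1.le (vl_sub_le _ hv he1))
      rw [h2] at h3
      exact absurd hve (not_lt.2 h3)
    · exact h1
  refine ⟨r, hr0, hrD, w₀, hw₀N, w' * (vl Q e)⁻¹ * κ ^ r,
    mul_mem (mul_mem hw'N (Nr_inv (vl_Nr _ he) hQe)) (pow_mem hκN _), ?_, ?_⟩
  · rw [norm_mul, norm_mul, norm_pow, norm_inv, hw'1, hQe, hκ1, inv_one, one_pow, mul_one, mul_one]
  have hsub := vl_sub_le Q hv he1
  have hinv := inv_sub_le hQ hQe hsub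
  rw [hEv] at hcon
  have hue1 := hve.le
  generalize v - e = h at *
  generalize vl Q v = fj at *
  generalize vl Q e = fe at *
  generalize vl P v = fl at *
  have hκηn : ‖κ * η‖ = ‖h‖ := by rw [norm_mul, hκ1, one_mul, hηn]
  have hpw : ‖h ^ r - (κ * η) ^ r‖ ≤ max ‖(p : C)‖ (‖h‖ ^ (r + 1)) := by
    refine (pow_sub_small rfl hκηn hκη hr0).trans ?_
    rw [max_mul_of_nonneg _ _ (pow_nonneg (norm_nonneg _) _)]
    refine max_le_max ?_ ?_
    · exact mul_le_of_le_one_right (norm_nonneg _) (pow_le_one₀ (norm_nonneg _) hue1)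
    · rw [← pow_add]
      have e1 : 2 + (r - 1) = r + 1 := by omega
      rw [e1]
  rw [hηn]
  have e1 : fl / fj - w₀ - w' * fe⁻¹ * κ ^ r * η ^ r =
      (fl - w₀ * fj - w' * h ^ r) * fj⁻¹ + w' * fj⁻¹ * (h ^ r - (κ * η) ^ r) +
      w' * (κ * η) ^ r * (fj⁻¹ - fe⁻¹) := by
    have e2 : fl / fj - w₀ = (fl - w₀ * fj) * fj⁻¹ := by
      field_simp
    rw [e2, mul_pow]
    ring
  rw [e1]
  have hji : ‖fj⁻¹‖ = 1 := by rw [norm_inv, hQ, inv_one]
  refine nadd_le (nadd_le ?_ ?_) ?_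
  · exact nmul_le' hcon hji.le
  · exact nmul_le (by rw [norm_mul, hw'1, hji, one_mul]) hpw
  · refine le_trans ?_ (le_max_right _ _)
    rw [norm_mul, norm_mul, hw'1, one_mul, norm_pow, hκηn, pow_succ]
    exact mul_le_mul_of_nonneg_left hinv (pow_nonneg (norm_nonneg _) _)

end gen

/-- the exceptional coordinate at one place -/
structure EX {C : Type} [NormedField C] (p d : ℕ) {n : ℕ} (φ : QA →+* C) (f H : Fin n → ℤ[X])
    (g : ℤ[X]) (m : ℤ) (u : QA) (X : Fin n → QA) (a : Fin n) (π Fa : ℤ[X]) (k : ℕ) (k' : ℤ) :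
    Prop where
  hg : g = π ^ k
  deg : π.natDegree ≤ d
  sep : IsCoprime (rd p π) (derivative (rd p π))
  small : ‖vl π (φ u)‖ < 1
  kk : (k : ℤ) ≠ k'
  kd : k ≤ d
  kd' : k' ≤ d
  neg : k' < 0 → k = 0 ∧ k' = -1
  hFa : k ≠ 0 → Fa = f a
  nF : ‖vl Fa (φ u)‖ = 1
  nH : ‖vl (H a) (φ u)‖ = 1
  hX : X a = vl Fa u * vl π u ^ (-k') / (m * vl (H a) u)

section

variable {C : Type} [NormedField C] [IsUltrametricDist C] [CompleteSpace C] [CharZero C]
  [IsAlgClosed C] {p d n : ℕ} [hpf : Fact p.Prime] {φ : QA →+* C} {f H : Fin n → ℤ[X]} {g : ℤ[X]}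
  {m : ℤ} {u : QA} {X : Fin n → QA} {a : Fin n} {π Fa : ℤ[X]} {k : ℕ} {k' : ℤ}
  (T : PT2 p d φ f H g m u X (fun i => i ≠ a)) (E : EX p d φ f H g m u X a π Fa k k')

include T E

theorem EX.φX : φ (X a) = vl Fa (φ u) * vl π (φ u) ^ (-k') / (m * vl (H a) (φ u)) := by
  rw [E.hX, map_div₀, map_mul, map_mul, map_intCast, map_zpow₀, vl_map, vl_map, vl_map]

theorem EX.nX : ‖φ (X a)‖ = ‖vl π (φ u)‖ ^ (-k') * ‖(m : C)‖⁻¹ := by
  rw [E.φX T, norm_div, norm_mul, norm_mul, E.nF, E.nH, norm_zpow, one_mul, mul_one,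
    div_eq_mul_inv]

/-- an integral coordinate -/
theorem EX.c2 (hN : S_NEAR) {e : C} (he : e ∈ Nr C p) (hue : ‖φ u - e‖ < 1)
    {j l : Fin n} (hj : j ≠ a) (hl : l ≠ a) (hXa : ‖φ (X a)‖ ≤ 1)
    {g' s : ℕ} {ζ' ε : Cˣ} (h : PP2 p φ f H g m u X j l g' s ζ' ε) : s = 0 := by
  by_contra h0
  obtain ⟨t, rfl⟩ : ∃ t, s = t + 1 := ⟨s - 1, by omega⟩
  have hfar := T.far hN he hue hj hl h
  have h1 := root_norm T.hp1 E.sep T.u1 he hue E.small hfar
  have hπ0 : 0 < ‖vl π (φ u)‖ := by rw [h1]; exact T.hp0.trans hfar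
  have hm0 : 0 < ‖(m : C)‖ := norm_pos_iff.2 T.mC0
  rw [E.nX T, ← div_eq_mul_inv, div_le_one hm0] at hXa
  have hk' : k' < 0 := by
    by_contra hk
    push Not at hk
    have h3 : 1 ≤ ‖vl π (φ u)‖ ^ (-k') := by
      rw [zpow_neg, one_le_inv₀ (zpow_pos hπ0 _)]
      obtain ⟨q, hq⟩ := Int.eq_ofNat_of_zero_le hk
      rw [hq, zpow_natCast]
      exact pow_le_one₀ hπ0.le E.small.le
    exact absurd (h3.trans hXa) (not_le.2 (T.mn.trans_lt T.hp1))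
  obtain ⟨-, h4⟩ := E.neg hk'
  rw [h4, neg_neg, zpow_one, h1] at hXa
  exact absurd hfar (not_lt.2 (hXa.trans T.mn))

theorem EX.root {e : C} (he : ∃ f : ℕ, 0 < f ∧ e ^ p ^ f = e)
    (hue : ‖φ u - e‖ < 1) : e ^ p ^ d.factorial = e :=
  root_field T.hp1 E.deg E.sep T.u1 he hue E.small

end

end Pool.Agent.Q170.PO
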