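import Pool.Agent.Q170.PO.Px3
import Pool.Agent.Q170.PO.Exc

/-!
# The exceptional coordinate bounds wild torsion, general denominators
-/

set_option autoImplicit false
set_option linter.unusedSectionVars false

open UpperHalfPlane H294ZP Polynomial

namespace Pool.Agent.Q170.PO

open Pool.Agent.Y226 Pool.Agent.Y226.ZG Pool.Agent.Y226.ZM

section

variable {C : Type} [NormedField C] [IsUltrametricDist C] [CompleteSpace C] [CharZero C]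
  [IsAlgClosed C] {p d n : ℕ} [hpf : Fact p.Prime] {φ : QA →+* C} {f H : Fin n → ℤ[X]} {g : ℤ[X]}
  {m : ℤ} {u : QA} {X : Fin n → QA}

section T2

variable {S : Fin n → Prop} (T : PT2 p d φ f H g m u X S)

include T

/-- the factor prime to `p` -/
theorem PT2.mfac : ∃ (e : ℕ) (m' : ℤ), 0 < e ∧ m = p ^ e * m' ∧ ‖(m' : C)‖ = 1 := by
  have hfin : FiniteMultiplicity (p : ℤ) m := by
    rw [Int.finiteMultiplicity_iff]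
    refine ⟨?_, T.m0⟩
    rw [Int.natAbs_natCast]
    exact hpf.out.ne_one
  obtain ⟨m', hm', hnd⟩ := hfin.exists_eq_pow_mul_and_not_dvd
  refine ⟨multiplicity (p : ℤ) m, m', ?_, hm', int_unit T.hp1 hnd⟩
  rw [Nat.pos_iff_ne_zero]
  intro h0
  rw [h0, pow_zero, one_mul] at hm'
  exact hnd (hm' ▸ T.pm)

/-- the unit part of powers of `1 / m` -/
theorem PT2.lam : ∃ (e : ℕ) (pu : Cˣ), 0 < e ∧ (pu : C) = p ∧ ∀ (M : Cˣ), (M : C) = m →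
    ∀ w : ℕ, M⁻¹ ^ w * pu ^ ((w : ℤ) * e) ∈ GG C p 0 le_rfl one_pos := by
  obtain ⟨e, m', he, hm, hm'⟩ := T.mfac
  have hpC : (p : C) ≠ 0 := norm_pos_iff.1 T.hp0
  have hm'0 : (m' : C) ≠ 0 := norm_pos_iff.1 (by rw [hm']; exact one_pos)
  refine ⟨e, Units.mk0 (p : C) hpC, he, rfl, ?_⟩
  intro M hM w
  have h1 : M⁻¹ * Units.mk0 (p : C) hpC ^ e ∈ GG C p 0 le_rfl one_pos := by
    refine ⟨(m' : C)⁻¹, Nr_inv (intCast_mem _ _) hm', by rw [norm_inv, hm', inv_one], ?_⟩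
    have e1 : ((M⁻¹ * Units.mk0 (p : C) hpC ^ e : Cˣ) : C) = (m' : C)⁻¹ := by
      rw [Units.val_mul, Units.val_inv_eq_inv_val, hM,
        Units.val_pow_eq_pow_val, Units.val_mk0, hm, Int.cast_mul, Int.cast_pow,
        Int.cast_natCast]
      have := pow_ne_zero e hpC
      field_simp
    rw [e1, sub_self, norm_zero]
  have h2 := pow_mem h1 w
  rw [mul_pow, ← pow_mul] at h2
  have h3 : (Units.mk0 (p : C) hpC) ^ ((w : ℤ) * e) = (Units.mk0 (p : C) hpC) ^ (e * w) := by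
    rw [mul_comm e w, ← zpow_natCast, Nat.cast_mul]
  rw [h3]
  exact h2

theorem PT2.finish (hW : S_WILD) {e : C} (he : e ∈ Nr C p) (hue : ‖φ u - e‖ < 1)
    {j l : Fin n} (hj : S j) (hl : S l) (hjl : j ≠ l)
    {g' t : ℕ} {ζ' ε : Cˣ} (h : PP2 p φ f H g m u X j l g' (t + 1) ζ' ε)
    {κ : C} {η : Cˣ} (hκN : κ ∈ Nr C p) (hκ1 : ‖κ‖ = 1) (hηn : ‖(η : C)‖ = ‖φ u - e‖)
    (hκη : ‖(φ u - e) - κ * η‖ ≤ max ‖(p : C)‖ (‖φ u - e‖ ^ 2))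
    {Yl : Cˣ} (hη1 : ‖(η : C)‖ < 1) (hYl : Yl ∈ GG C p ‖(η : C)‖ (norm_nonneg _) hη1)
    {μ : ℤ} (hμ0 : μ ≠ 0) (hμ : μ.natAbs ≤ d) {wl : ℕ} (hwl : 0 < wl) (hwl' : wl ≤ d)
    {M qi ql : Cˣ} (hM : (M : C) = m)
    (hqi : ‖((qi * M⁻¹ * η ^ μ : Cˣ) : C) - 1‖ ≤ ‖(p : C)‖ * ‖((η ^ μ : Cˣ) : C)‖⁻¹)
    (hql : ‖((ql * M⁻¹ ^ wl * Yl : Cˣ) : C) - 1‖ ≤ ‖(p : C)‖)
    {A B : ℕ} (hA : 0 < A) (hB : 0 < B) {ζ : Cˣ} {g₁ : ℕ} (hg₁ : 0 < g₁) (hζ : ζ ^ g₁ = 1)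
    (hrel : qi ^ B = ζ * ql ^ A)
    (hNW : ∀ c : ℤ, c ≠ 0 → c.natAbs ≤ d * d → ∃ P₂ Q₂ : ℤ[X], P₂.natDegree ≤ dd d ∧
      Q₂.natDegree ≤ dd d ∧ NW p (f l * H j) (f j * H l) P₂ Q₂ ∧ ‖vl P₂ (φ u)‖ = 1 ∧
      ‖vl Q₂ (φ u)‖ = 1 ∧ ((Yl ^ c : Cˣ) : C) * vl Q₂ (φ u) = vl P₂ (φ u)) : t ≤ 1 := by
  have hd := le_dd d
  obtain ⟨F, hF⟩ := T.exF hj hl
  have hj0 := T.P0 hj hl
  have hF' : (F : C) = vl (f l * H j) (φ u) / vl (f j * H l) (φ u) := by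
    rw [← hF, mul_div_cancel_right₀ _ hj0]
  obtain ⟨r, hr0, hrd, w₀, hw₀, w₁, hw₁, hw₁1, hcon⟩ := contact3 (D := 2 * d) T.hp1
    (T.good.deg l j) (T.good.deg j l)
    (fun w hw => coeff_unit2 T.hp1 (R := f j) (Q := H l) (by
      rw [rd_mul]
      exact (T.good.cop j l hjl).mul_right (T.good.copH j j)) (T.good.pos j) hw)
    T.u1 he hue (T.nP hl hj) (T.nP hj hl) hκN hκ1 hηn hκη
  obtain ⟨e₀, pu, he₀, hpu, hlam⟩ := T.lam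
  -- coprime exponents
  obtain ⟨q, hq⟩ : ∃ q, q = Nat.gcd A B := ⟨_, rfl⟩
  have hq0 : 0 < q := by
    rw [hq]
    exact Nat.gcd_pos_of_pos_left _ hA
  obtain ⟨A', hA'⟩ : q ∣ A := hq ▸ Nat.gcd_dvd_left _ _
  obtain ⟨B', hB'⟩ : q ∣ B := hq ▸ Nat.gcd_dvd_right _ _
  have hB'0 : 0 < B' := Nat.pos_of_ne_zero (by rintro rfl; simp at hB'; omega)
  have hcop : A'.Coprime B' := by
    have h1 : q * Nat.gcd A' B' = q * 1 := by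
      rw [← Nat.gcd_mul_left, ← hA', ← hB', mul_one, hq]
    exact Nat.eq_of_mul_eq_mul_left hq0 h1
  have hζ'' : (qi ^ B' * (ql ^ A')⁻¹) ^ (q * g₁) = 1 := by
    have e1 : (qi ^ B' * (ql ^ A')⁻¹) ^ q = qi ^ B * (ql ^ A)⁻¹ := by
      rw [mul_pow, inv_pow, ← pow_mul, ← pow_mul, mul_comm B' q, mul_comm A' q, ← hB', ← hA']
    rw [pow_mul, e1, hrel, mul_assoc, mul_inv_cancel, mul_one, hζ]
  have hrel' : qi ^ B' = (qi ^ B' * (ql ^ A')⁻¹) * ql ^ A' := by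
    rw [mul_assoc, inv_mul_cancel, mul_one]
  have key := wild_exc (D := 2 * d) (D₂ := 4 * dd d) (N := d) (W := d) (s := t)
    T.big1 (by have := T.big3; omega) (by have := T.big3; omega) (by have := T.big3; omega)
    T.hp0 T.hp1 (η := η) (F := F) (Yl := Yl) (ε₁ := ε) hη1 hr0 hrd hw₀ hw₁
    hw₁1 (by rw [hF']; exact hcon) h.hε (T.gg hj hl h hF) hYl (μ := μ) hμ0
    hμ (Λa := M⁻¹) (Λl := M⁻¹ ^ wl) (wa := 1) (wl := wl) he₀ one_pos hwl hwl' hpu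
    (by
      have := hlam M hM 1
      rwa [pow_one] at this) (hlam M hM wl)
    (qi := qi) (ql := ql) hqi hql hcop hB'0 (Nat.mul_pos hq0 hg₁) hζ'' hrel' ?_
  · exact key
  · intro c₀ hc₀ hc₁ ε₂ hε₂ τ₀ h0 h1 hpτ hG₁ hG₂
    obtain ⟨P₂, Q₂, hP₂, hQ₂, hnw, hnP, hnQ, hY⟩ := hNW c₀ hc₀ hc₁
    exact hW C p T.p2 T.hp0 T.hp1 (dd d) (dd_pos T.d0) (f l * H j) (f j * H l) P₂ Q₂
      ((T.good.deg l j).trans hd) ((T.good.deg j l).trans hd) hP₂ hQ₂ hnw (φ u) e T.u1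
      he hue (T.nP hl hj) (T.nP hj hl) hnP hnQ F (Yl ^ c₀) hF hY t ε ε₂ h.hε hε₂ τ₀ h0 h1 hpτ
      hG₁ hG₂

end T2

end

end Pool.Agent.Q170.PO
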