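import Pool.Agent.Q170.PO.Px4

/-!
# The exceptional coordinate bounds wild torsion, general denominators, second part
-/

set_option autoImplicit false
set_option linter.unusedSectionVars false

open UpperHalfPlane H294ZP Polynomial

namespace Pool.Agent.Q170.PO

open Pool.Agent.Y226 Pool.Agent.Y226.ZG Pool.Agent.Y226.ZM

section gen

variable {C : Type} [NormedField C] [IsUltrametricDist C] [CompleteSpace C] [CharZero C]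
  [IsAlgClosed C] {p : ℕ} [hpf : Fact p.Prime]

/-- a root of a unit which is congruent to an almost unramified one -/
theorem exists_omega (hRoot : S_ROOT) (hp0 : 0 < ‖(p : C)‖) (hp1 : ‖(p : C)‖ < 1) {δ : ℝ}
    (hδ0 : 0 ≤ δ) (hδ1 : δ < 1) (hδ : ‖(p : C)‖ ≤ δ) {U : Cˣ} (hU : U ∈ GG C p δ hδ0 hδ1)
    {μ : ℤ} (hμ0 : μ ≠ 0) (hμ : μ.natAbs < p) :
    ∃ ω : Cˣ, ω ^ μ = U ∧ ∃ ω₀ ∈ Nr C p, ‖ω₀‖ = 1 ∧ ‖(ω : C) - ω₀‖ ≤ δ := by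
  have key : ∀ (V : Cˣ), V ∈ GG C p δ hδ0 hδ1 → ∀ N : ℕ, 0 < N → N < p →
      ∃ ω : Cˣ, ω ^ N = V ∧ ∃ ω₀ ∈ Nr C p, ‖ω₀‖ = 1 ∧ ‖(ω : C) - ω₀‖ ≤ δ := by
    intro V hV N hN hNp
    obtain ⟨w, hw⟩ := IsAlgClosed.exists_pow_nat_eq (V : C) hN
    have hw0 : w ≠ 0 := by
      rintro rfl
      rw [zero_pow hN.ne'] at hw
      exact V.ne_zero hw.symm
    obtain ⟨ν, hν, hν1, hνd⟩ := hV
    refine ⟨Units.mk0 w hw0, Units.ext (by rw [Units.val_pow_eq_pow_val, Units.val_mk0, hw]), ?_⟩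
    exact hRoot C p hp0 hp1 N hN hNp w ν hν hν1 δ hδ hδ1 (by rw [hw]; exact hνd)
  rcases Int.natAbs_eq μ with h | h
  · obtain ⟨ω, h1, h2⟩ := key U hU μ.natAbs (Int.natAbs_pos.2 hμ0) hμ
    refine ⟨ω, ?_, h2⟩
    rw [h, zpow_natCast, h1]
  · obtain ⟨ω, h1, h2⟩ := key U⁻¹ (inv_mem hU) μ.natAbs (Int.natAbs_pos.2 hμ0) hμ
    refine ⟨ω, ?_, h2⟩
    rw [h, zpow_neg, zpow_natCast, h1, inv_inv]

/-- quotients of values are congruent to almost unramified units -/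
theorem quot_GG {P Q : ℤ[X]} {v e : C} (hv : ‖v‖ ≤ 1) (he : e ∈ Nr C p) (hve : ‖v - e‖ < 1)
    (hP : ‖vl P v‖ = 1) (hQ : ‖vl Q v‖ = 1) {U : Cˣ} (hU : (U : C) * vl Q v = vl P v) :
    U ∈ GG C p ‖v - e‖ (norm_nonneg _) hve := by
  have he1 := Nr_le he
  have hPe : ‖vl P e‖ = 1 := vl_norm_e hv he1 hve hP
  have hQe : ‖vl Q e‖ = 1 := vl_norm_e hv he1 hve hQ
  have hQ0 : vl Q v ≠ 0 := norm_pos_iff.1 (by rw [hQ]; exact one_pos)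
  refine ⟨vl P e * (vl Q e)⁻¹, mul_mem (vl_Nr _ he) (Nr_inv (vl_Nr _ he) hQe), ?_, ?_⟩
  · rw [norm_mul, norm_inv, hPe, hQe, inv_one, mul_one]
  · have e1 : (U : C) = vl P v * (vl Q v)⁻¹ := by
      rw [← hU]
      field_simp
    rw [e1]
    exact nmul_sub_mul hP.le (by rw [norm_inv, hQe, inv_one]) (vl_sub_le _ hv he1)
      (inv_sub_le hQ hQe (vl_sub_le _ hv he1))

/-- the new parameter -/
theorem new_param {h κ ω₀ : C} {η₀ ω : Cˣ} (hκ1 : ‖κ‖ = 1) (hη₀ : ‖(η₀ : C)‖ = ‖h‖)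
    (hκη : ‖h - κ * η₀‖ ≤ max ‖(p : C)‖ (‖h‖ ^ 2)) (hω₀ : ‖ω₀‖ = 1)
    (hω : ‖(ω : C) - ω₀‖ ≤ ‖h‖) :
    ‖h - κ * ω₀⁻¹ * ((η₀ * ω : Cˣ) : C)‖ ≤ max ‖(p : C)‖ (‖h‖ ^ 2) := by
  have hω0 : ω₀ ≠ 0 := norm_pos_iff.1 (by rw [hω₀]; exact one_pos)
  have e1 : h - κ * ω₀⁻¹ * ((η₀ * ω : Cˣ) : C) =
      (h - κ * η₀) - κ * ω₀⁻¹ * (η₀ * ((ω : C) - ω₀)) := by
    rw [Units.val_mul]
    field_simp
    ring
  rw [e1]
  refine nsub_le hκη (le_trans ?_ (le_max_right _ _))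
  rw [norm_mul, norm_mul, norm_mul, norm_inv, hκ1, hω₀, inv_one, one_mul, one_mul, hη₀, sq]
  exact mul_le_mul_of_nonneg_left hω (norm_nonneg _)

end gen

section

variable {C : Type} [NormedField C] [IsUltrametricDist C] [CompleteSpace C] [CharZero C]
  [IsAlgClosed C] {p d n : ℕ} [hpf : Fact p.Prime] {φ : QA →+* C} {f H : Fin n → ℤ[X]} {g : ℤ[X]}
  {m : ℤ} {u : QA} {X : Fin n → QA} {a : Fin n} {π Fa : ℤ[X]} {k : ℕ} {k' : ℤ}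
  (T : PT2 p d φ f H g m u X (fun i => i ≠ a)) (E : EX p d φ f H g m u X a π Fa k k')

include T E

/-- the pair of polynomials of a monomial in two coordinates -/
theorem EX.nw {j l l' : Fin n} (hjl : j ≠ l) (hj : j ≠ a) (hl : l ≠ a) (hl' : l' ≠ a) {Ua Ul : Cˣ}
    (hUa : (Ua : C) * vl (H a) (φ u) = vl Fa (φ u))
    (hUl : (Ul : C) * vl (H l') (φ u) = vl (f l') (φ u)) {α β : ℕ} (hα : α ≤ d ^ 3)
    (hβ : β ≤ d ^ 3) (hαβ : 0 < α ∨ 0 < β) (hF : α ≠ 0 → Fa = f a) (W : Cˣ)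
    (hW : W = Ua ^ α * (Ul ^ β)⁻¹ ∨ W = (Ua ^ α * (Ul ^ β)⁻¹)⁻¹) :
    ∃ P₂ Q₂ : ℤ[X], P₂.natDegree ≤ dd d ∧
      Q₂.natDegree ≤ dd d ∧ NW p (f l * H j) (f j * H l) P₂ Q₂ ∧ ‖vl P₂ (φ u)‖ = 1 ∧
      ‖vl Q₂ (φ u)‖ = 1 ∧ (W : C) * vl Q₂ (φ u) = vl P₂ (φ u) := by
  have hb := T.big3
  have hdeg : ∀ (P Q : ℤ[X]), P.natDegree ≤ d → Q.natDegree ≤ d →
      (P ^ α * Q ^ β).natDegree ≤ dd d := by
    intro P Q hP hQ
    refine natDegree_mul_le.trans ?_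
    have h1 : (P ^ α).natDegree ≤ d ^ 3 * d :=
      natDegree_pow_le.trans (Nat.mul_le_mul hα hP)
    have h2 : (Q ^ β).natDegree ≤ d ^ 3 * d :=
      natDegree_pow_le.trans (Nat.mul_le_mul hβ hQ)
    have e1 : d ^ 3 * d = d ^ 4 := by ring
    unfold dd
    rw [e1] at h1 h2
    omega
  have hn1 : ‖vl (f a ^ α * H l' ^ β) (φ u)‖ = 1 := by
    rw [vl_mul, vl_pow, vl_pow, norm_mul, norm_pow, norm_pow, T.nH l' hl', one_pow, mul_one]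
    by_cases h0 : α = 0
    · rw [h0, pow_zero]
    · rw [← hF h0, E.nF, one_pow]
  have hn2 : ‖vl (H a ^ α * f l' ^ β) (φ u)‖ = 1 := by
    rw [vl_mul, vl_pow, vl_pow, norm_mul, norm_pow, norm_pow, T.nf l' hl', E.nH, one_pow, one_pow,
      mul_one]
  have hval : ((Ua ^ α * (Ul ^ β)⁻¹ : Cˣ) : C) * vl (H a ^ α * f l' ^ β) (φ u) =
      vl (f a ^ α * H l' ^ β) (φ u) := by
    rw [vl_mul, vl_mul, vl_pow, vl_pow, vl_pow, vl_pow, Units.val_mul, Units.val_inv_eq_inv_val,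
      Units.val_pow_eq_pow_val, Units.val_pow_eq_pow_val, ← hUl]
    have hUl0 : (Ul : C) ≠ 0 := Ul.ne_zero
    have h3 : (Ua : C) ^ α * vl (H a) (φ u) ^ α = vl (f a) (φ u) ^ α := by
      by_cases h0 : α = 0
      · rw [h0, pow_zero, pow_zero, pow_zero, one_mul]
      · rw [← hF h0, ← hUa, mul_pow]
    rw [← h3, mul_pow]
    have h4 := pow_ne_zero β hUl0
    field_simp
  have hNW := T.good.nw_exc hjl (Ne.symm hj) (Ne.symm hl) (Ne.symm hl') (α := α) (β := β)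
    (lt_of_le_of_lt hα (by omega)) (lt_of_le_of_lt hβ (by omega)) hαβ
  rcases hW with rfl | rfl
  · exact ⟨_, _, hdeg _ _ (T.good.degf a) (T.good.degH l'), hdeg _ _ (T.good.degH a)
      (T.good.degf l'), hNW, hn1, hn2, hval⟩
  · refine ⟨_, _, hdeg _ _ (T.good.degH a) (T.good.degf l'), hdeg _ _ (T.good.degf a)
      (T.good.degH l'), hNW.swap₂, hn2, hn1, ?_⟩
    rw [← hval, Units.val_inv_eq_inv_val]
    have := (Ua ^ α * (Ul ^ β)⁻¹).ne_zero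
    field_simp

end

end Pool.Agent.Q170.PO
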