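import Pool.Agent.Q170.PO.Px5

/-!
# The exceptional coordinate bounds wild torsion, general denominators, third part
-/

set_option autoImplicit false
set_option linter.unusedSectionVars false

open UpperHalfPlane H294ZP Polynomial

namespace Pool.Agent.Q170.PO

open Pool.Agent.Y226 Pool.Agent.Y226.ZG Pool.Agent.Y226.ZM

section gen

variable {C : Type} [NormedField C] [IsUltrametricDist C]

/-- units near one -/
theorem near_mul {a b : Cˣ} {δ : ℝ} (hδ : δ < 1) (ha : ‖(a : C) - 1‖ ≤ δ)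
    (hb : ‖(b : C) - 1‖ ≤ δ) : ‖((a * b : Cˣ) : C) - 1‖ ≤ δ := by
  have e : ((a * b : Cˣ) : C) - 1 = ((a : C) - 1) * b + ((b : C) - 1) := by
    rw [Units.val_mul]
    ring
  rw [e]
  exact nadd_le (nmul_le' ha (neq_one (hb.trans_lt hδ) norm_one).le) hb

theorem near_inv {a : Cˣ} {δ : ℝ} (hδ : δ < 1) (ha : ‖(a : C) - 1‖ ≤ δ) :
    ‖((a⁻¹ : Cˣ) : C) - 1‖ ≤ δ := by
  have h1 : ‖(a : C)‖ = 1 := neq_one (ha.trans_lt hδ) norm_one
  have h0 : (a : C) ≠ 0 := a.ne_zero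
  have e : ((a⁻¹ : Cˣ) : C) - 1 = -(((a : C) - 1) * (a : C)⁻¹) := by
    rw [Units.val_inv_eq_inv_val]
    field_simp
    ring
  rw [e, norm_neg]
  exact nmul_le' ha (by rw [norm_inv, h1, inv_one])

theorem near_pow {a : Cˣ} {δ : ℝ} (hδ0 : 0 ≤ δ) (hδ : δ < 1) (ha : ‖(a : C) - 1‖ ≤ δ) (n : ℕ) :
    ‖((a ^ n : Cˣ) : C) - 1‖ ≤ δ := by
  induction n with
  | zero => simpa using hδ0
  | succ n ih =>
    rw [pow_succ]
    exact near_mul hδ ih ha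

theorem near_zpow {a : Cˣ} {δ : ℝ} (hδ0 : 0 ≤ δ) (hδ : δ < 1) (ha : ‖(a : C) - 1‖ ≤ δ) (n : ℤ) :
    ‖((a ^ n : Cˣ) : C) - 1‖ ≤ δ := by
  obtain ⟨m, rfl | rfl⟩ := Int.eq_nat_or_neg n
  · rw [zpow_natCast]
    exact near_pow hδ0 hδ ha m
  · rw [zpow_neg, zpow_natCast]
    exact near_inv hδ (near_pow hδ0 hδ ha m)

end gen

theorem grp_id {G : Type*} [CommGroup G] (qa ql M Ua Ul η : G) (k κ : ℕ) :
    qa ^ k * (ql ^ κ)⁻¹ * (M ^ k * (M ^ κ)⁻¹) * (Ua ^ k * (Ul ^ κ)⁻¹) =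
      (qa * (M * η ^ (-(κ : ℤ)) * Ua)) ^ k * ((ql * (M * η ^ (-(k : ℤ)) * Ul)) ^ κ)⁻¹ := by
  have hz : (η ^ (-(κ : ℤ))) ^ k = (η ^ (-(k : ℤ))) ^ κ := by
    rw [← zpow_natCast, ← zpow_mul, ← zpow_natCast, ← zpow_mul]
    congr 1
    ring
  simp only [mul_pow, mul_inv]
  rw [hz]
  generalize (η ^ (-(k : ℤ))) ^ κ = z
  have e3 : z * z⁻¹ = 1 := mul_inv_cancel z
  calc _ = qa ^ k * (ql ^ κ)⁻¹ * (M ^ k * (M ^ κ)⁻¹) * (Ua ^ k * (Ul ^ κ)⁻¹) * (z * z⁻¹) := by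
        rw [e3, mul_one]
    _ = _ := by ac_rfl

section

variable {C : Type} [NormedField C] [IsUltrametricDist C] [CompleteSpace C] [CharZero C]
  [IsAlgClosed C] {p d n : ℕ} [hpf : Fact p.Prime] {φ : QA →+* C} {f H : Fin n → ℤ[X]} {g : ℤ[X]}
  {m : ℤ} {u : QA} {X : Fin n → QA} {a : Fin n} {π Fa : ℤ[X]} {k : ℕ} {k' : ℤ}
  (T : PT2 p d φ f H g m u X (fun i => i ≠ a)) (E : EX p d φ f H g m u X a π Fa k k')

include T E

/-- The exceptional coordinate bounds wild torsion. -/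
theorem EX.c3 (hN : S_NEAR) (hW : S_WILD) (hRoot : S_ROOT) {e : C} (he : e ∈ Nr C p)
    (hue : ‖φ u - e‖ < 1) {j l l' : Fin n} (hjl : j ≠ l) (hj : j ≠ a) (hl : l ≠ a) (hl' : l' ≠ a)
    {τ w : ℍ} {a' b c e' : ℤ} (hdet : 0 < a' * e' - b * c)
    (hw : (w : ℂ) * (c * τ + e') = a' * τ + b) (hXj : rA (X l') = jj τ) (hXl : rA (X a) = jj w)
    {g' s : ℕ} {ζ' ε : Cˣ} (h : PP2 p φ f H g m u X j l g' s ζ' ε) : s ≤ 2 := by
  by_contra hs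
  obtain ⟨t, rfl⟩ : ∃ t, s = t + 1 := ⟨s - 1, by omega⟩
  have hb := T.big3
  have hp0 := T.hp0
  have hp1 := T.hp1
  have hfar := T.far hN he hue hj hl h
  have hπn := root_norm hp1 E.sep T.u1 he hue E.small hfar
  have hh0 : 0 < ‖φ u - e‖ := hp0.trans hfar
  obtain ⟨κ, hκN, hκ1, hκη⟩ := root_param hp1 E.sep T.u1 he hue E.small
  have hπ0 : vl π (φ u) ≠ 0 := norm_pos_iff.1 (by rw [hπn]; exact hh0)
  have hdp : d < p := by omega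
  -- the units
  obtain ⟨η₀, hη₀⟩ : ∃ η : Cˣ, (η : C) = vl π (φ u) := ⟨Units.mk0 _ hπ0, rfl⟩
  obtain ⟨M, hM⟩ : ∃ η : Cˣ, (η : C) = (m : C) := ⟨Units.mk0 _ T.mC0, rfl⟩
  have hFa0 : vl Fa (φ u) ≠ 0 := norm_pos_iff.1 (by rw [E.nF]; exact one_pos)
  have hHa0 : vl (H a) (φ u) ≠ 0 := norm_pos_iff.1 (by rw [E.nH]; exact one_pos)
  obtain ⟨Ua, hUa⟩ : ∃ η : Cˣ, (η : C) * vl (H a) (φ u) = vl Fa (φ u) :=
    ⟨Units.mk0 _ (div_ne_zero hFa0 hHa0), by rw [Units.val_mk0, div_mul_cancel₀ _ hHa0]⟩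
  have hfl0 := T.f0 hl'
  have hHl0 := T.H0 hl'
  obtain ⟨Ul, hUl⟩ : ∃ η : Cˣ, (η : C) * vl (H l') (φ u) = vl (f l') (φ u) :=
    ⟨Units.mk0 _ (div_ne_zero hfl0 hHl0), by rw [Units.val_mk0, div_mul_cancel₀ _ hHl0]⟩
  rw [← hη₀] at hπn hκη
  have hUaG := quot_GG T.u1 he hue E.nF E.nH hUa
  have hUlG := quot_GG T.u1 he hue (T.nf l' hl') (T.nH l' hl') hUl
  have hUan : ‖(Ua : C)‖ = 1 := GG_norm hUaG
  have hUln : ‖(Ul : C)‖ = 1 := GG_norm hUlG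
  -- the coordinates
  have hxa : φ (X a) = ((M⁻¹ * η₀ ^ (-k') * Ua : Cˣ) : C) := by
    rw [E.φX T, ← hUa, ← hη₀, ← hM]
    simp only [Units.val_mul, Units.val_inv_eq_inv_val, Units.val_zpow_eq_zpow_val]
    have := M.ne_zero
    field_simp
  have hxl : φ (X l') = ((M⁻¹ * η₀ ^ (-(k : ℤ)) * Ul : Cˣ) : C) := by
    rw [T.φX hl', ← hUl, ← hM, E.hg, vl_pow, ← hη₀]
    simp only [Units.val_mul, Units.val_inv_eq_inv_val, Units.val_pow_eq_pow_val, zpow_neg,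
      zpow_natCast]
    have := M.ne_zero
    have := η₀.ne_zero
    field_simp
  -- the Tate parameters
  set ψ := φ.comp iA with hψdef
  have hψ : ∀ z, ‖ψ z‖ ≤ 1 := psi_norm φ
  have hX1 := T.big hl'
  obtain ⟨A, B, g₁, ζ, hA, hB, hAB, hg₁, hζ, hq, hY1, -⟩ :=
    tate_rel3 (ψ := ψ) (i₀ := iA) hψ rA_comp rfl hdet hw hXj hXl hX1
  obtain ⟨qa, hqa⟩ : ∃ q : Cˣ, (q : C) = qT ψ (φ (X a)) := ⟨Units.mk0 _ (qT_ne hψ hY1), rfl⟩
  obtain ⟨ql, hql⟩ : ∃ q : Cˣ, (q : C) = qT ψ (φ (X l')) := ⟨Units.mk0 _ (qT_ne hψ hX1), rfl⟩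
  obtain ⟨ζu, hζu⟩ : ∃ q : Cˣ, (q : C) = ζ := ⟨Units.mk0 _ (hζ.ne_zero hg₁.ne'), rfl⟩
  have hζ1 : ζu ^ g₁ = 1 := by
    apply Units.ext
    rw [Units.val_pow_eq_pow_val, hζu, hζ.pow_eq_one, Units.val_one]
  have hrel : qa ^ B = ζu * ql ^ A := by
    apply Units.ext
    rw [Units.val_pow_eq_pow_val, Units.val_mul, Units.val_pow_eq_pow_val, hqa, hql, hζu]
    exact hq
  have hua : ‖((qa * (M⁻¹ * η₀ ^ (-k') * Ua) : Cˣ) : C) - 1‖ ≤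
      ‖((M⁻¹ * η₀ ^ (-k') * Ua : Cˣ) : C)‖⁻¹ := by
    have := qT_expand' hψ hY1
    rwa [← hqa, hxa, ← Units.val_mul] at this
  have hul : ‖((ql * (M⁻¹ * η₀ ^ (-(k : ℤ)) * Ul) : Cˣ) : C) - 1‖ ≤
      ‖((M⁻¹ * η₀ ^ (-(k : ℤ)) * Ul : Cˣ) : C)‖⁻¹ := by
    have := qT_expand' hψ hX1
    rwa [← hql, hxl, ← Units.val_mul] at this
  have hMn : ‖(M : C)‖ ≤ ‖(p : C)‖ := by rw [hM]; exact T.mn
  have hη₀1 : ‖(η₀ : C)‖ ≤ 1 := by rw [hπn]; exact hue.le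
  have hnn : ∀ (z : ℤ) (U : Cˣ), ‖(U : C)‖ = 1 → ‖((M⁻¹ * η₀ ^ (-z) * U : Cˣ) : C)‖⁻¹ =
      ‖(M : C)‖ * ‖(η₀ : C)‖ ^ z := by
    intro z U hU
    simp only [Units.val_mul, Units.val_inv_eq_inv_val, Units.val_zpow_eq_zpow_val, norm_mul,
      norm_inv, norm_zpow, hU, mul_one, zpow_neg, mul_inv, inv_inv]
  rw [hnn _ _ hUan] at hua
  rw [hnn _ _ hUln] at hul
  have hnn0 : ∀ z : ℤ, 0 ≤ z → ‖(M : C)‖ * ‖(η₀ : C)‖ ^ z ≤ ‖(p : C)‖ := by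
    intro z hz
    obtain ⟨q, rfl⟩ := Int.eq_ofNat_of_zero_le hz
    rw [zpow_natCast]
    exact (mul_le_of_le_one_right (norm_nonneg _) (pow_le_one₀ (norm_nonneg _) hη₀1)).trans hMn
  have hδ := norm_nonneg (φ u - e)
  by_cases hk : k = 0
  · -- no common pole
    have hk'0 : k' ≠ 0 := fun h0 => E.kk (by rw [hk, h0]; rfl)
    have hk'd : (-k').natAbs ≤ d := by
      have h1 := E.kd'
      rcases lt_or_ge k' 0 with h2 | h2
      · obtain ⟨-, h3⟩ := E.neg h2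
        rw [h3]
        have := T.d0
        omega
      · omega
    obtain ⟨ω, hω, ω₀, hω₀N, hω₀1, hωω⟩ := exists_omega hRoot hp0 hp1 hδ hue hfar.le hUaG
      (μ := -k') (neg_ne_zero.2 hk'0) (lt_of_le_of_lt hk'd hdp)
    have hωn : ‖(ω : C)‖ = 1 := neq_one (hωω.trans_lt hue) hω₀1
    have hηn : ‖((η₀ * ω : Cˣ) : C)‖ = ‖φ u - e‖ := by
      rw [Units.val_mul, norm_mul, hωn, mul_one, hπn]
    have hη1 : ‖((η₀ * ω : Cˣ) : C)‖ < 1 := by rw [hηn]; exact hue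
    have key := T.finish hW he hue hj hl hjl h (κ := κ * ω₀⁻¹) (η := η₀ * ω)
      (mul_mem hκN (Nr_inv hω₀N hω₀1)) (by rw [norm_mul, norm_inv, hκ1, hω₀1, inv_one, one_mul])
      hηn (new_param hκ1 hπn hκη hω₀1 hωω) (Yl := Ul) hη1 (by
        rw [mem_GG, hηn]
        exact hUlG) (μ := -k') (neg_ne_zero.2 hk'0) hk'd (wl := 1) one_pos T.d0 (M := M)
      (qi := qa) (ql := ql) hM ?_ ?_ hA hB hg₁ hζ1 hrel ?_
    · omega
    · have e1 : qa * M⁻¹ * (η₀ * ω) ^ (-k') = qa * (M⁻¹ * η₀ ^ (-k') * Ua) := by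
        rw [mul_zpow, hω]
        ac_rfl
      rw [e1]
      refine hua.trans ?_
      rw [Units.val_zpow_eq_zpow_val, norm_zpow, hηn, ← hπn, ← zpow_neg, neg_neg]
      exact mul_le_mul_of_nonneg_right hMn (zpow_nonneg (norm_nonneg _) _)
    · have e1 : ql * M⁻¹ ^ 1 * Ul = ql * (M⁻¹ * η₀ ^ (-(k : ℤ)) * Ul) := by
        rw [hk, Nat.cast_zero, neg_zero, zpow_zero, mul_one, pow_one, mul_assoc]
      rw [e1]
      exact hul.trans (hnn0 _ (Int.natCast_nonneg _))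
    · intro c₀ hc₀ hc₁
      have hc3 : c₀.natAbs ≤ d ^ 3 := by
        have e3 : d ^ 3 = d * d * d := by ring
        rw [e3]
        exact hc₁.trans (Nat.le_mul_of_pos_right _ T.d0)
      refine E.nw T hjl hj hl hl' hUa hUl (α := 0) (β := c₀.natAbs) (Nat.zero_le _) hc3
        (Or.inr (Int.natAbs_pos.2 hc₀)) (fun h0 => absurd rfl h0) (Ul ^ c₀) ?_
      rw [pow_zero, one_mul, inv_inv]
      rcases Int.natAbs_eq c₀ with h1 | h1
      · right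
        conv_lhs => rw [h1]
        rw [zpow_natCast]
      · left
        conv_lhs => rw [h1]
        rw [zpow_neg, zpow_natCast]
  · -- a common pole
    have hk0 : 0 < k := Nat.pos_of_ne_zero hk
    have hk'0 : 0 ≤ k' := by
      by_contra h0
      exact hk (E.neg (not_le.1 h0)).1
    have hFa := E.hFa hk
    have hkd := E.kd
    have hk'd := E.kd'
    obtain ⟨κ', rfl⟩ := Int.eq_ofNat_of_zero_le hk'0
    have hkk : k ≠ κ' := fun h0 => E.kk (by rw [h0])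
    have hκ'd : κ' ≤ d := by exact_mod_cast hk'd
    obtain ⟨ω, hω, ω₀, hω₀N, hω₀1, hωω⟩ := exists_omega hRoot hp0 hp1 hδ hue hfar.le hUlG
      (μ := -(k : ℤ)) (by omega) (lt_of_le_of_lt (by omega : (-(k : ℤ)).natAbs ≤ d) hdp)
    have hωn : ‖(ω : C)‖ = 1 := neq_one (hωω.trans_lt hue) hω₀1
    have hηn : ‖((η₀ * ω : Cˣ) : C)‖ = ‖φ u - e‖ := by
      rw [Units.val_mul, norm_mul, hωn, mul_one, hπn]
    have hη1 : ‖((η₀ * ω : Cˣ) : C)‖ < 1 := by rw [hηn]; exact hue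
    -- the sign
    obtain ⟨σ, wl, hσ, hwl0, hwl⟩ : ∃ (σ : ℤ) (wl : ℕ), (σ = 1 ∨ σ = -1) ∧ 0 < wl ∧
        (wl : ℤ) = σ * (k - κ') := by
      rcases lt_or_gt_of_ne hkk with h1 | h1
      · exact ⟨-1, κ' - k, Or.inr rfl, by omega, by omega⟩
      · exact ⟨1, k - κ', Or.inl rfl, by omega, by omega⟩
    have hwld : wl ≤ d := by
      rcases hσ with rfl | rfl <;> omega
    obtain ⟨Q₀, hQ₀⟩ : ∃ q : Cˣ, q = (qa ^ k * (ql ^ κ')⁻¹) ^ σ := ⟨_, rfl⟩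
    obtain ⟨Y₀, hY₀⟩ : ∃ q : Cˣ, q = (Ua ^ k * (Ul ^ κ')⁻¹) ^ σ := ⟨_, rfl⟩
    have hYG : Y₀ ∈ GG C p ‖φ u - e‖ hδ hue := by
      rw [hY₀]
      exact zpow_mem (mul_mem (pow_mem hUaG _) (inv_mem (pow_mem hUlG _))) _
    have hYn : ‖(Y₀ : C)‖ = 1 := GG_norm hYG
    have hua' : ‖((qa * (M⁻¹ * η₀ ^ (-(κ' : ℤ)) * Ua) : Cˣ) : C) - 1‖ ≤ ‖(p : C)‖ :=
      hua.trans (hnn0 _ (Int.natCast_nonneg _))
    have hul' : ‖((ql * (M⁻¹ * η₀ ^ (-(k : ℤ)) * Ul) : Cˣ) : C) - 1‖ ≤ ‖(p : C)‖ :=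
      hul.trans (hnn0 _ (Int.natCast_nonneg _))
    have hQ1 : ‖((Q₀ * M⁻¹ ^ wl * Y₀ : Cˣ) : C) - 1‖ ≤ ‖(p : C)‖ := by
      have e1 : Q₀ * M⁻¹ ^ wl * Y₀ = ((qa * (M⁻¹ * η₀ ^ (-(κ' : ℤ)) * Ua)) ^ k *
          ((ql * (M⁻¹ * η₀ ^ (-(k : ℤ)) * Ul)) ^ κ')⁻¹) ^ σ := by
        have e2 : M⁻¹ ^ wl = (M⁻¹ ^ k * (M⁻¹ ^ κ')⁻¹) ^ σ := by
          rw [← zpow_natCast M⁻¹ k, ← zpow_natCast M⁻¹ κ', ← zpow_neg, ← zpow_add, ← zpow_mul,
            ← zpow_natCast, hwl]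
          congr 1
          ring
        rw [e2, hQ₀, hY₀, ← mul_zpow, ← mul_zpow, grp_id]
      rw [e1]
      exact near_zpow (norm_nonneg _) hp1 (near_mul hp1 (near_pow (norm_nonneg _) hp1 hua' _)
        (near_inv hp1 (near_pow (norm_nonneg _) hp1 hul' _))) _
    -- the relation
    obtain ⟨D, hD⟩ : ∃ D : ℤ, D = σ * ((k : ℤ) * A - κ' * B) := ⟨_, rfl⟩
    have hrelD : Q₀ ^ B = ζu ^ (σ * k) * ql ^ D := by
      have e1 : (qa ^ k * (ql ^ κ')⁻¹) ^ B = ζu ^ (k : ℤ) * ql ^ ((k : ℤ) * A - κ' * B) := by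
        rw [mul_pow, inv_pow, ← pow_mul, mul_comm k B, pow_mul, hrel, mul_pow, ← pow_mul,
          ← pow_mul, zpow_sub, zpow_natCast, mul_assoc]
        congr 2
        rw [← zpow_natCast, Nat.cast_mul, mul_comm]
      rw [hQ₀, hD, mul_comm σ (k : ℤ), mul_comm σ ((k : ℤ) * A - κ' * B), zpow_mul, zpow_mul,
        ← mul_zpow, ← e1]
      generalize qa ^ k * (ql ^ κ')⁻¹ = z
      rw [← zpow_natCast, ← zpow_natCast, ← zpow_mul, ← zpow_mul, mul_comm]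
    have hQn : ‖(Q₀ : C)‖ < 1 := by
      have h1 : ‖((Q₀ * M⁻¹ ^ wl * Y₀ : Cˣ) : C)‖ = 1 := neq_one (hQ1.trans_lt hp1) norm_one
      rw [Units.val_mul, Units.val_mul, norm_mul, norm_mul, hYn, mul_one,
        Units.val_pow_eq_pow_val, Units.val_inv_eq_inv_val, norm_pow, norm_inv] at h1
      have hM0 : 0 < ‖(M : C)‖ := norm_pos_iff.2 M.ne_zero
      have h2 : ‖(Q₀ : C)‖ = ‖(M : C)‖ ^ wl := by
        have h3 : 0 < ‖(M : C)‖ ^ wl := pow_pos hM0 _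
        rw [inv_pow] at h1
        field_simp at h1
        exact h1
      rw [h2]
      exact pow_lt_one₀ hM0.le (hMn.trans_lt hp1) hwl0.ne'
    have hqln : ‖(ql : C)‖ < 1 := by
      rw [hql]
      exact qT_lt hψ hX1
    have hζn : ‖(ζu : C)‖ = 1 := by
      have h1 : ‖(ζu : C)‖ ^ g₁ = 1 := by rw [← norm_pow, hζu, hζ.pow_eq_one, norm_one]
      exact (pow_eq_one_iff_of_nonneg (norm_nonneg _) hg₁.ne').1 h1
    have hDpos : 0 < D := by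
      by_contra h0
      push Not at h0
      have h1 := congrArg (fun z : Cˣ => ‖(z : C)‖) hrelD
      simp only [Units.val_mul, Units.val_pow_eq_pow_val, Units.val_zpow_eq_zpow_val, norm_mul,
        norm_pow, norm_zpow, hζn, one_zpow, one_mul] at h1
      have h2 : ‖(Q₀ : C)‖ ^ B < 1 := pow_lt_one₀ (norm_nonneg _) hQn hB.ne'
      obtain ⟨q, hq'⟩ := Int.eq_ofNat_of_zero_le (neg_nonneg.2 h0)
      have h3 : D = -(q : ℤ) := by omega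
      rw [h1, h3, zpow_neg, zpow_natCast] at h2
      have h4 : 0 < ‖(ql : C)‖ := norm_pos_iff.2 ql.ne_zero
      have h5 : 1 ≤ (‖(ql : C)‖ ^ q)⁻¹ :=
        (one_le_inv₀ (pow_pos h4 _)).2 (pow_le_one₀ h4.le hqln.le)
      exact absurd h2 (not_lt.2 h5)
    obtain ⟨D', hD'⟩ := Int.eq_ofNat_of_zero_le hDpos.le
    have hD'0 : 0 < D' := by omega
    have key := T.finish hW he hue hj hl hjl h (κ := κ * ω₀⁻¹) (η := η₀ * ω)
      (mul_mem hκN (Nr_inv hω₀N hω₀1)) (by rw [norm_mul, norm_inv, hκ1, hω₀1, inv_one, one_mul])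
      hηn (new_param hκ1 hπn hκη hω₀1 hωω) (Yl := Y₀) hη1 (by
        rw [mem_GG, hηn]
        exact hYG) (μ := -(k : ℤ)) (by omega) (by omega) (wl := wl) hwl0 hwld (M := M)
      (qi := ql) (ql := Q₀) hM ?_ hQ1 (A := B) (B := D') hB hD'0 hg₁
      (ζ := (ζu ^ (σ * k))⁻¹) ?_ ?_ ?_
    · omega
    · have e1 : ql * M⁻¹ * (η₀ * ω) ^ (-(k : ℤ)) = ql * (M⁻¹ * η₀ ^ (-(k : ℤ)) * Ul) := by
        rw [mul_zpow, hω]
        ac_rfl
      rw [e1]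
      refine hul.trans ?_
      rw [Units.val_zpow_eq_zpow_val, norm_zpow, hηn, ← hπn, ← zpow_neg, neg_neg]
      exact mul_le_mul_of_nonneg_right hMn (zpow_nonneg (norm_nonneg _) _)
    · rw [inv_pow, ← zpow_natCast, ← zpow_mul, mul_comm, zpow_mul, zpow_natCast, hζ1, one_zpow,
        inv_one]
    · rw [hrelD, hD', zpow_natCast, inv_mul_cancel_left]
    · intro c₀ hc₀ hc₁
      have e3 : d ^ 3 = d * (d * d) := by ring
      refine E.nw T hjl hj hl hl' hUa hUl (α := k * c₀.natAbs) (β := κ' * c₀.natAbs) ?_ ?_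
        (Or.inl (Nat.mul_pos hk0 (Int.natAbs_pos.2 hc₀))) (fun _ => hFa) (Y₀ ^ c₀) ?_
      · rw [e3]
        exact Nat.mul_le_mul hkd hc₁
      · rw [e3]
        exact Nat.mul_le_mul hκ'd hc₁
      · have e4 : Ua ^ (k * c₀.natAbs) * (Ul ^ (κ' * c₀.natAbs))⁻¹ =
            (Ua ^ k * (Ul ^ κ')⁻¹) ^ c₀.natAbs := by
          rw [pow_mul, pow_mul, ← inv_pow, ← mul_pow]
        rw [e4, hY₀]
        generalize Ua ^ k * (Ul ^ κ')⁻¹ = z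
        rw [← zpow_mul]
        rcases hσ with rfl | rfl <;> rcases Int.natAbs_eq c₀ with h1 | h1
        · left
          conv_lhs => rw [h1]
          rw [one_mul, zpow_natCast]
        · right
          conv_lhs => rw [h1]
          rw [one_mul, zpow_neg, zpow_natCast]
        · right
          conv_lhs => rw [h1]
          rw [neg_one_mul, zpow_neg, zpow_natCast]
        · left
          conv_lhs => rw [h1]
          rw [neg_one_mul, neg_neg, zpow_natCast]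

end

end Pool.Agent.Q170.PO
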