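import Pool.Agent.Q170.PO.Px6
import Pool.Agent.Q170.UZ.PlK
import Pool.Agent.Q26.UZ.COMB

/-!
# The local theorem at one place, general denominators
-/

set_option autoImplicit false
set_option linter.unusedSectionVars false

open UpperHalfPlane H294ZP Polynomial

namespace Pool.Agent.Q170.PO

open Pool.Agent.Y226 Pool.Agent.Y226.ZG Pool.Agent.Y226.ZM
open Pool.Agent.Q170.UZ (Iso)

/-- the bound for the degrees of the isogenies -/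
def GB (p d B : ℕ) : ℕ := (p ^ (B * d.factorial) * p ^ 2) ^ 2

section

variable {C : Type} [NormedField C] [IsUltrametricDist C] [CompleteSpace C] [CharZero C]
  [IsAlgClosed C] {p d n : ℕ} [hpf : Fact p.Prime] {φ : QA →+* C} {f H : Fin n → ℤ[X]} {g : ℤ[X]}
  {m : ℤ} {u : QA} {X : Fin n → QA} {S : Fin n → Prop} (T : PT2 p d φ f H g m u X S)

include T

theorem PT2.isoG {B : ℕ} (hB : 0 < B) {e : C} (he1 : ‖e‖ ≤ 1) (hue : ‖φ u - e‖ < 1)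
    (he : e ^ p ^ B = e ∨ e ^ p ^ d.factorial = e)
    {j l : Fin n} (hj : S j) (hl : S l)
    {g' s : ℕ} {ζ' ε : Cˣ} (h : PP2 p φ f H g m u X j l g' s ζ' ε) (hs : s ≤ 2) :
    Iso (GB p d B) (rA (X j)) (rA (X l)) := by
  have hd := Nat.factorial_pos d
  have he' : e ^ p ^ (B * d.factorial) = e := by
    rcases he with h1 | h1
    · exact fixed_pow_mul h1 _
    · rw [mul_comm]
      exact fixed_pow_mul h1 _
  have h1 := T.ord he1 hue (Nat.mul_pos hB hd) he' hj hl h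
  refine ⟨(g' * p ^ s) ^ 2, pow_pos (Nat.mul_pos h.hg (pow_pos hpf.out.pos _)) _, ?_, h.hrel⟩
  exact Nat.pow_le_pow_left (Nat.mul_le_mul h1 (Nat.pow_le_pow_right hpf.out.pos hs)) 2

/-- constant coordinates -/
theorem PT2.const {Γ : Set ℂ} (hΓ : ∀ γ ∈ Γ, ∃ c : QA, rA c = γ ∧ ‖φ c‖ ≤ 1) {r : ℕ}
    (Z : SV Γ n r) (hZ : (fun i => rA (X i)) ∈ Z.locus) {i : Fin n} (hi : Z.cls i = none) :
    ‖φ (X i)‖ ≤ 1 := by
  obtain ⟨z, hz⟩ := hZ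
  have h1 : rA (X i) = Z.const i := (hz i).1 hi
  refine norm_le_one_of_adjoin φ hΓ ?_
  rw [h1]
  exact Z.int i

theorem PT2.nconst {Γ : Set ℂ} (hΓ : ∀ γ ∈ Γ, ∃ c : QA, rA c = γ ∧ ‖φ c‖ ≤ 1) {r : ℕ}
    (Z : SV Γ n r) (hZ : (fun i => rA (X i)) ∈ Z.locus) {i : Fin n} (hi : Z.cls i = none) :
    ¬ S i := fun h => absurd (T.const hΓ Z hZ hi) (not_le.2 (T.big h))

/-- the information on a pair in one class -/
theorem PT2.pairZ (hP : S_PAIR) {Γ : Set ℂ} {r : ℕ} (Z : SV Γ n r)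
    (hZ : (fun i => rA (X i)) ∈ Z.locus) {j l : Fin n} {c : Fin r} (hcj : Z.cls j = some c)
    (hcl : Z.cls l = some c) (hj : S j) (hl : S l) :
    ∃ (g' s : ℕ) (ζ' ε : Cˣ), PP2 p φ f H g m u X j l g' s ζ' ε := by
  obtain ⟨a, b, c, e, hdet, hrel⟩ := Z.rel_unif hcj hcl
  obtain ⟨w, w', h1, h2, h3⟩ := hrel _ hZ
  exact T.pair hP hj hl hdet h1 h2 h3

end

section

variable {C : Type} [NormedField C] [IsUltrametricDist C] [CompleteSpace C] [CharZero C]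
  [IsAlgClosed C] {p d n : ℕ} [hpf : Fact p.Prime] {φ : QA →+* C} {f H : Fin n → ℤ[X]} {g : ℤ[X]}
  {m : ℤ} {u : QA} {X : Fin n → QA}

/-- The local theorem, no exceptional coordinate. -/
theorem PT2.local0 (T : PT2 p d φ f H g m u X (fun _ => True)) (hP : S_PAIR) (hW : S_WILD) {B : ℕ}
    (hB0 : 0 < B) (hB : TB2 p (6 * d) B) {Γ : Set ℂ}
    (hΓ : ∀ γ ∈ Γ, ∃ c : QA, rA c = γ ∧ ‖φ c‖ ≤ 1) {r : ℕ} (hr : r + 2 ≤ n)
    (Z : SV Γ n r) (hZ : (fun i => rA (X i)) ∈ Z.locus) :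
    (∀ i, Z.cls i ≠ none) ∧ ∀ j l c, j ≠ l → Z.cls j = some c → Z.cls l = some c →
      Iso (GB p d B) (rA (X j)) (rA (X l)) := by
  have hnone : ∀ i, Z.cls i ≠ none := fun i hi => T.nconst hΓ Z hZ hi trivial
  refine ⟨hnone, ?_⟩
  intro j l c hjl hcj hcl
  obtain ⟨e, fe, hfe, hfe', hue⟩ := exists_near T.hp1 φ u T.u1
  have heN : e ∈ Nr C p := Nr_of_fixed hfe hfe'
  obtain ⟨j₀, l₀, c', hjl₀, hj₀, hl₀, hcj₀, hcl₀⟩ := Pool.Agent.Q26.UZ.pig n r Z.cls hr l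
    (fun i _ => hnone i)
  obtain ⟨j', l', hjl', hcj', hcl', h1, h2⟩ : ∃ j' l' : Fin n, j' ≠ l' ∧ Z.cls j' = some c' ∧
      Z.cls l' = some c' ∧ l' ≠ j ∧ l' ≠ l := by
    by_cases h : l₀ = j
    · exact ⟨l₀, j₀, hjl₀.symm, hcl₀, hcj₀, fun h' => hjl₀ (h'.trans h.symm), hj₀⟩
    · exact ⟨j₀, l₀, hjl₀, hcj₀, hcl₀, h, hl₀⟩
  obtain ⟨g₁, s₁, ζ₁, ε₁, hP₁⟩ := T.pairZ hP Z hZ hcj hcl trivial trivial
  obtain ⟨g₂, s₂, ζ₂, ε₂, hP₂⟩ := T.pairZ hP Z hZ hcj' hcl' trivial trivial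
  obtain ⟨rfl, rfl⟩ := T.no_wild hW heN hue trivial trivial trivial trivial hjl hjl' (by
    rintro (⟨-, h3⟩ | ⟨h3, -⟩)
    · exact h2 h3.symm
    · exact h1 h3.symm) hP₁ hP₂
  have he := T.tame hB ⟨fe, hfe, hfe'⟩ hue trivial trivial trivial trivial hjl hjl' h1 h2 hP₁ hP₂
  exact T.isoG hB0 (Nr_le heN) hue (Or.inl he) trivial trivial hP₁ (by omega)

/-- The local theorem, one exceptional coordinate. -/
theorem PT2.local1 {a : Fin n} {π Fa : ℤ[X]} {k : ℕ} {k' : ℤ}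
    (T : PT2 p d φ f H g m u X (fun i => i ≠ a)) (E : EX p d φ f H g m u X a π Fa k k')
    (hP : S_PAIR) (hN : S_NEAR) (hW : S_WILD) (hRoot : S_ROOT) {B : ℕ}
    (hB0 : 0 < B) {Γ : Set ℂ}
    (hΓ : ∀ γ ∈ Γ, ∃ c : QA, rA c = γ ∧ ‖φ c‖ ≤ 1) {r : ℕ} (hr : r + 2 ≤ n)
    (Z : SV Γ n r) (hZ : (fun i => rA (X i)) ∈ Z.locus) :
    (∀ i, Z.cls i = none → i = a) ∧ ∀ j l c, j ≠ l → Z.cls j = some c → Z.cls l = some c →
      j ≠ a → l ≠ a → Iso (GB p d B) (rA (X j)) (rA (X l)) := by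
  have hnone : ∀ i, Z.cls i = none → i = a := by
    intro i hi
    by_contra h
    exact T.nconst hΓ Z hZ hi h
  refine ⟨hnone, ?_⟩
  intro j l c hjl hcj hcl hj hl
  obtain ⟨e, fe, hfe, hfe', hue⟩ := exists_near T.hp1 φ u T.u1
  have heN : e ∈ Nr C p := Nr_of_fixed hfe hfe'
  have he := E.root T ⟨fe, hfe, hfe'⟩ hue
  obtain ⟨g₁, s₁, ζ₁, ε₁, hP₁⟩ := T.pairZ hP Z hZ hcj hcl hj hl
  refine T.isoG hB0 (Nr_le heN) hue (Or.inr he) hj hl hP₁ ?_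
  by_cases ha : Z.cls a = none
  · have := E.c2 T hN heN hue hj hl (T.const hΓ Z hZ ha) hP₁
    omega
  · have hnone' : ∀ i, Z.cls i ≠ none := fun i hi => ha ((hnone i hi) ▸ hi)
    obtain ⟨j', l', c', hjl', h1, h2, hcj', hcl'⟩ := Pool.Agent.Q26.UZ.pig n r Z.cls hr l
      (fun i _ => hnone' i)
    by_cases hj'a : j' = a
    · subst hj'a
      obtain ⟨a', b, c, e', hdet, hrel⟩ := Z.rel_unif hcl' hcj'
      obtain ⟨w, w', h3, h4, h5⟩ := hrel _ hZ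
      exact E.c3 T hN hW hRoot heN hue hjl hj hl hjl'.symm hdet h3 h4 h5 hP₁
    · by_cases hl'a : l' = a
      · subst hl'a
        obtain ⟨a', b, c, e', hdet, hrel⟩ := Z.rel_unif hcj' hcl'
        obtain ⟨w, w', h3, h4, h5⟩ := hrel _ hZ
        exact E.c3 T hN hW hRoot heN hue hjl hj hl hjl' hdet h3 h4 h5 hP₁
      · obtain ⟨g₂, s₂, ζ₂, ε₂, hP₂⟩ := T.pairZ hP Z hZ hcj' hcl' hj'a hl'a
        have := T.no_wild hW heN hue hj hl hj'a hl'a hjl hjl' (by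
          rintro (⟨-, h3⟩ | ⟨-, h3⟩)
          · exact h2 h3.symm
          · exact h1 h3.symm) hP₁ hP₂
        omega

end

end Pool.Agent.Q170.PO
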