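import Pool.Agent.Q170.PO.Px7
import Pool.Agent.Q14.UZ.TAT
import Pool.Agent.Q26.UZ.REL

/-!
# The information at one place, one chart
-/

set_option autoImplicit false
set_option linter.unusedSectionVars false

open UpperHalfPlane H294ZP Polynomial

namespace Pool.Agent.Q170.PO

open Pool.Agent.Y226 Pool.Agent.Y226.ZG Pool.Agent.Y226.ZM
open Pool.Agent.Q170.UZ (Iso PC rel_dir rel_mid)

section

variable {C : Type} [NormedField C] [IsUltrametricDist C] [CompleteSpace C] [CharZero C]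
  [IsAlgClosed C] {p d n : ℕ} [hpf : Fact p.Prime] {φ : QA →+* C} {f H : Fin n → ℤ[X]} {g : ℤ[X]}
  {m : ℤ} {u : QA} {X : Fin n → QA} {S : Fin n → Prop} (T : PT2 p d φ f H g m u X S)

include T

/-- the relation modulo `p` from a relation between the normalized coordinates -/
theorem PT2.redrel {k : Type} [Field k] [CharP k p] (red : OO C →+* k)
    (hker : ∀ x : OO C, red x = 0 ↔ ‖(x : C)‖ < 1) {j l : Fin n} (hj : S j) (hl : S l) {M : ℕ}
    (h : ‖(vl (f l) (φ u) * (vl (H l) (φ u))⁻¹) ^ (1 * M) -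
      (vl (f j) (φ u) * (vl (H j) (φ u))⁻¹) ^ (1 * M)‖ < 1) :
    (vl (f l) (red ⟨φ u, T.u1⟩) * vl (H j) (red ⟨φ u, T.u1⟩)) ^ M =
      (vl (f j) (red ⟨φ u, T.u1⟩) * vl (H l) (red ⟨φ u, T.u1⟩)) ^ M := by
  rw [← vl_map, ← vl_map, ← vl_map, ← vl_map, ← map_mul, ← map_mul, ← map_pow, ← map_pow,
    ← sub_eq_zero, ← map_sub, hker]
  rw [one_mul] at h
  have hHj := T.H0 hj
  have hHl := T.H0 hl
  have e1 : (((vl (f l) (⟨φ u, T.u1⟩ : OO C) * vl (H j) (⟨φ u, T.u1⟩ : OO C)) ^ M -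
      (vl (f j) (⟨φ u, T.u1⟩ : OO C) * vl (H l) (⟨φ u, T.u1⟩ : OO C)) ^ M : OO C) : C) =
      ((vl (f l) (φ u) * (vl (H l) (φ u))⁻¹) ^ M - (vl (f j) (φ u) * (vl (H j) (φ u))⁻¹) ^ M) *
        (vl (H l) (φ u) * vl (H j) (φ u)) ^ M := by
    rw [AddSubgroupClass.coe_sub]
    simp only [SubmonoidClass.coe_pow, MulMemClass.coe_mul, vl_OO]
    rw [sub_mul, ← mul_pow, ← mul_pow]
    congr 2
    · field_simp
    · field_simp
  rw [e1, norm_mul, norm_pow, norm_mul, T.nH l hl, T.nH j hj, one_mul, one_pow, mul_one]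
  exact h

theorem PT2.zn {i : Fin n} (hi : S i) : ‖vl (f i) (φ u) * (vl (H i) (φ u))⁻¹‖ = 1 := by
  rw [norm_mul, norm_inv, T.nf i hi, T.nH i hi, inv_one, one_mul]

theorem PT2.φX' {i : Fin n} (hi : S i) :
    φ (X i) = (vl (f i) (φ u) * (vl (H i) (φ u))⁻¹) / ((m : C) * vl g (φ u)) ^ 1 := by
  rw [T.φX hi, pow_one]
  have := T.H0 hi
  have := T.mg0
  field_simp

theorem PT2.mg1 : ‖(m : C) * vl g (φ u)‖ < 1 := T.mgn.trans_lt T.hp1

/-- a bounded isogeny gives a relation modulo `p` -/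
theorem PT2.dir {k : Type} [Field k] [CharP k p] (red : OO C →+* k)
    (hker : ∀ x : OO C, red x = 0 ↔ ‖(x : C)‖ < 1) {j l : Fin n} (hj : S j) (hl : S l) {G' : ℕ}
    (h : Iso G' (rA (X j)) (rA (X l))) :
    (vl (f l) (red ⟨φ u, T.u1⟩) * vl (H j) (red ⟨φ u, T.u1⟩)) ^ (G' * G').factorial =
      (vl (f j) (red ⟨φ u, T.u1⟩) * vl (H l) (red ⟨φ u, T.u1⟩)) ^ (G' * G').factorial := by
  obtain ⟨N, hN0, hN, hΨ⟩ := h
  exact T.redrel red hker hj hl (rel_dir Q14.UZ.t_TAT Q26.UZ.t_REL φ T.mg0 T.mg1 one_pos one_pos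
    hN0 hN (T.zn hj) (T.zn hl) (T.φX' hj) (T.φX' hl) hΨ)

/-- two bounded isogenies with a third coordinate give a relation modulo `p` -/
theorem PT2.mid {k : Type} [Field k] [CharP k p] (red : OO C →+* k)
    (hker : ∀ x : OO C, red x = 0 ↔ ‖(x : C)‖ < 1) {j l : Fin n} (hj : S j) (hl : S l) {G' : ℕ}
    {a : Fin n} (h : Iso G' (rA (X j)) (rA (X a))) (h' : Iso G' (rA (X l)) (rA (X a))) :
    (vl (f l) (red ⟨φ u, T.u1⟩) * vl (H j) (red ⟨φ u, T.u1⟩)) ^ (G' * G').factorial =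
      (vl (f j) (red ⟨φ u, T.u1⟩) * vl (H l) (red ⟨φ u, T.u1⟩)) ^ (G' * G').factorial := by
  obtain ⟨N, hN0, hN, hΨ⟩ := h
  obtain ⟨N', hN'0, hN', hΨ'⟩ := h'
  exact T.redrel red hker hj hl (rel_mid Q14.UZ.t_TAT Q26.UZ.t_REL φ T.mg0 T.mg1 one_pos one_pos
    hN0 hN hN'0 hN' (T.zn hj) (T.zn hl) (T.φX' hj) (T.φX' hl) hΨ hΨ')

end

/-- the factors of the denominators -/
structure Fac (d : ℕ) {n : ℕ} (g : Fin n → ℤ[X]) {T : ℕ} (π : Fin T → ℤ[X])
    (K : Fin T → Fin n → ℕ) (c : Fin n → ℤ) : Prop where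
  g0 : ∀ i, g i ≠ 0
  deg : ∀ i, (g i).natDegree ≤ d
  c0 : ∀ i, c i ≠ 0
  eq : ∀ i, g i = C (c i) * ∏ t, π t ^ K t i
  pos : ∀ t, 0 < (π t).natDegree
  exc : ∀ t, ∃ (a : Fin n) (k : ℕ), ∀ i, i ≠ a → K t i = k

/-- the prime number `p` is good for the denominators -/
structure FacP (p : ℕ) {n T : ℕ} (π : Fin T → ℤ[X]) (c : Fin n → ℤ) : Prop where
  c : ∀ i, ¬ (p : ℤ) ∣ c i
  sep : ∀ t, IsCoprime (rd p (π t)) (derivative (rd p (π t)))
  cop : ∀ t t', t ≠ t' → IsCoprime (rd p (π t)) (rd p (π t'))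

/-- the prime number `p` is large -/
structure Big (p d : ℕ) : Prop where
  big1 : 2 * d * (4 * dd d) < p
  big2 : 4 * dd d + 1 < p
  big3 : d ^ 3 + 2 * d + 2 < p

section fac

variable {d n T : ℕ} {g : Fin n → ℤ[X]} {π : Fin T → ℤ[X]} {K : Fin T → Fin n → ℕ} {c : Fin n → ℤ}
  (h : Fac d g π K c)

include h

theorem Fac.eqH (t : Fin T) (i : Fin n) : g i = π t ^ K t i * Hq π K c t i := by
  unfold Hq
  rw [h.eq i, ← Finset.mul_prod_erase Finset.univ _ (Finset.mem_univ t)]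
  ring

theorem Fac.degH (t : Fin T) (i : Fin n) : (Hq π K c t i).natDegree ≤ d := by
  have h1 := h.g0 i
  rw [h.eqH t i] at h1
  have h2 := h.deg i
  rw [h.eqH t i, natDegree_mul (left_ne_zero_of_mul h1) (right_ne_zero_of_mul h1)] at h2
  omega

theorem Fac.degπ (t : Fin T) (i : Fin n) : (π t ^ K t i).natDegree ≤ d := by
  have h1 := h.g0 i
  rw [h.eqH t i] at h1
  have h2 := h.deg i
  rw [h.eqH t i, natDegree_mul (left_ne_zero_of_mul h1) (right_ne_zero_of_mul h1)] at h2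
  omega

theorem Fac.Kd (t : Fin T) (i : Fin n) : K t i ≤ d := by
  have h1 := h.degπ t i
  rw [natDegree_pow] at h1
  have h2 := h.pos t
  calc K t i ≤ K t i * (π t).natDegree := Nat.le_mul_of_pos_right _ h2
    _ ≤ d := h1

end fac

end Pool.Agent.Q170.PO
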