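import Pool.Agent.Q170.PO.Px8

/-!
# The information at one place, one chart, second part
-/

set_option autoImplicit false
set_option linter.unusedSectionVars false

open UpperHalfPlane H294ZP Polynomial

namespace Pool.Agent.Q170.PO

open Pool.Agent.Y226 Pool.Agent.Y226.ZG Pool.Agent.Y226.ZM
open Pool.Agent.Q170.UZ (Iso PC)

theorem vl_one {R : Type*} [CommRing R] (u : R) : vl (1 : ℤ[X]) u = 1 := by
  unfold vl
  rw [eval₂_one]

theorem vl_C' {R : Type*} [CommRing R] (a : ℤ) (u : R) : vl (C a) u = a := by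
  unfold vl
  rw [eval₂_C]
  rfl

theorem vl_prod {R : Type*} [CommRing R] {ι : Type*} (s : Finset ι) (P : ι → ℤ[X]) (u : R) :
    vl (∏ i ∈ s, P i) u = ∏ i ∈ s, vl (P i) u := by
  unfold vl
  rw [eval₂_finsetProd]

/-- the data of one chart at one place -/
structure Chart {C : Type} [NormedField C] (p d M : ℕ) {n T : ℕ} (φ : QA →+* C)
    (f g : Fin n → ℤ[X]) (π : Fin T → ℤ[X]) (K : Fin T → Fin n → ℕ) (c : Fin n → ℤ) (m : ℤ)
    (u : QA) (X : Fin n → QA) : Prop where
  hp0 : 0 < ‖(p : C)‖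
  hp1 : ‖(p : C)‖ < 1
  d0 : 0 < d
  big : Big p d
  fac : Fac d g π K c
  facP : FacP p π c
  good : GoodQ p d f g
  rel : NoRelQ p M f g π K c
  m0 : m ≠ 0
  pm : (p : ℤ) ∣ m
  u1 : ‖φ u‖ ≤ 1
  g0 : ∀ i, vl (g i) u ≠ 0
  hX : ∀ i, X i = vl (f i) u / (m * vl (g i) u)

section

variable {C : Type} [NormedField C] [IsUltrametricDist C] [CompleteSpace C] [CharZero C]
  [IsAlgClosed C] {p d n T M : ℕ} [hpf : Fact p.Prime] {φ : QA →+* C} {f g : Fin n → ℤ[X]}
  {π : Fin T → ℤ[X]} {K : Fin T → Fin n → ℕ} {c : Fin n → ℤ} {m : ℤ} {u : QA} {X : Fin n → QA}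
  (R : Chart p d M φ f g π K c m u X)

include R

theorem Chart.goodg : GoodH p d f g where
  degf := R.good.degf
  degH := R.fac.deg
  pos := R.good.pos
  sep := R.good.sep
  cop := R.good.cop
  copH := R.good.copg

theorem Chart.goodH (t : Fin T) : GoodH p d f (Hq π K c t) where
  degf := R.good.degf
  degH := R.fac.degH t
  pos := R.good.pos
  sep := R.good.sep
  cop := R.good.cop
  copH := fun i j => by
    have h1 := R.good.copg i j
    rw [R.fac.eqH t j, rd_mul] at h1
    exact h1.of_mul_right_right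

/-- the data at a place where the denominators are units -/
theorem Chart.pt {S : Fin n → Prop} (hg : ∀ i, ‖vl (g i) (φ u)‖ = 1)
    (hf : ∀ i, S i → ‖vl (f i) (φ u)‖ = 1) : PT2 p d φ f g 1 m u X S where
  hp0 := R.hp0
  hp1 := R.hp1
  good := R.goodg
  degg := by simp
  d0 := R.d0
  big1 := R.big.big1
  big2 := R.big.big2
  big3 := R.big.big3
  m0 := R.m0
  pm := R.pm
  u1 := R.u1
  g0 := by
    rw [vl_one]
    exact one_ne_zero
  nf := hf
  nH := fun i _ => hg i
  hX := fun i _ => by rw [R.hX, vl_one, mul_one]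

theorem Chart.cn (i : Fin n) : ‖((c i : ℤ) : C)‖ = 1 := int_unit R.hp1 (R.facP.c i)

/-- a common factor which is not a unit -/
theorem Chart.fac_small {i : Fin n} (hi : ‖vl (g i) (φ u)‖ < 1) :
    ∃ t, ‖vl (π t) (φ u)‖ < 1 ∧ K t i ≠ 0 := by
  by_contra hcon
  push Not at hcon
  have h1 : ‖vl (g i) (φ u)‖ = 1 := by
    rw [R.fac.eq i, vl_mul, vl_C', vl_prod, norm_mul, R.cn i, one_mul, norm_prod]
    refine Finset.prod_eq_one fun t _ => ?_
    rw [vl_pow, norm_pow]
    by_cases h2 : ‖vl (π t) (φ u)‖ < 1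
    · rw [hcon t h2, pow_zero]
    · rw [le_antisymm (vl_le _ R.u1) (not_lt.1 h2), one_pow]
  rw [h1] at hi
  exact lt_irrefl _ hi

theorem Chart.Hn {t : Fin T} (ht : ‖vl (π t) (φ u)‖ < 1) (i : Fin n) :
    ‖vl (Hq π K c t i) (φ u)‖ = 1 := by
  unfold Hq
  rw [vl_mul, vl_C', vl_prod, norm_mul, R.cn i, one_mul, norm_prod]
  refine Finset.prod_eq_one fun t' ht' => ?_
  rw [vl_pow, norm_pow, cop_norm R.hp1 (R.facP.cop t t' (Finset.ne_of_mem_erase ht').symm) R.u1 ht,
    one_pow]

theorem Chart.fn {i : Fin n} (hi : ‖vl (g i) (φ u)‖ < 1) (j : Fin n) : ‖vl (f j) (φ u)‖ = 1 :=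
  cop_norm R.hp1 (R.good.copg j i).symm R.u1 hi

theorem Chart.π0 {i : Fin n} {t : Fin T} (hK : K t i ≠ 0) : vl (π t) u ≠ 0 := by
  intro h0
  apply R.g0 i
  rw [R.fac.eqH t i, vl_mul, vl_pow, h0, zero_pow hK, zero_mul]

/-- the data at a place near a common pole -/
theorem Chart.ptπ {S : Fin n → Prop} {i : Fin n} (hi : ‖vl (g i) (φ u)‖ < 1) {t : Fin T}
    (ht : ‖vl (π t) (φ u)‖ < 1) (hK : K t i ≠ 0) {k : ℕ} {i₀ : Fin n} (hi₀ : K t i₀ = k)
    (hS : ∀ i, S i → K t i = k) : PT2 p d φ f (Hq π K c t) (π t ^ k) m u X S where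
  hp0 := R.hp0
  hp1 := R.hp1
  good := R.goodH t
  degg := hi₀ ▸ R.fac.degπ t i₀
  d0 := R.d0
  big1 := R.big.big1
  big2 := R.big.big2
  big3 := R.big.big3
  m0 := R.m0
  pm := R.pm
  u1 := R.u1
  g0 := by
    rw [vl_pow]
    exact pow_ne_zero _ (R.π0 hK)
  nf := fun j _ => R.fn hi j
  nH := fun j _ => R.Hn ht j
  hX := fun j hj => by
    rw [R.hX j, R.fac.eqH t j, vl_mul (π t ^ K t j), hS j hj, mul_assoc]

/-- the information at one place, one chart -/
theorem Chart.pc {G' B : ℕ} (hM : M = (G' * G').factorial) (hP : S_PAIR) (hN : S_NEAR)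
    (hW : S_WILD) (hRoot : S_ROOT) (hB0 : 0 < B) (hB : TB2 p (6 * d) B) {Γ : Set ℂ}
    (hΓ : ∀ γ ∈ Γ, ∃ c : QA, rA c = γ ∧ ‖φ c‖ ≤ 1) {r : ℕ} (hr : r + 2 ≤ n)
    (Z : SV Γ n r) (hZ : (fun i => rA (X i)) ∈ Z.locus) :
    ∃ bad : Fin n → Prop, PC Z.cls (GB p d B) G' (fun i => rA (X i)) bad := by
  obtain ⟨kf, _, _, red, hker⟩ := exists_residue (C := C) (p := p) R.hp1
  have hn : ∀ a : Fin n, ∃ i₀ : Fin n, i₀ ≠ a := by
    intro a
    have : Nontrivial (Fin n) := Fin.nontrivial_iff_two_le.2 (by omega)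
    exact exists_ne a
  by_cases hg : ∀ i, ‖vl (g i) (φ u)‖ = 1
  · have hg' : ∀ i, vl (g i) (red ⟨φ u, R.u1⟩) ≠ 0 := by
      intro i
      rw [← vl_map, Ne, hker, vl_OO, hg i]
      exact lt_irrefl _
    by_cases hf : ∀ i, ‖vl (f i) (φ u)‖ = 1
    · -- no exceptional coordinate
      have T := R.pt (S := fun _ => True) hg (fun i _ => hf i)
      obtain ⟨h1, h2⟩ := T.local0 hP hW hB0 hB hΓ hr Z hZ
      refine ⟨fun _ => False, ?_⟩
      constructor
      · exact fun _ _ h _ => h.elim
      · exact fun i hi => h1 i hi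
      · exact fun j l c hjl hj hl _ _ => h2 j l c hjl hj hl
      · exact fun _ _ _ h => h.elim
      · exact fun _ _ _ h => h.elim
      · intro _ j l j' l' hjl hjl' h3 h4
        by_contra hne
        exact R.rel.two kf (red ⟨φ u, R.u1⟩) hg' j l j' l' hjl hjl' hne
          (hM ▸ T.dir red hker trivial trivial h3) (hM ▸ T.dir red hker trivial trivial h4)
    · -- near a zero of a coordinate
      push Not at hf
      obtain ⟨a, ha⟩ := hf
      have ha' : ‖vl (f a) (φ u)‖ < 1 := lt_of_le_of_ne (vl_le _ R.u1) ha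
      have T := R.pt (S := fun i => i ≠ a) hg (fun i hi => cop_norm R.hp1
        (R.good.cop a i (Ne.symm hi)) R.u1 ha')
      have hred : vl (f a) (red ⟨φ u, R.u1⟩) = 0 := by
        rw [← vl_map, hker, vl_OO]
        exact ha'
      have E : EX p d φ f g 1 m u X a (f a) 1 0 (-1) := by
        constructor
        · rw [pow_zero]
        · exact R.good.degf a
        · exact R.good.sep a
        · exact ha'
        · decide
        · exact Nat.zero_le _
        · omega
        · exact fun _ => ⟨rfl, rfl⟩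
        · exact fun h => absurd rfl h
        · rw [vl_one, norm_one]
        · exact hg a
        · rw [R.hX, vl_one, neg_neg, zpow_one, one_mul]
      obtain ⟨h1, h2⟩ := T.local1 E hP hN hW hRoot hB0 hΓ hr Z hZ
      refine ⟨fun i => i = a, ?_⟩
      constructor
      · exact fun j l hj hl => hj.trans hl.symm
      · exact h1
      · exact fun j l c hjl hj hl hj' hl' => h2 j l c hjl hj hl hj' hl'
      · rintro b j l rfl hjl hjb hlb h3
        exact R.rel.one kf _ b j l hred hjl (Ne.symm hjb) (Ne.symm hlb)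
          (hM ▸ T.dir red hker hjb hlb h3)
      · rintro b j l rfl hjl hjb hlb h3 h4
        exact R.rel.one kf _ b j l hred hjl (Ne.symm hjb) (Ne.symm hlb)
          (hM ▸ T.mid red hker hjb hlb h3 h4)
      · intro h3
        exact absurd rfl (h3 a)
  · -- near a pole
    push Not at hg
    obtain ⟨i, hi⟩ := hg
    have hi' : ‖vl (g i) (φ u)‖ < 1 := lt_of_le_of_ne (vl_le _ R.u1) hi
    obtain ⟨t, ht, hK⟩ := R.fac_small hi'
    obtain ⟨a, k, hak⟩ := R.fac.exc t
    obtain ⟨i₀, hi₀⟩ := hn a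
    have hred : vl (π t) (red ⟨φ u, R.u1⟩) = 0 := by
      rw [← vl_map, hker, vl_OO]
      exact ht
    by_cases hka : K t a = k
    · -- a common pole of all the coordinates
      have hall : ∀ j, K t j = k := by
        intro j
        by_cases hj : j = a
        · rw [hj, hka]
        · exact hak j hj
      have T := R.ptπ (S := fun _ => True) hi' ht hK (hall i₀) (fun j _ => hall j)
      obtain ⟨h1, h2⟩ := T.local0 hP hW hB0 hB hΓ hr Z hZ
      refine ⟨fun _ => False, ?_⟩
      constructor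
      · exact fun _ _ h _ => h.elim
      · exact fun i hi => h1 i hi
      · exact fun j l c hjl hj hl _ _ => h2 j l c hjl hj hl
      · exact fun _ _ _ h => h.elim
      · exact fun _ _ _ h => h.elim
      · intro _ j l j' l' hjl hjl' h3 h4
        exact absurd (hM ▸ T.dir red hker trivial trivial h3)
          (R.rel.pole kf _ t j l hred hjl ((hall j).trans (hall l).symm))
    · -- an exceptional coordinate
      have T := R.ptπ (S := fun j => j ≠ a) hi' ht hK (hak i₀ hi₀) hak
      have E : EX p d φ f (Hq π K c t) (π t ^ k) m u X a (π t) (f a) k (K t a) := by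
        constructor
        · rfl
        · have h3 := R.fac.degπ t i
          rw [natDegree_pow] at h3
          exact (Nat.le_mul_of_pos_left _ (Nat.pos_of_ne_zero hK)).trans h3
        · exact R.facP.sep t
        · exact ht
        · exact fun h3 => hka (by exact_mod_cast h3.symm)
        · exact (hak i₀ hi₀) ▸ R.fac.Kd t i₀
        · exact_mod_cast R.fac.Kd t a
        · intro h3
          exact absurd h3 (by omega)
        · exact fun _ => rfl
        · exact R.fn hi' a
        · exact R.Hn ht a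
        · rw [R.hX a, R.fac.eqH t a, vl_mul, vl_pow, zpow_neg, zpow_natCast]
          have h3 := R.π0 hK
          have h4 := R.g0 a
          rw [R.fac.eqH t a, vl_mul] at h4
          have h5 := right_ne_zero_of_mul h4
          have h6 : (m : QA) ≠ 0 := Int.cast_ne_zero.2 R.m0
          field_simp
      obtain ⟨h1, h2⟩ := T.local1 E hP hN hW hRoot hB0 hΓ hr Z hZ
      refine ⟨fun i => i = a, ?_⟩
      constructor
      · exact fun j l hj hl => hj.trans hl.symm
      · exact h1
      · exact fun j l c hjl hj hl hj' hl' => h2 j l c hjl hj hl hj' hl'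
      · rintro b j l rfl hjl hjb hlb h3
        exact R.rel.pole kf _ t j l hred hjl ((hak j hjb).trans (hak l hlb).symm)
          (hM ▸ T.dir red hker hjb hlb h3)
      · rintro b j l rfl hjl hjb hlb h3 h4
        exact R.rel.pole kf _ t j l hred hjl ((hak j hjb).trans (hak l hlb).symm)
          (hM ▸ T.mid red hker hjb hlb h3 h4)
      · intro h3
        exact absurd rfl (h3 a)

end

end Pool.Agent.Q170.PO
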