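import Pool.Agent.Q170.PO.St2

/-!
# Project PX, fixed curves: spreading out (statement)

`GoodQ`, `NoRelQ`, `Hq` are in `Pool.Agent.Q170.PO.St2`, `rd`, `vl` in `Pool.Agent.Q170.PO.St`.
-/

set_option autoImplicit false
set_option linter.unusedSectionVars false

open Polynomial

namespace Pool.Agent.Q170.PO

/-- JOB PX-SPREAD. The conditions of `GoodQ` and `NoRelQ` for fixed polynomials hold for almost all
`p` if they hold over `ℂ`. PROOF. `degf` is the hypothesis; `pos`: `p` does not divide the leading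
coefficient of `f_i`. `sep`, `cop`, `copg`: Bezout identities over `ℚ`, clear the denominators
(`A P + B Q = D` in `ℤ[X]` with an integer `D ≠ 0`), and take `p` larger than `|D|`. `one`: the
polynomials `f_a` and `R = (f_l g_j) ^ M - (f_j g_l) ^ M` have no common zero in `ℂ`, so they are
coprime over `ℚ` (an irreducible common factor would have a zero in `ℂ`); again
`A f_a + B R = D`, and for `p` larger than `|D|` there is no common zero in a field of characteristic
`p`. `pole`: the same for `π_t` and `(f_l H_j) ^ M - (f_j H_l) ^ M`. `two`: let `G = ∏ g_i`, and let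
`R`, `R'` be the two polynomials `(f_l g_j) ^ M - (f_j g_l) ^ M`, `(f_l' g_j') ^ M - (f_j' g_l') ^ M`.
All common zeros of `R`, `R'` in `ℂ` are zeros of `G`, so `G` is in the radical of the ideal
`(R, R')` of `ℚ[X]` (each prime ideal `(q)` which contains `R`, `R'` contains `G`: evaluate at a
complex zero of `q`; if `q = 0` then `R = R' = 0`, and `G (x) = 0` for all `x`, so `G = 0`), i.e.
`A R + B R' = D G ^ N` with `A, B` in `ℤ[X]`, `D ≠ 0` an integer. For `p` larger than `|D|` a common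
zero of `R`, `R'` in a field of characteristic `p` is a zero of `G`. There are finitely many
conditions (`Fin n`, `Fin T` are finite), take the maximum of the bounds. -/
def S_SPREAD : Prop := ∀ (n d : ℕ) (f g : Fin n → ℤ[X]), (∀ i, (f i).natDegree ≤ d) →
  (∀ i, 0 < (f i).natDegree) → (∀ i, g i ≠ 0) →
  (∀ i, IsCoprime ((f i).map (Int.castRingHom ℚ)) (derivative ((f i).map (Int.castRingHom ℚ)))) →
  (∀ i j, i ≠ j → IsCoprime ((f i).map (Int.castRingHom ℚ)) ((f j).map (Int.castRingHom ℚ))) →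
  (∀ i j, IsCoprime ((f i).map (Int.castRingHom ℚ)) ((g j).map (Int.castRingHom ℚ))) →
  ∀ (T : ℕ) (π : Fin T → ℤ[X]) (K : Fin T → Fin n → ℕ) (c : Fin n → ℤ) (M : ℕ),
  (∀ x : ℂ, (∀ i, vl (g i) x ≠ 0) → ∀ j l j' l' : Fin n,
    j ≠ l → j' ≠ l' → ¬ ((j = j' ∧ l = l') ∨ (j = l' ∧ l = j')) →
    (vl (f l) x * vl (g j) x) ^ M = (vl (f j) x * vl (g l) x) ^ M →
    (vl (f l') x * vl (g j') x) ^ M ≠ (vl (f j') x * vl (g l') x) ^ M) →
  (∀ (x : ℂ) (a j l : Fin n), vl (f a) x = 0 → j ≠ l →
    a ≠ j → a ≠ l → (vl (f l) x * vl (g j) x) ^ M ≠ (vl (f j) x * vl (g l) x) ^ M) →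
  (∀ (x : ℂ) (t : Fin T) (j l : Fin n), vl (π t) x = 0 →
    j ≠ l → K t j = K t l →
    (vl (f l) x * vl (Hq π K c t j) x) ^ M ≠ (vl (f j) x * vl (Hq π K c t l) x) ^ M) →
  ∃ Q : ℕ, ∀ p : ℕ, p.Prime → Q < p → GoodQ p d f g ∧ NoRelQ p M f g π K c

end Pool.Agent.Q170.PO
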